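import Pool.Agent.Lib.MP_41de88_nt.Link

set_option autoImplicit false

open Polynomial NumberField IsDedekindDomain WithZero Filter

namespace Pool.Agent.Lib.Crit79

open helper22.Val MP_41de88_nt

lemma exists_frob_fixed' {P : ℚ[X]} (hP : P ≠ 0) (L : Type) [Field L] [NumberField L]
    (hs : (P.map (algebraMap ℚ L)).Splits) : ∃ N : ℕ,
      ∀ p ∈ RootMod P, N < p → ∀ Q : Ideal (𝓞 L), Q.IsPrime → (p : 𝓞 L) ∈ Q →
        ∀ σ : L ≃ₐ[ℚ] L, (∀ y : 𝓞 L, σ • y - y ^ p ∈ Q) → ∃ y ∈ rts P L, σ • y = y := by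
  obtain ⟨N, hN⟩ := (ev_good (M := L) P).and (ev_units
    (((rts P L).finite_toSet.prod (rts P L).finite_toSet).image fun z => z.1 - z.2))
  refine ⟨N, fun p hp hNp Q hQ hpQ σ hσ => ?_⟩
  obtain ⟨hp, a, -, ha⟩ := hp
  let w : HeightOneSpectrum (𝓞 L) := ⟨Q, hQ, helper22.PIT.ne_bot_of_prime_mem hp hpQ⟩
  obtain ⟨h1, h2⟩ := hN L (RingHom.id L) p hp hNp w hpQ
  obtain ⟨y, h3, h4⟩ := h1.exists_root_close hP hs (val_aeval_rat_lt hp hpQ ha)
  have hy := (mem_rts hP).mpr h3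
  refine ⟨y, hy, by_contra fun hne => ?_⟩
  have h5 := val_frob_lt (w := w) hp.ne_zero hσ h4
  have := Valuation.map_sub_lt _ h4 h5
  rw [smul_sub, show σ • (a : L) = a from map_ratCast σ a, sub_sub_sub_cancel_left] at this
  exact this.ne (h2 _ ⟨(σ • y, y), ⟨smul_mem_rts hP σ hy, hy⟩, rfl⟩ (sub_ne_zero.mpr hne))

variable {f g : ℚ[X]}

open scoped Classical in
/-- the proportion of Galois elements with a fixed point at level `N` tends to zero -/
def FPP (f g : ℚ[X]) : Prop :=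
  ∀ ε : ℝ, 0 < ε → ∃ N, ∀ (L : Type) [Field L] [NumberField L] [IsGalois ℚ L],
    (∀ j ≤ N, ((itP f g j).map (algebraMap ℚ L)).Splits) →
      ((Finset.univ.filter fun σ : L ≃ₐ[ℚ] L => 0 < nfix (rts (itP f g N) L) σ).card : ℝ)
        ≤ ε * Fintype.card (L ≃ₐ[ℚ] L)

theorem FPP.core (h : FPP f g) (hd0 : f.natDegree ≠ 0) (hg : g ≠ 0) (ε : ℝ) (hε : 0 < ε) :
    ∃ N, ∀ᶠ x : ℝ in atTop, thetaS (RootMod (itP f g N)) x ≤ ε * x := by
  classical
  set D := max f.natDegree g.natDegree with hD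
  have hD0 : (0 : ℝ) < D.factorial := by exact_mod_cast D.factorial_pos
  obtain ⟨N, hN⟩ := h (ε / (4 * D.factorial)) (by positivity)
  refine ⟨N, ?_⟩
  let L := (bigP f g 1 N).SplittingField
  have : NumberField L := NumberField.of_module_finite ℚ L
  have : IsSplittingField ℚ L (bigP f g 1 N) := IsSplittingField.splittingField _
  have : Normal ℚ L := Normal.of_isSplittingField (bigP f g 1 N)
  have : IsGalois ℚ L := ⟨⟩
  obtain ⟨-, hs1⟩ := (splits_bigP_iff (L := L) hd0 hg one_ne_zero N).mp (SplittingField.splits _)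
  have h1 := hN L hs1
  obtain ⟨N₀, hN₀⟩ := exists_frob_fixed' (itP_ne_zero (f := f) hd0 hg N) L (hs1 N le_rfl)
  have h2 := helper22.PIT.frob_theta_bound L (L ≃ₐ[ℚ] L)
    (Finset.univ.filter fun σ : L ≃ₐ[ℚ] L => 0 < nfix (rts (itP f g N) L) σ) D.factorial hD0.le
    (fun σ hσ τ e => by
      obtain ⟨y, hy⟩ := Finset.card_pos.mp (Finset.mem_filter.mp hσ).2
      obtain ⟨h3, h4⟩ := Finset.mem_filter.mp hy
      refine Finset.mem_filter.mpr ⟨Finset.mem_univ _, Finset.card_pos.mpr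
        ⟨y, Finset.mem_filter.mpr ⟨h3, ?_⟩⟩⟩
      have : Subgroup.zpowers σ ≤ MulAction.stabilizer _ y := Subgroup.zpowers_le.mpr h4
      exact this (e ▸ Subgroup.mem_zpowers τ))
    (fun σ => by
      exact_mod_cast orderOf_le hd0 hg one_ne_zero (N := N) (by omega) (by omega) (by simp) σ)
    (RootMod (itP f g N)) N₀ (fun p hp => ⟨hp.1, fun h3 Q hQ hpQ σ hσ => by
      obtain ⟨y, hy⟩ := hN₀ p hp h3 Q hQ hpQ σ hσ
      exact Finset.mem_filter.mpr ⟨Finset.mem_univ _, Finset.card_pos.mpr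
        ⟨y, Finset.mem_filter.mpr hy⟩⟩⟩) (half_pos hε)
  filter_upwards [h2, eventually_ge_atTop 0] with x hx hx0
  refine le_trans hx (mul_le_mul_of_nonneg_right ?_ hx0)
  have hG : (0 : ℝ) < Nat.card (L ≃ₐ[ℚ] L) := by exact_mod_cast Nat.card_pos
  rw [← Nat.card_eq_fintype_card] at h1
  have : 2 * (D.factorial : ℝ) * (Finset.univ.filter fun σ : L ≃ₐ[ℚ] L =>
      0 < nfix (rts (itP f g N) L) σ).card / Nat.card (L ≃ₐ[ℚ] L) ≤ ε / 2 := by
    rw [div_le_iff₀ hG]
    refine (mul_le_mul_of_nonneg_left h1 (by positivity)).trans (le_of_eq ?_)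
    field_simp
    ring
  linarith

theorem small_crit (hd : f.natDegree ≠ 0) (hirr : Irreducible f.derivative)
    (h : FPP f (f.derivative * C f.derivative.leadingCoeff⁻¹)) {α : ℚ} {K : Type} [Field K]
    [NumberField K] (hα : ∀ (n : ℕ) (c : K), aeval c f.derivative = 0 →
      algebraMap ℚ K ((fun x => f.eval x)^[n] α) ≠ c) :
    MP_41de88_nt.Small (critPrimes f α K) := by
  have hf' := hirr.ne_zero
  have h1 : MP_41de88_nt.Small (⋃ c ∈ (rts f.derivative K : Set K), HitMod f α c) := by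
    refine small_biUnion (Finset.finite_toSet _) fun c hc => ?_
    rw [Finset.mem_coe, mem_rts hf'] at hc
    refine small_hitMod (fun n => cast_iterate (L := K) n α ▸ hα n c hc) (small_orbMod α ?_)
    rw [← minpoly.eq_of_irreducible hirr hc]
    exact h.core hd (mul_ne_zero hf' (C_ne_zero.mpr (inv_ne_zero (leadingCoeff_ne_zero.mpr hf'))))
  refine h1.mono ?_
  rintro p ⟨hp, h2, h3, n, c, P, h4, h5, -, h6⟩
  exact Set.mem_biUnion (x := c) ((mem_rts hf').mpr h4)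
    ⟨hp, orbit_integral hp h2 h3, n, P, h5, by rwa [← cast_iterate]⟩

/-- reduction to the tree above a single root -/
lemma fpp_of_tree (hd : f.natDegree ≠ 0) (hg : g ≠ 0)
    (h : ∀ ε : ℝ, 0 < ε → ∃ N, ∀ (L : Type) [Field L] [NumberField L] [IsGalois ℚ L]
      [DecidableEq L] (c : L) [Fintype (MulAction.stabilizer (L ≃ₐ[ℚ] L) c)]
      (W : ℕ → Finset L), (g.map (algebraMap ℚ L)).Splits → aeval c g = 0 →
      (∀ n x, x ∈ W n ↔ (fun x => (f.map (algebraMap ℚ L)).eval x)^[n] x = c) →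
      (∀ n < N, ∀ β, (fun x => (f.map (algebraMap ℚ L)).eval x)^[n] β = c →
        (f.map (algebraMap ℚ L) - C β).Splits) →
      ((Finset.univ.filter fun σ : MulAction.stabilizer (L ≃ₐ[ℚ] L) c =>
        0 < nfix (W N) σ).card : ℝ) ≤ ε * Fintype.card (MulAction.stabilizer (L ≃ₐ[ℚ] L) c)) :
    FPP f g := by
  classical
  intro ε hε
  obtain ⟨N, hN⟩ := h (ε / (g.natDegree + 1)) (by positivity)
  refine ⟨N, fun L _ _ _ hs => ?_⟩
  have hE : ev f L = fun x => (f.map (algebraMap ℚ L)).eval x := funext ev_eq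
  have hP := itP_ne_zero (f := f) hd hg
  set W : L → ℕ → Finset L := fun c n => (rts (itP f g n) L).filter fun x => (ev f L)^[n] x = c
  have h1 : (Finset.univ.filter fun σ : L ≃ₐ[ℚ] L => 0 < nfix (rts (itP f g N) L) σ) ⊆
      (rts g L).biUnion fun c => (Finset.univ.filter fun σ : MulAction.stabilizer (L ≃ₐ[ℚ] L) c =>
        0 < nfix (W c N) σ).image (↑) := by
    intro σ hσ
    obtain ⟨y, hy⟩ := Finset.card_pos.mp (Finset.mem_filter.mp hσ).2
    obtain ⟨h3, h4⟩ := Finset.mem_filter.mp hy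
    refine Finset.mem_biUnion.mpr ⟨(ev f L)^[N] y, ?_, Finset.mem_image.mpr ⟨⟨σ, ?_⟩,
      Finset.mem_filter.mpr ⟨Finset.mem_univ _, Finset.card_pos.mpr ⟨y, Finset.mem_filter.mpr
        ⟨Finset.mem_filter.mpr ⟨h3, rfl⟩, h4⟩⟩⟩, rfl⟩⟩
    · rwa [mem_rts hg, ← aeval_itP, ← mem_rts (hP N)]
    · exact ((Function.Semiconj.iterate_right (f := (σ • ·))
        (fun x => (smul_ev (f := f) σ x).symm) N) y).trans (congrArg _ h4)
  have h2 : ∀ c ∈ rts g L, (((Finset.univ.filter fun σ : MulAction.stabilizer (L ≃ₐ[ℚ] L) c =>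
      0 < nfix (W c N) σ).image ((↑) : _ → L ≃ₐ[ℚ] L)).card : ℝ)
        ≤ ε / (g.natDegree + 1) * Fintype.card (L ≃ₐ[ℚ] L) := by
    intro c hc
    rw [mem_rts hg] at hc
    refine le_trans (by exact_mod_cast Finset.card_image_le) ((hN L c (W c) (hs 0 (Nat.zero_le _))
      hc (fun n x => ?_) fun n hn β hβ => ?_).trans ?_)
    · rw [Finset.mem_filter, mem_rts (hP n), aeval_itP, ← hE]
      exact ⟨fun h => h.2, fun h => ⟨h ▸ hc, h⟩⟩
    · exact splits_sub_C hd (hP n) (itP_succ (f := f) (g := g) n ▸ hs _ hn)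
        (by rw [aeval_itP, hE, hβ, hc])
    · gcongr
      exact Fintype.card_subtype_le _
  refine le_trans (Nat.cast_le.mpr ((Finset.card_le_card h1).trans Finset.card_biUnion_le)) ?_
  rw [Nat.cast_sum]
  refine (Finset.sum_le_card_nsmul _ _ _ h2).trans ?_
  have h3 : ((rts g L).card : ℝ) ≤ g.natDegree + 1 := by
    exact_mod_cast (card_rts_le g).trans (Nat.le_succ _)
  rw [nsmul_eq_mul]
  refine (mul_le_mul_of_nonneg_right h3 (by positivity)).trans (le_of_eq ?_)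
  field_simp

end Pool.Agent.Lib.Crit79
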