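import Mathlib

set_option autoImplicit false
set_option linter.unusedSectionVars false

open Polynomial Finset

namespace Pool.Agent.Lib.Crit79

lemma no_inc {Ω Y : Type*} [DecidableEq Y] (s : Finset Ω) (t : Finset Y) (inc : Ω → Y → Prop)
    [∀ a b, Decidable (inc a b)] {d A : ℕ} (h1 : ∀ ω ∈ s, (t.filter (inc ω)).card ≤ d)
    (h2 : ∀ x ∈ t, (s.filter (inc · x)).card ≤ A) (P : Finset (Y × Y))
    (hP : ∀ p ∈ P, p.1 ≠ p.2 ∧ p.1 ∈ t ∧ p.2 ∈ t ∧ ∃ ω ∈ s, inc ω p.1 ∧ inc ω p.2) (U : Finset Ω)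
    (hU : ∀ ω, (∀ x ∈ t, ¬ inc ω x) → ω ∈ U) :
    d * s.card + P.card ≤ d * U.card + d * (t.card * A) := by
  refine le_trans ?_ (Nat.add_le_add_right (Nat.mul_le_mul_left d (card_le_card
    (s := s.filter fun ω => ∀ x ∈ t, ¬ inc ω x) fun ω hω => hU ω (mem_filter.mp hω).2)) _)
  have e1 : P.card ≤ ∑ ω ∈ s, (t.filter (inc ω)).offDiag.card := by
    refine le_trans (card_le_card fun p hp => ?_) card_biUnion_le
    obtain ⟨h3, h4, h5, ω, h6, h7, h8⟩ := hP p hp
    exact mem_biUnion.mpr ⟨ω, h6, mem_offDiag.mpr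
      ⟨mem_filter.mpr ⟨h4, h7⟩, mem_filter.mpr ⟨h5, h8⟩, h3⟩⟩
  have e2 : ∑ ω ∈ s, (t.filter (inc ω)).card ≤ t.card * A := by
    simp only [card_filter]
    rw [sum_comm]
    simp only [← card_filter]
    exact sum_le_card_nsmul _ _ _ h2
  refine le_trans ?_ (Nat.add_le_add_left (Nat.mul_le_mul_left d e2) _)
  rw [card_filter, mul_sum, mul_sum, ← sum_add_distrib, mul_comm, ← smul_eq_mul, ← sum_const]
  refine (Nat.add_le_add_left e1 _).trans ?_
  rw [← sum_add_distrib]
  refine sum_le_sum fun ω hω => ?_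
  rw [offDiag_card]
  have h3 := h1 ω hω
  split_ifs with h
  · rw [filter_eq_empty_iff.mpr h]; simp
  · push Not at h
    obtain ⟨x, hx, hx'⟩ := h
    obtain ⟨n, hn⟩ : ∃ n, (t.filter (inc ω)).card = n + 1 :=
      Nat.exists_eq_succ_of_ne_zero (card_ne_zero.mpr ⟨x, mem_filter.mpr ⟨hx, hx'⟩⟩)
    rw [hn] at h3 ⊢
    rw [show (n + 1) * (n + 1) - (n + 1) = n * (n + 1) by rw [Nat.sub_eq_iff_eq_add] <;> nlinarith]
    nlinarith

variable {K : Type*} [Field K] [Fintype K] [DecidableEq K]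

lemma line_le {w : K} (hw : w ≠ 0) (u r : K) :
    (univ.filter fun z : K × K => w * (z.1 + z.2 * u) = r).card ≤ Fintype.card K := by
  refine card_le_card_of_injOn Prod.snd (fun _ _ => mem_coe.mpr (mem_univ _)) fun y hy z hz e => ?_
  have := mul_left_cancel₀ hw ((mem_filter.mp hy).2.trans (mem_filter.mp hz).2.symm)
  rw [e] at this
  exact Prod.ext (add_right_cancel this) e

lemma lines (t : Finset K) (w u r : K → K) {d e : ℕ} (hw : ∀ x ∈ t, w x ≠ 0)
    (h1 : ∀ α β, (t.filter fun x => w x * (α + β * u x) = r x).card ≤ d)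
    (h2 : ∀ x, (t.filter fun y => u x = u y).card ≤ e) :
    t.card * (t.card - e) ≤
      d * (univ.filter fun z : K × K => ∀ x ∈ t, ¬ w x * (z.1 + z.2 * u x) = r x).card := by
  have h3 := no_inc (univ : Finset (K × K)) t (fun z x => w x * (z.1 + z.2 * u x) = r x)
    (fun z _ => h1 z.1 z.2) (fun x hx => line_le (hw x hx) _ _)
    ((t ×ˢ t).filter fun p => ¬ u p.1 = u p.2) (fun p hp => by
      obtain ⟨h4, h5⟩ := mem_filter.mp hp
      obtain ⟨h6, h7⟩ := mem_product.mp h4
      have := hw _ h6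
      have := hw _ h7
      have := sub_ne_zero.mpr h5
      refine ⟨fun e => h5 (by rw [e]), h6, h7, (r p.1 / w p.1 - (r p.1 / w p.1 - r p.2 / w p.2)
        / (u p.1 - u p.2) * u p.1, (r p.1 / w p.1 - r p.2 / w p.2) / (u p.1 - u p.2)),
        mem_univ _, ?_, ?_⟩ <;> field_simp <;> ring)
    (univ.filter fun z : K × K => ∀ x ∈ t, ¬ w x * (z.1 + z.2 * u x) = r x)
    fun z hz => mem_filter.mpr ⟨mem_univ _, hz⟩
  have h4 : t.card * (t.card - e) ≤ ((t ×ˢ t).filter fun p => ¬ u p.1 = u p.2).card := by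
    rw [card_filter, sum_product]
    simp only [← card_filter]
    refine card_nsmul_le_sum _ _ _ fun x _ => ?_
    have := card_filter_add_card_filter_not (s := t) fun y => u x = u y
    have := h2 x
    omega
  have h5 := Nat.mul_le_mul_left d (Nat.mul_le_mul_right (Fintype.card K) (card_le_univ t))
  rw [card_univ, Fintype.card_prod] at h3
  omega

lemma card_filter_root {P : K[X]} (hP : P ≠ 0) (t : Finset K) (p : K → Prop) [DecidablePred p]
    (h : ∀ x, p x → P.eval x = 0) : (t.filter p).card ≤ P.natDegree :=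
  card_le_degree_of_subset_roots fun x hx => (mem_roots hP).mpr (h x (mem_filter.mp hx).2)

lemma card_pow_fibre (t : Finset K) {e : ℕ} (he : e ≠ 0) (x : K) :
    (t.filter fun y => x ^ e = y ^ e).card ≤ e := by
  refine (card_filter_root (X_pow_sub_C_ne_zero (Nat.pos_of_ne_zero he) (x ^ e)) t _
    fun y hy => by simp [hy]).trans natDegree_X_pow_sub_C.le

lemma arith {q d e n N : ℕ} (hq : 20 * d + 20 ≤ q) (he : e ≤ d) (hn : q ≤ n + 2)
    (h : n * (n - e) ≤ d * (N + 3 * q)) : q ^ 2 ≤ 2 * d * N := by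
  obtain ⟨m, hm⟩ : ∃ m, n - e = m := ⟨_, rfl⟩
  rw [hm] at h
  have h1 : 9 * q ≤ 10 * m := by omega
  have h2 : 9 * q ≤ 10 * n := by omega
  have h3 := Nat.mul_le_mul h1 h2
  have h4 := Nat.mul_le_mul_right q (show 20 * d ≤ q by omega)
  nlinarith

lemma lines_good (t : Finset K) (w u r : K → K) {d e : ℕ} (hw : ∀ x ∈ t, w x ≠ 0)
    (h1 : ∀ α β, (t.filter fun x => w x * (α + β * u x) = r x).card ≤ d)
    (h2 : ∀ x, (t.filter fun y => u x = u y).card ≤ e) (hq : 20 * d + 20 ≤ Fintype.card K)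
    (he : e ≤ d) (ht : Fintype.card K ≤ t.card + 2) (u₁ r₁ u₂ r₂ : K) :
    Fintype.card K ^ 2 ≤ 2 * d * (univ.filter fun z : K × K => z.2 ≠ 0 ∧ z.1 + z.2 * u₁ ≠ r₁ ∧
      z.1 + z.2 * u₂ ≠ r₂ ∧ ∀ x ∈ t, ¬ w x * (z.1 + z.2 * u x) = r x).card := by
  refine arith hq he ht ((lines t w u r hw h1 h2).trans (Nat.mul_le_mul_left _ ?_))
  have h3 : (univ.filter fun z : K × K => z.2 = 0).card ≤ Fintype.card K :=
    card_le_card_of_injOn Prod.fst (fun _ _ => mem_coe.mpr (mem_univ _)) fun y hy z hz e =>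
      Prod.ext e ((mem_filter.mp hy).2.trans (mem_filter.mp hz).2.symm)
  refine le_trans (card_le_card (t := (_ ∪ univ.filter fun z : K × K => z.2 = 0) ∪
    ((univ.filter fun z : K × K => 1 * (z.1 + z.2 * u₁) = r₁) ∪
      univ.filter fun z : K × K => 1 * (z.1 + z.2 * u₂) = r₂)) fun z hz => ?_)
    ((card_union_le _ _).trans ((Nat.add_le_add ((card_union_le _ _).trans
      (Nat.add_le_add_left h3 _)) ((card_union_le _ _).trans (Nat.add_le_add
        (line_le one_ne_zero _ _) (line_le one_ne_zero _ _)))).trans (le_of_eq (by ring))))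
  simp only [mem_union, mem_filter, mem_univ, true_and, one_mul] at hz ⊢
  tauto

lemma card_sigma_ge {A B : Type*} (s : Finset A) (t : A → Finset B) {m d : ℕ}
    (h : ∀ a ∈ s, m ≤ d * (t a).card) : s.card * m ≤ d * (s.sigma t).card := by
  rw [card_sigma, mul_sum]
  exact card_nsmul_le_sum _ _ _ h

theorem count_Z (r : ℕ) (hq : 20 * (r + 3) + 20 ≤ Fintype.card K) : ∃ S : Finset K[X],
    Fintype.card K ^ (r + 3) ≤ 4 * (r + 3) * S.card ∧ ∀ P ∈ S, P.natDegree < r + 4 ∧
      P.coeff (r + 3) ≠ 0 ∧ P.coeff 1 = 0 ∧ P.coeff 2 ≠ 0 ∧ ∀ x, P.eval x ≠ 0 := by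
  let p : (Σ _ : K × (Fin r → K), K × K) → K[X] := fun z =>
    C z.2.1 + C z.2.2 * X ^ (r + 3) + (C z.1.1 * X ^ 2 + X ^ 3 * ofFn r z.1.2)
  have c0 : ∀ z, (p z).coeff 0 = z.2.1 := fun z => by simp [p]
  have c1 : ∀ z, (p z).coeff 1 = 0 := fun z => by simp [p, coeff_X_pow_mul']
  have c2 : ∀ z, (p z).coeff 2 = z.1.1 := fun z => by simp [p, coeff_X_pow_mul']
  have c3 : ∀ z (i : Fin r), (p z).coeff (i + 3) = z.1.2 i := fun z i => by
    simp [p, coeff_X_pow_mul', i.2.ne]
  have c4 : ∀ z, (p z).coeff (r + 3) = z.2.2 := fun z => by simp [p, coeff_X_pow_mul']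
  have c5 : ∀ z, (p z).natDegree ≤ r + 3 := fun z => natDegree_le_iff_coeff_eq_zero.mpr fun i hi => by
    obtain ⟨j, rfl⟩ : ∃ j, i = j + 3 := ⟨i - 3, by omega⟩
    simp [p, coeff_X_pow_mul', show j ≠ r by omega, show r ≤ j by omega]
  have hev : ∀ z x, (p z).eval x = 1 * (z.2.1 + z.2.2 * x ^ (r + 3))
      - -(C z.1.1 * X ^ 2 + X ^ 3 * ofFn r z.1.2).eval x := fun z x => by simp [p]; ring
  have h1 := card_sigma_ge ((univ.erase (0 : K)) ×ˢ (univ : Finset (Fin r → K))) _ fun a ha =>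
    lines_good univ (fun _ => 1) (· ^ (r + 3))
      (fun x => -(C a.1 * X ^ 2 + X ^ 3 * ofFn r a.2).eval x) (fun _ _ => one_ne_zero)
      (fun α β => (card_filter_root (P := p ⟨a, α, β⟩) (fun e => ne_of_mem_erase
        (mem_product.mp ha).1 ((c2 ⟨a, α, β⟩).symm.trans (by rw [e, coeff_zero]))) _ _
        fun x hx => by rw [hev, hx, sub_self]).trans (c5 _))
      (card_pow_fibre _ (by omega)) hq le_rfl (by simp) 0 0 0 0
  generalize hT : Finset.sigma _ _ = T at h1
  refine ⟨image p T, ?_, fun P hP => ?_⟩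
  · rw [card_image_of_injective _ fun y z e => ?_]
    · refine le_trans ?_ ((Nat.mul_le_mul_left 2 h1).trans (le_of_eq (by ring)))
      rw [card_product, card_erase_of_mem (mem_univ _), card_univ, card_univ, Fintype.card_fun,
        Fintype.card_fin, show Fintype.card K ^ (r + 3)
          = Fintype.card K * Fintype.card K ^ r * Fintype.card K ^ 2 by ring, ← mul_assoc,
        ← mul_assoc]
      gcongr
      omega
    · obtain ⟨⟨a, b⟩, α, β⟩ := y
      obtain ⟨⟨a', b'⟩, α', β'⟩ := z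
      obtain rfl : a = a' := by simpa only [c2] using congrArg (coeff · 2) e
      obtain rfl : b = b' := funext fun i => by simpa only [c3] using congrArg (coeff · (i + 3)) e
      obtain rfl : α = α' := by simpa only [c0] using congrArg (coeff · 0) e
      obtain rfl : β = β' := by simpa only [c4] using congrArg (coeff · (r + 3)) e
      rfl
  · obtain ⟨z, hz, rfl⟩ := mem_image.mp hP
    obtain ⟨h2, h3⟩ := mem_sigma.mp (hT ▸ hz)
    obtain ⟨h4, -, -, h5⟩ := (mem_filter.mp h3).2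
    exact ⟨Nat.lt_succ_of_le (c5 z), by rwa [c4], c1 z, by
      rw [c2]; exact ne_of_mem_erase (mem_product.mp h2).1,
      fun x => by rw [hev, sub_ne_zero]; exact h5 x (mem_univ _)⟩

/-- admissible cofactors -/
def GoodR (r : ℕ) (D c y : K) (R : K[X]) : Prop :=
  R.natDegree ≤ r ∧ R.coeff r ≠ 0 ∧ R.eval c ≠ 0 ∧ R.eval y ≠ 0 ∧
    ∀ x, (x - c) ^ 2 * (x - y) * R.eval x ≠ D * (y - c)

lemma count_R_zero (hq : 8 ≤ Fintype.card K) {D c y : K} (hD : D ≠ 0) (hcy : c ≠ y) :
    ∃ S : Finset K[X], Fintype.card K ≤ 6 * S.card ∧ ∀ R ∈ S, GoodR 0 D c y R := by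
  have hY : y - c ≠ 0 := sub_ne_zero.mpr hcy.symm
  set T := univ.filter fun τ : K => ¬ (τ - 1) * (τ + 1) * (1 + τ + τ ^ 2) = 0 with hT
  have hT' : ∀ τ ∈ T, τ - 1 ≠ 0 ∧ 1 + τ ≠ 0 ∧ 1 + τ + τ ^ 2 ≠ 0 := fun τ hτ => by
    have := (mem_filter.mp hτ).2
    simp only [mul_eq_zero, not_or] at this
    exact ⟨this.1.1, by rw [add_comm]; exact this.1.2, this.2⟩
  have h1 : Fintype.card K ≤ T.card + 4 := by
    have e1 := card_filter_add_card_filter_not (s := (univ : Finset K))
      fun τ => (τ - 1) * (τ + 1) * (1 + τ + τ ^ 2) = 0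
    have e2 : ((X - 1) * (X + 1) * (1 + X + X ^ 2) : K[X]).Monic := by monicity!
    have e3 := (card_filter_root e2.ne_zero univ
      (fun τ => (τ - 1) * (τ + 1) * (1 + τ + τ ^ 2) = 0) fun x hx => by simpa using hx).trans
      (show _ ≤ 4 by compute_degree)
    rw [card_univ, ← hT] at e1
    omega
  set U := univ.filter fun τ : K => ∀ x ∈ univ, ¬ (x - c) ^ 2 * (x - y) = τ
  have h2 := no_inc (univ : Finset K) (univ : Finset K) (fun τ x => (x - c) ^ 2 * (x - y) = τ)
    (d := 3) (A := 1) (fun τ _ => by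
      have e2 : ((X - C c) ^ 2 * (X - C y) - C τ : K[X]).Monic := by monicity!
      exact (card_filter_root e2.ne_zero _ _ fun x hx => by simp [hx]).trans (by compute_degree))
    (fun x _ => card_le_one.mpr fun a ha b hb => (mem_filter.mp ha).2.symm.trans
      (mem_filter.mp hb).2)
    (T.image fun τ => (c + (y - c) * (1 + τ) / (1 + τ + τ ^ 2),
      c + τ * ((y - c) * (1 + τ) / (1 + τ + τ ^ 2)))) (fun p hp => by
      obtain ⟨τ, hτ, rfl⟩ := mem_image.mp hp
      obtain ⟨e1, e2, e3⟩ := hT' τ hτ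
      refine ⟨fun e => ?_, mem_univ _, mem_univ _, _, mem_univ _, rfl, ?_⟩
      · exact e1 (sub_eq_zero.mpr (mul_right_cancel₀ (div_ne_zero (mul_ne_zero hY e2) e3)
          ((add_left_cancel e).symm.trans (one_mul _).symm)))
      · field_simp
        ring) U fun τ hτ => mem_filter.mpr ⟨mem_univ _, hτ⟩
  rw [card_image_of_injOn fun τ hτ τ' _ e => by
    obtain ⟨e1, e2⟩ := Prod.mk.inj e
    rw [← add_left_cancel e1] at e2
    exact mul_right_cancel₀ (div_ne_zero (mul_ne_zero hY (hT' τ hτ).2.1) (hT' τ hτ).2.2)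
      (add_left_cancel e2), card_univ] at h2
  have hU : ∀ τ ∈ U, τ ≠ 0 := fun τ hτ e => (mem_filter.mp hτ).2 c (mem_univ _) (by simp [e])
  have h0 := mul_ne_zero hD hY
  refine ⟨U.image fun τ => C (D * (y - c) / τ), ?_, fun R hR => ?_⟩
  · rw [card_image_of_injective _ fun τ τ' e => ?_]
    · omega
    · have := C_injective e
      rwa [div_eq_mul_inv, div_eq_mul_inv, mul_right_inj' h0, inv_inj] at this
  · obtain ⟨τ, hτ, rfl⟩ := mem_image.mp hR
    have h3 := div_ne_zero h0 (hU τ hτ)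
    refine ⟨by simp, by rwa [coeff_C_zero], by rwa [eval_C], by rwa [eval_C], fun x e => ?_⟩
    rw [eval_C, ← mul_div_assoc, div_eq_iff (hU τ hτ), mul_comm] at e
    exact (mem_filter.mp hτ).2 x (mem_univ _) (mul_left_cancel₀ h0 e)

lemma count_R_succ (r : ℕ) (hq : 20 * (r + 4) + 20 ≤ Fintype.card K) {D c y : K} (hD : D ≠ 0)
    (hcy : c ≠ y) : ∃ S : Finset K[X], Fintype.card K ^ (r + 2) ≤ 2 * (r + 4) * S.card ∧
      ∀ R ∈ S, GoodR (r + 1) D c y R := by
  have h0 := mul_ne_zero hD (sub_ne_zero.mpr hcy.symm)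
  let p : (Σ _ : Fin r → K, K × K) → K[X] := fun z =>
    C z.2.1 + C z.2.2 * X ^ (r + 1) + X ^ 1 * ofFn r z.1
  have c0 : ∀ z, (p z).coeff 0 = z.2.1 := fun z => by simp [p]
  have c3 : ∀ z (i : Fin r), (p z).coeff (i + 1) = z.1 i := fun z i => by simp [p, i.2.ne]
  have c4 : ∀ z, (p z).coeff (r + 1) = z.2.2 := fun z => by simp [p]
  have c5 : ∀ z, (p z).natDegree ≤ r + 1 := fun z => natDegree_le_iff_coeff_eq_zero.mpr fun i hi => by
    obtain ⟨j, rfl⟩ : ∃ j, i = j + 1 := ⟨i - 1, by omega⟩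
    simp [p, show j ≠ r by omega, show r ≤ j by omega]
  have hev : ∀ z x, (p z).eval x = z.2.1 + z.2.2 * x ^ (r + 1) + x * (ofFn r z.1).eval x :=
    fun z x => by simp [p]
  have h1 := card_sigma_ge (univ : Finset (Fin r → K)) _ fun b _ =>
    lines_good ((univ.erase c).erase y) (fun x => (x - c) ^ 2 * (x - y)) (· ^ (r + 1))
      (fun x => D * (y - c) - (x - c) ^ 2 * (x - y) * (x * (ofFn r b).eval x))
      (fun x hx => mul_ne_zero (pow_ne_zero _ (sub_ne_zero.mpr (ne_of_mem_erase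
        (mem_of_mem_erase hx)))) (sub_ne_zero.mpr (ne_of_mem_erase hx)))
      (fun α β => (card_filter_root (P := (X - C c) ^ 2 * (X - C y) * p ⟨b, α, β⟩ - C (D * (y - c)))
        (fun e => h0 (by simpa using congrArg (eval c) e)) _ _ fun x hx => by
          simp only [eval_sub, eval_mul, eval_pow, eval_X, eval_C, hev]
          linear_combination hx).trans (by
            have := c5 ⟨b, α, β⟩
            rw [natDegree_sub_C]
            refine natDegree_mul_le.trans ((Nat.add_le_add_right (show _ ≤ 3 by compute_degree)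
              _).trans (by omega))))
      (card_pow_fibre _ (by omega)) hq (by omega) (by
        have := pred_card_le_card_erase (s := univ.erase c) (a := y)
        have := pred_card_le_card_erase (s := univ) (a := c)
        rw [card_univ] at this
        omega) (c ^ (r + 1)) (-(c * (ofFn r b).eval c)) (y ^ (r + 1)) (-(y * (ofFn r b).eval y))
  generalize hT : Finset.sigma _ _ = T at h1
  refine ⟨image p T, ?_, fun P hP => ?_⟩
  · rw [card_image_of_injective _ fun y z e => ?_]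
    · rwa [card_univ, Fintype.card_fun, Fintype.card_fin, ← pow_add] at h1
    · obtain ⟨b, α, β⟩ := y
      obtain ⟨b', α', β'⟩ := z
      obtain rfl : b = b' := funext fun i => by simpa only [c3] using congrArg (coeff · (i + 1)) e
      obtain rfl : α = α' := by simpa only [c0] using congrArg (coeff · 0) e
      obtain rfl : β = β' := by simpa only [c4] using congrArg (coeff · (r + 1)) e
      rfl
  · obtain ⟨z, hz, rfl⟩ := mem_image.mp hP
    obtain ⟨-, h3⟩ := mem_sigma.mp (hT ▸ hz)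
    obtain ⟨h4, h5, h6, h7⟩ := (mem_filter.mp h3).2
    refine ⟨c5 z, by rwa [c4], by rwa [hev, Ne, add_eq_zero_iff_eq_neg],
      by rwa [hev, Ne, add_eq_zero_iff_eq_neg], fun x e => ?_⟩
    by_cases hx : x ∈ (univ.erase c).erase y
    · refine h7 x hx ?_
      rw [hev] at e
      linear_combination e
    · simp only [mem_erase, mem_univ, and_true, not_and_or, not_not] at hx
      rcases hx with rfl | rfl <;> exact h0 (by simpa using e.symm)

lemma count_R (r : ℕ) (hq : 20 * (r + 3) + 20 ≤ Fintype.card K) {D c y : K} (hD : D ≠ 0)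
    (hcy : c ≠ y) : ∃ S : Finset K[X], Fintype.card K ^ (r + 1) ≤ 2 * (r + 3) * S.card ∧
      ∀ R ∈ S, GoodR r D c y R := by
  rcases r with _ | r
  · simpa using count_R_zero (by omega) hD hcy
  · exact count_R_succ r hq hD hcy

/-- a fixed critical point with a simple preimage which has no preimage, over a finite field -/
def CondT (d : ℕ) (D : K) (P : K[X]) (c y : K) : Prop :=
  P.coeff d ≠ 0 ∧ P.derivative.eval c = 0 ∧ P.derivative.derivative.eval c ≠ 0 ∧
    P.eval c = D * c ∧ P.eval y = D * c ∧ P.derivative.eval y ≠ 0 ∧ ∀ x, P.eval x ≠ D * y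

theorem count_T (r : ℕ) (hq : 20 * (r + 3) + 20 ≤ Fintype.card K) (h2 : (2 : K) ≠ 0) {D : K}
    (hD : D ≠ 0) : ∃ S : Finset K[X], Fintype.card K ^ (r + 3) ≤ 4 * (r + 3) ^ 3 * S.card ∧
      ∀ P ∈ S, P.natDegree < r + 4 ∧ ∃ c y, CondT (r + 3) D P c y := by
  classical
  choose! S hS hS' using fun (z : K × K) (hz : z.1 ≠ z.2) => count_R r hq hD hz
  let p : K × K → K[X] → K[X] := fun z R => C (D * z.1) + (X - C z.1) ^ 2 * (X - C z.2) * R
  have hm : ∀ z : K × K, ((X - C z.1) ^ 2 * (X - C z.2) : K[X]).Monic := fun z => by monicity!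
  have hp : ∀ z : K × K, z.1 ≠ z.2 → ∀ R ∈ S z, (p z R).natDegree ≤ r + 3 ∧
      CondT (r + 3) D (p z R) z.1 z.2 := by
    intro z hz R hR
    obtain ⟨h3, h4, h5, h6, h7⟩ := hS' z hz R hR
    have e1 : ((X - C z.1) ^ 2 * (X - C z.2) : K[X]).natDegree = 3 := by compute_degree!
    have e2 := sub_ne_zero.mpr hz
    refine ⟨?_, ?_, by simp [p, sq], ?_, by simp [p], by simp [p], ?_, fun x e => h7 x ?_⟩
    · simp only [p]
      rw [add_comm (C _), natDegree_add_C]
      exact natDegree_mul_le.trans (by omega)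
    · rw [coeff_add, coeff_C, if_neg (by omega), zero_add, add_comm,
        coeff_mul_add_eq_of_natDegree_le e1.le h3, ← e1, (hm z).coeff_natDegree, one_mul]
      exact h4
    · have : (p z R).derivative.derivative.eval z.1 = 2 * (z.1 - z.2) * R.eval z.1 := by
        simp only [p, sq, derivative_add, derivative_mul, derivative_sub, derivative_X,
          derivative_C, derivative_one, derivative_zero, eval_add, eval_mul, eval_sub, eval_X,
          eval_C, eval_one, eval_zero]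
        ring
      rw [this]
      exact mul_ne_zero (mul_ne_zero h2 e2) h5
    · have : (p z R).derivative.eval z.2 = (z.1 - z.2) ^ 2 * R.eval z.2 := by
        simp [p, sq]; left; ring
      rw [this]
      exact mul_ne_zero (pow_ne_zero _ e2) h6
    · simp only [p, eval_add, eval_mul, eval_sub, eval_pow, eval_C, eval_X] at e
      linear_combination e
  set T := (univ : Finset K).offDiag.biUnion fun z => (S z).image (p z) with hT
  have hT' : ∀ P ∈ T, P.natDegree ≤ r + 3 ∧ ∃ c y, CondT (r + 3) D P c y := fun P hP => by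
    obtain ⟨z, hz, h3⟩ := mem_biUnion.mp hP
    obtain ⟨R, hR, rfl⟩ := mem_image.mp h3
    exact ⟨(hp z (mem_offDiag.mp hz).2.2 R hR).1, _, _, (hp z (mem_offDiag.mp hz).2.2 R hR).2⟩
  refine ⟨T, ?_, fun P hP => ⟨Nat.lt_succ_of_le (hT' P hP).1, (hT' P hP).2⟩⟩
  have h3 := sum_card_bipartiteAbove_eq_sum_card_bipartiteBelow (s := (univ : Finset K).offDiag)
    (t := T) fun z P => CondT (r + 3) D P z.1 z.2
  have h4 : ∑ P ∈ T, ((univ : Finset K).offDiag.bipartiteBelow
      (fun z P => CondT (r + 3) D P z.1 z.2) P).card ≤ T.card * (r + 3) ^ 2 := by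
    refine sum_le_card_nsmul _ _ _ fun P hP => ?_
    refine (card_le_card (t := P.derivative.roots.toFinset.biUnion fun c =>
      (P - C (D * c)).roots.toFinset.image (c, ·)) fun z hz => ?_).trans
      (card_biUnion_le.trans ((sum_le_card_nsmul _ _ (r + 3) fun c _ => ?_).trans ?_))
    · obtain ⟨-, e1, e2, -, e3, e4, -⟩ := (mem_filter.mp hz).2
      refine mem_biUnion.mpr ⟨z.1, Multiset.mem_toFinset.mpr ((mem_roots fun e => e2 (by
        simp [e])).mpr e1), mem_image.mpr ⟨z.2, Multiset.mem_toFinset.mpr ((mem_roots fun e => e4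
          (by simp [sub_eq_zero.mp e])).mpr (by simp [e3])), rfl⟩⟩
    · exact card_image_le.trans ((Multiset.toFinset_card_le _).trans ((card_roots' _).trans
        (natDegree_sub_C.trans_le (hT' P hP).1)))
    · rw [smul_eq_mul, sq]
      exact Nat.mul_le_mul_right _ ((Multiset.toFinset_card_le _).trans ((card_roots' _).trans
        ((natDegree_derivative_le _).trans ((Nat.sub_le _ _).trans (hT' P hP).1))))
  have h5 : (univ : Finset K).offDiag.card * Fintype.card K ^ (r + 1) ≤ 2 * (r + 3) *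
      ∑ z ∈ (univ : Finset K).offDiag,
        (T.bipartiteAbove (fun z P => CondT (r + 3) D P z.1 z.2) z).card := by
    rw [mul_sum]
    refine card_nsmul_le_sum _ _ _ fun z hz => (hS z (mem_offDiag.mp hz).2.2).trans
      (Nat.mul_le_mul_left _ (card_le_card_of_injOn (p z) (fun R hR => mem_filter.mpr
        ⟨mem_biUnion.mpr ⟨z, hz, mem_image_of_mem _ hR⟩, (hp z (mem_offDiag.mp hz).2.2 R hR).2⟩)
        fun R _ R' _ e => mul_left_cancel₀ (hm z).ne_zero (add_left_cancel e)))
  rw [h3, offDiag_card, card_univ] at h5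
  have h6 : Fintype.card K ^ 2 ≤ 2 * (Fintype.card K * Fintype.card K - Fintype.card K) := by
    have := Nat.mul_le_mul_left (Fintype.card K) (show 2 ≤ Fintype.card K by omega)
    rw [sq]
    omega
  calc _ = Fintype.card K ^ 2 * Fintype.card K ^ (r + 1) := by ring
    _ ≤ 2 * (2 * (r + 3) * (T.card * (r + 3) ^ 2)) := (Nat.mul_le_mul_right _ h6).trans (by
        rw [mul_assoc]
        exact Nat.mul_le_mul_left _ (h5.trans (Nat.mul_le_mul_left _ h4)))
    _ = _ := by ring

end Pool.Agent.Lib.Crit79
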