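import Pool.Agent.Lib.Crit79.Count

set_option autoImplicit false
set_option linter.unusedSectionVars false

open Polynomial Finset

namespace Pool.Agent.Lib.Crit79

variable {K : Type*} [Field K] [Fintype K] [DecidableEq K]

lemma count_irr (E : Type*) [Field E] [Algebra K E] [Finite E] {n : ℕ}
    (hn : Module.finrank K E = n + 1) (hq : 2 * n ≤ Fintype.card K) : ∃ I : Finset K[X],
    Fintype.card K ^ (n + 1) ≤ 2 * (n + 1) * I.card ∧
      ∀ P ∈ I, P.Monic ∧ Irreducible P ∧ P.natDegree = n + 1 := by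
  classical
  have := Fintype.ofFinite E
  have hi : ∀ x : E, IsIntegral K x := fun x => Algebra.IsIntegral.isIntegral x
  have hr : ∀ P : K[X], (P.aroots E).toFinset.card ≤ P.natDegree := fun P =>
    (Multiset.toFinset_card_le _).trans ((card_roots' _).trans natDegree_map_le)
  have h1 := card_filter_add_card_filter_not (s := (univ : Finset E))
    fun x => (minpoly K x).natDegree = n + 1
  have h2 : (univ.filter fun x : E => ¬ (minpoly K x).natDegree = n + 1).card
      ≤ Fintype.card K ^ n * n := by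
    have hm : ∀ b : Fin n → K, (X ^ n + ofFn n b).Monic := fun b =>
      monic_X_pow_add (ofFn_degree_lt b)
    refine (card_le_card (t := univ.biUnion fun b : Fin n → K =>
      ((X ^ n + ofFn n b).aroots E).toFinset) fun x hx => ?_).trans (card_biUnion_le.trans
      ((sum_le_card_nsmul _ _ n fun b _ => (hr _).trans ?_).trans (by simp)))
    · have e1 : (minpoly K x).natDegree ≤ n := by
        have := minpoly.natDegree_le (A := K) x
        have := (mem_filter.mp hx).2
        omega
      set Q := X ^ (n - (minpoly K x).natDegree) * minpoly K x with hQ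
      have e2 : Q.Monic := (monic_X_pow _).mul (minpoly.monic (hi x))
      have e3 : Q.natDegree = n := by
        rw [hQ, (monic_X_pow _).natDegree_mul (minpoly.monic (hi x)), natDegree_X_pow]
        omega
      have e4 : X ^ n + ofFn n (toFn n Q) = Q := by
        ext i
        rw [coeff_add, coeff_X_pow]
        rcases lt_trichotomy i n with h | rfl | h
        · simp [h, h.ne, toFn]
        · rw [if_pos rfl, ofFn_coeff_eq_zero_of_ge _ le_rfl, add_zero, ← e2.coeff_natDegree, e3]
        · rw [if_neg h.ne', ofFn_coeff_eq_zero_of_ge _ h.le, add_zero,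
            coeff_eq_zero_of_natDegree_lt (e3 ▸ h)]
      refine mem_biUnion.mpr ⟨toFn n Q, mem_univ _, ?_⟩
      rw [e4, Multiset.mem_toFinset, mem_aroots]
      exact ⟨e2.ne_zero, by simp [hQ]⟩
    · rw [natDegree_add_eq_left_of_degree_lt (by
        rw [degree_X_pow]; exact ofFn_degree_lt b), natDegree_X_pow]
  have h3 := card_le_mul_card_image (f := fun x : E => minpoly K x)
    (univ.filter fun x : E => (minpoly K x).natDegree = n + 1) (n + 1) fun P hP => by
      obtain ⟨y, hy, rfl⟩ := mem_image.mp hP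
      refine (card_le_card fun x hx => ?_).trans ((hr _).trans (mem_filter.mp hy).2.le)
      rw [Multiset.mem_toFinset, mem_aroots, ← (mem_filter.mp hx).2]
      exact ⟨minpoly.ne_zero (hi x), minpoly.aeval K x⟩
  refine ⟨_, le_trans ?_ ((Nat.mul_le_mul_left 2 h3).trans (mul_assoc _ _ _).ge), fun P hP => ?_⟩
  · rw [card_univ, Module.card_eq_pow_finrank (K := K), hn, pow_succ] at h1
    have := Nat.mul_le_mul_left (Fintype.card K ^ n) hq
    rw [pow_succ]
    nlinarith
  · obtain ⟨y, hy, rfl⟩ := mem_image.mp hP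
    exact ⟨minpoly.monic (hi y), minpoly.irreducible (hi y), (mem_filter.mp hy).2⟩

theorem count_I (E : Type*) [Field E] [Algebra K E] [Finite E] {n : ℕ}
    (hn : Module.finrank K E = n + 1) (hq : 2 * n ≤ Fintype.card K)
    (hc : ∀ i < n + 2, (i : K) + 1 ≠ 0) : ∃ S : Finset K[X],
    Fintype.card K ^ (n + 2) ≤ 2 * (n + 1) * S.card ∧
      ∀ P ∈ S, P.natDegree < n + 3 ∧ P.coeff (n + 2) ≠ 0 ∧ Irreducible P.derivative := by
  obtain ⟨I, h1, h2⟩ := count_irr E hn hq
  let p : K[X] × K → K[X] := fun z =>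
    C z.2 + X ^ 1 * ofFn (n + 2) fun i => z.1.coeff i / ((i : ℕ) + 1)
  have h3 : ∀ z : K[X] × K, z.1 ∈ I → (p z).derivative = z.1 := fun z hz => by
    ext i
    rw [coeff_derivative]
    rcases lt_or_ge i (n + 2) with h | h
    · simp [p, h, hc i h]
    · simp [p, h, coeff_eq_zero_of_natDegree_lt ((h2 _ hz).2.2.trans_lt h)]
  refine ⟨(I ×ˢ univ).image p, ?_, fun P hP => ?_⟩
  · rw [card_image_of_injOn fun y hy z hz e => Prod.ext ?_ ?_, card_product, card_univ,
      ← mul_assoc, pow_succ]
    · exact Nat.mul_le_mul_right _ h1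
    · rw [← h3 y (mem_product.mp hy).1, e, h3 z (mem_product.mp hz).1]
    · simpa [p] using congrArg (coeff · 0) e
  · obtain ⟨z, hz, rfl⟩ := mem_image.mp hP
    have h4 := h3 z (mem_product.mp hz).1
    obtain ⟨h5, h6, h7⟩ := h2 _ (mem_product.mp hz).1
    refine ⟨Nat.lt_succ_of_le (natDegree_le_iff_coeff_eq_zero.mpr fun i hi => ?_), fun e => ?_,
      h4.symm ▸ h6⟩
    · obtain ⟨j, rfl⟩ : ∃ j, i = j + 1 := ⟨i - 1, by omega⟩
      simp [p, show n + 2 ≤ j by omega]
    · have := congrArg (coeff · (n + 1)) h4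
      simp only [coeff_derivative, e, zero_mul] at this
      rw [← h7, h5.coeff_natDegree] at this
      exact zero_ne_one this

lemma card_erase_ge : Fintype.card K ≤ 2 * (univ.erase (0 : K)).card := by
  rw [card_erase_of_mem (mem_univ _), card_univ]
  have := Fintype.one_lt_card (α := K)
  omega

theorem count_P (n : ℕ) : ∃ S : Finset K[X], Fintype.card K ^ (n + 1) ≤ 2 * S.card ∧
    ∀ P ∈ S, P.natDegree < n + 2 ∧ P.coeff (n + 1) = 0 ∧ P.coeff n ≠ 0 := by
  let p : K × (Fin n → K) → K[X] := fun z => C z.1 * X ^ n + ofFn n z.2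
  have c1 : ∀ z, (p z).coeff n = z.1 := fun z => by simp [p]
  have c2 : ∀ z (i : Fin n), (p z).coeff i = z.2 i := fun z i => by simp [p, i.2.ne]
  have c3 : ∀ z, ∀ i > n, (p z).coeff i = 0 := fun z i hi => by simp [p, hi.ne', hi.le]
  refine ⟨(univ.erase 0 ×ˢ univ).image p, ?_, fun P hP => ?_⟩
  · have hp : Function.Injective p := fun y z e => Prod.ext (by rw [← c1, e, c1])
      (_root_.funext fun i => by rw [← c2, e, c2])
    rw [card_image_of_injective _ hp, card_product, card_univ, Fintype.card_fun,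
      Fintype.card_fin, pow_succ', ← mul_assoc]
    exact Nat.mul_le_mul_right _ card_erase_ge
  · obtain ⟨z, hz, rfl⟩ := mem_image.mp hP
    exact ⟨Nat.lt_succ_of_le (natDegree_le_iff_coeff_eq_zero.mpr fun i hi => c3 z i (by omega)),
      c3 z _ n.lt_succ_self, by rw [c1]; exact ne_of_mem_erase (mem_product.mp hz).1⟩

theorem count_F (h2 : (2 : K) ≠ 0) (D : K) : ∃ S : Finset K[X],
    Fintype.card K ^ 2 ≤ 2 * S.card ∧ ∀ P ∈ S, P.natDegree < 3 ∧ P.coeff 2 ≠ 0 ∧ ∃ c,
      P.derivative.eval c = 0 ∧ P.derivative.derivative.eval c ≠ 0 ∧ P.eval c = D * c := by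
  let p : K × K → K[X] := fun z =>
    C z.1 * X ^ 2 + C (-2 * z.1 * z.2) * X + C (z.1 * z.2 ^ 2 + D * z.2)
  have c1 : ∀ z, (p z).coeff 1 = -2 * z.1 * z.2 := fun z => by
    simp only [p, coeff_add, coeff_C_mul, coeff_X_pow, coeff_X, coeff_C]; simp
  have c2 : ∀ z, (p z).coeff 2 = z.1 := fun z => by
    simp only [p, coeff_add, coeff_C_mul, coeff_X_pow, coeff_X, coeff_C]; simp
  refine ⟨(univ.erase 0 ×ˢ univ).image p, ?_, fun P hP => ?_⟩
  · rw [card_image_of_injOn fun y hy z hz e => ?_, card_product, card_univ, sq, ← mul_assoc]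
    · exact Nat.mul_le_mul_right _ card_erase_ge
    · have e1 : y.1 = z.1 := by rw [← c2, e, c2]
      have e2 := (c1 y).symm.trans (e ▸ c1 z)
      rw [e1] at e2
      exact Prod.ext e1 (mul_left_cancel₀ (mul_ne_zero (neg_ne_zero.mpr h2)
        (ne_of_mem_erase (mem_product.mp hz).1)) e2)
  · obtain ⟨z, hz, rfl⟩ := mem_image.mp hP
    have h0 := ne_of_mem_erase (mem_product.mp hz).1
    refine ⟨Nat.lt_succ_of_le natDegree_quadratic_le, by rwa [c2], z.2, ?_, ?_, ?_⟩ <;>
      simp only [p, sq, derivative_add, derivative_mul, derivative_X, derivative_C, derivative_one,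
        derivative_zero, eval_add, eval_mul, eval_X, eval_C, eval_one, eval_zero]
    · ring
    · rw [show ∀ a b : K, 0 * (a * a) + 0 * (1 * a + a * 1) + (0 * (1 * a + a * 1)
        + b * (0 * a + 1 * 1 + (1 * 1 + a * 0))) + (0 * a + 0 * 1 + (0 * 1 + -2 * b * a * 0)) + 0
        = 2 * b from fun a b => by ring]
      exact mul_ne_zero h2 h0
    · ring

end Pool.Agent.Lib.Crit79
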