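import Pool.Agent.Lib.Crit79.Quad

set_option autoImplicit false

open Polynomial Finset

namespace Pool.Agent.Lib.Crit79

/-- rational polynomials of degree `d` of the form `F / D` with `1 ≤ D ≤ H'` and `F` an integer
polynomial whose coefficients are at most `H` in absolute value -/
def polys (d H H' : ℕ) : Set ℚ[X] :=
  {f | f.natDegree = d ∧ ∃ D : ℕ, 1 ≤ D ∧ D ≤ H' ∧
    ∀ i, ∃ z : ℤ, |z| ≤ H ∧ (D : ℚ) * f.coeff i = z}

lemma mem_box {k H : ℕ} {a : Fin k → ℤ} : a ∈ box k H ↔ ∀ i, |a i| ≤ H := by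
  simp [box, abs_le]

lemma polys_sub {d H H' : ℕ} {f : ℚ[X]} (hf : f ∈ polys d H H') :
    ∃ z ∈ Icc 1 H' ×ˢ box (d + 1) H, rl ℚ (ofFn (d + 1) z.2) z.1 = f := by
  obtain ⟨h1, D, h2, h3, h4⟩ := hf
  choose a ha using h4
  refine ⟨(D, fun i => a i), mem_product.mpr ⟨mem_Icc.mpr ⟨h2, h3⟩,
    mem_box.mpr fun i => (ha i).1⟩, ?_⟩
  have hD : (D : ℚ) ≠ 0 := by positivity
  ext i
  rw [coeff_rl]
  rcases lt_or_ge i (d + 1) with h | h
  · rw [ofFn_coeff_eq_val_of_lt _ h, ← (ha i).2, inv_mul_cancel_left₀ hD]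
  · rw [ofFn_coeff_eq_zero_of_ge _ h, coeff_eq_zero_of_natDegree_lt (by omega)]
    simp

lemma polys_finite (d H H' : ℕ) : (polys d H H').Finite := by
  refine ((Icc 1 H' ×ˢ box (d + 1) H).finite_toSet.image
    fun z => rl ℚ (ofFn (d + 1) z.2) z.1).subset fun f hf => ?_
  obtain ⟨z, h1, h2⟩ := polys_sub hf
  exact ⟨z, mem_coe.mpr h1, h2⟩

lemma card_coprime (H H' : ℕ) : (H' * H : ℝ) ≤
    4 * ((Icc 1 H' ×ˢ Icc 1 H).filter fun z : ℕ × ℕ => z.1.Coprime z.2).card := by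
  have h1 := card_filter_add_card_filter_not (s := Icc 1 H' ×ˢ Icc 1 H)
    fun z : ℕ × ℕ => z.1.Coprime z.2
  rw [card_product, Nat.card_Icc, Nat.card_Icc, Nat.add_sub_cancel, Nat.add_sub_cancel] at h1
  have h2 : ((Icc 1 H' ×ˢ Icc 1 H).filter fun z : ℕ × ℕ => ¬ z.1.Coprime z.2) ⊆
      (Ioc 1 (H + 2)).biUnion fun n => (Ioc 0 H').filter (n ∣ ·) ×ˢ (Ioc 0 H).filter (n ∣ ·) := by
    intro z hz
    obtain ⟨e1, e2⟩ := mem_filter.mp hz
    obtain ⟨e3, e4⟩ := mem_product.mp e1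
    have e5 := mem_Icc.mp e4
    have e6 := Nat.gcd_pos_of_pos_right z.1 e5.1
    have e7 := Nat.gcd_le_right z.1 e5.1
    refine mem_biUnion.mpr ⟨z.1.gcd z.2, mem_Ioc.mpr ⟨?_, by omega⟩, mem_product.mpr
      ⟨mem_filter.mpr ⟨e3, Nat.gcd_dvd_left _ _⟩, mem_filter.mpr ⟨e4, Nat.gcd_dvd_right _ _⟩⟩⟩
    rw [Nat.Coprime] at e2
    omega
  have h3 : ∑ n ∈ Ioc 1 (H + 2), (((n : ℝ)) ^ 2)⁻¹ ≤ 3 / 4 := by
    rw [← sum_Ioc_consecutive _ (show 1 ≤ 2 by omega) (show 2 ≤ H + 2 by omega)]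
    have := sum_Ioc_inv_sq_le_sub (α := ℝ) two_ne_zero (show 2 ≤ H + 2 by omega)
    have e : (0 : ℝ) ≤ ((H + 2 : ℕ) : ℝ)⁻¹ := by positivity
    rw [show Ioc 1 2 = {2} from rfl, sum_singleton]
    generalize ((H + 2 : ℕ) : ℝ)⁻¹ = t at this e
    norm_num at this ⊢
    linarith
  have h4 : (((Icc 1 H' ×ˢ Icc 1 H).filter fun z : ℕ × ℕ => ¬ z.1.Coprime z.2).card : ℝ)
      ≤ H' * H * (3 / 4) := by
    refine le_trans (Nat.cast_le.mpr ((card_le_card h2).trans card_biUnion_le)) ?_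
    refine le_trans ?_ (mul_le_mul_of_nonneg_left h3 (by positivity))
    rw [Nat.cast_sum, mul_sum]
    refine sum_le_sum fun n _ => ?_
    rw [card_product, Nat.Ioc_filter_dvd_card_eq_div, Nat.Ioc_filter_dvd_card_eq_div,
      Nat.cast_mul, ← div_eq_mul_inv, sq, mul_div_mul_comm]
    gcongr <;> exact Nat.cast_div_le
  have h5 := congrArg (Nat.cast : ℕ → ℝ) h1
  push_cast at h5
  linarith

lemma card_polys (d H H' : ℕ) (hH : 1 ≤ H) :
    (H' * (2 * H + 1) ^ (d + 1) : ℝ) ≤ 12 * (polys d H H').ncard := by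
  set S := (Icc 1 H' ×ˢ Icc 1 H).filter fun z : ℕ × ℕ => z.1.Coprime z.2
  have hc : ∀ (m : ℕ) (b : Fin d → ℤ), (monomial d (m : ℤ) + ofFn d b).coeff d = m := fun m b => by
    rw [coeff_add, coeff_monomial_same, ofFn_coeff_eq_zero_of_ge _ le_rfl, add_zero]
  have hc' : ∀ (m : ℕ) (b : Fin d → ℤ) (i : Fin d),
      (monomial d (m : ℤ) + ofFn d b).coeff i = b i := fun m b i => by
    rw [coeff_add, coeff_monomial_of_ne _ i.2.ne, ofFn_coeff_eq_val_of_lt _ i.2, zero_add]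
  have hc'' : ∀ (m : ℕ) (b : Fin d → ℤ) (i : ℕ), d < i →
      (monomial d (m : ℤ) + ofFn d b).coeff i = 0 := fun m b i hi => by
    rw [coeff_add, coeff_monomial_of_ne _ hi.ne', ofFn_coeff_eq_zero_of_ge _ hi.le, zero_add]
  have h1 : (S ×ˢ box d H).card ≤ (polys d H H').ncard := by
    rw [← Set.ncard_coe_finset]
    refine Set.ncard_le_ncard_of_injOn
      (fun z => rl ℚ (monomial d (z.1.2 : ℤ) + ofFn d z.2) z.1.1) ?_ ?_ (polys_finite d H H')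
    · rintro ⟨⟨D, m⟩, b⟩ hz
      obtain ⟨e1, e2⟩ := mem_product.mp hz
      obtain ⟨e3, e4⟩ := mem_product.mp (mem_filter.mp e1).1
      rw [mem_Icc] at e3 e4
      simp only at e2 e3 e4
      refine ⟨?_, D, e3.1, e3.2, fun i => ⟨(monomial d (m : ℤ) + ofFn d b).coeff i, ?_, ?_⟩⟩
      · rw [natDegree_rl (Nat.pos_iff_ne_zero.mp e3.1)]
        exact natDegree_eq_of_le_of_coeff_ne_zero (natDegree_le_iff_coeff_eq_zero.mpr (hc'' m b))
          (by rw [hc]; exact Nat.cast_ne_zero.mpr (Nat.pos_iff_ne_zero.mp e4.1))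
      · rcases lt_trichotomy i d with h | rfl | h
        · exact hc' m b ⟨i, h⟩ ▸ mem_box.mp e2 _
        · rw [hc, Nat.abs_cast]
          omega
        · rw [hc'' m b i h]
          simp
      · rw [coeff_rl, mul_inv_cancel_left₀ (Nat.cast_ne_zero.mpr (Nat.pos_iff_ne_zero.mp e3.1))]
    · rintro ⟨⟨D, m⟩, b⟩ hz ⟨⟨D', m'⟩, b'⟩ hz' e
      obtain ⟨e1, e2⟩ := mem_filter.mp (mem_product.mp hz).1
      obtain ⟨e3, e4⟩ := mem_filter.mp (mem_product.mp hz').1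
      have e5 := (mem_Icc.mp (mem_product.mp e1).1).1
      have e6 := (mem_Icc.mp (mem_product.mp e3).1).1
      simp only at e e2 e4 e5 e6
      have hD : (D : ℚ) ≠ 0 := by positivity
      have hD' : (D' : ℚ) ≠ 0 := by positivity
      have e7 := congrArg (coeff · d) e
      simp only [coeff_rl, hc] at e7
      field_simp at e7
      have e8 : m * D' = m' * D := by
        rw [mul_comm m']
        exact_mod_cast e7
      obtain rfl : D = D' := Nat.dvd_antisymm (e2.dvd_of_dvd_mul_left ⟨m', by linarith⟩)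
        (e4.dvd_of_dvd_mul_left ⟨m, by linarith⟩)
      obtain rfl : m = m' := Nat.eq_of_mul_eq_mul_right e5 e8
      obtain rfl : b = b' := funext fun i => by
        have e9 := congrArg (coeff · i) e
        simp only [coeff_rl, hc'] at e9
        exact_mod_cast mul_left_cancel₀ (inv_ne_zero hD) e9
      rfl
  rw [card_product, card_box] at h1
  have h2 := card_coprime H H'
  have h3 : (S.card * (2 * H + 1) ^ d : ℝ) ≤ (polys d H H').ncard := by exact_mod_cast h1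
  have h4 : (1 : ℝ) ≤ H := by exact_mod_cast hH
  have h5 : (H' * (2 * H + 1) : ℝ) ≤ 12 * S.card := by
    nlinarith [(Nat.cast_nonneg H' : (0 : ℝ) ≤ _)]
  rw [pow_succ', ← mul_assoc]
  refine (mul_le_mul_of_nonneg_right h5 (by positivity)).trans ?_
  rw [mul_assoc]
  gcongr

open scoped Classical in
/-- the property holds for almost all pairs of a denominator and an integer polynomial -/
def MostZ (k : ℕ) (P : ℕ → ℤ[X] → Prop) : Prop :=
  ∀ ε : ℝ, 0 < ε → ∃ H₀ : ℕ, ∀ H ≥ H₀, ∀ H' : ℕ,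
    (((Icc 1 H' ×ˢ box k H).filter fun z => ¬ P z.1 (ofFn k z.2)).card : ℝ)
      ≤ ε * (H' * (2 * H + 1) ^ k)

lemma MostZ.and {k : ℕ} {P Q : ℕ → ℤ[X] → Prop} (h1 : MostZ k P) (h2 : MostZ k Q) :
    MostZ k fun D F => P D F ∧ Q D F := by
  classical
  intro ε hε
  obtain ⟨a, ha⟩ := h1 _ (half_pos hε)
  obtain ⟨b, hb⟩ := h2 _ (half_pos hε)
  refine ⟨max a b, fun H hH H' => ?_⟩
  have e1 := ha H (le_of_max_le_left hH) H'
  have e2 := hb H (le_of_max_le_right hH) H'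
  simp only [not_and_or, filter_or]
  refine le_trans (Nat.cast_le.mpr (card_union_le _ _)) ?_
  rw [Nat.cast_add]
  convert add_le_add e1 e2 using 1
  ring

lemma Rich.most {k : ℕ} {E : ℕ → ℕ → ℤ[X] → Prop} (h : Rich k E) (d : ℕ) :
    MostZ k fun D F => ∃ q, Adm d D q ∧ E D q F := by
  classical
  intro ε hε
  obtain ⟨a, ha⟩ := h.sieve d hε
  refine ⟨a, fun H hH H' => le_trans (Nat.cast_le.mpr (card_le_card fun z hz => ?_)) (ha H hH H')⟩
  exact mem_filter.mpr ⟨(mem_filter.mp hz).1, fun q h1 h2 h3 h4 =>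
    (mem_filter.mp hz).2 ⟨q, ⟨h1, h2, h3⟩, h4⟩⟩

theorem MostZ.polys {d : ℕ} {P : ℕ → ℤ[X] → Prop} (h : MostZ (d + 1) P) {Q : ℚ[X] → Prop}
    (hQ : ∀ D F, D ≠ 0 → F.natDegree = d → P D F → Q (rl ℚ F D)) {ε : ℝ} (hε : 0 < ε) :
    ∃ H₀ : ℕ, ∀ H ≥ H₀, ∀ H' : ℕ,
      ({f ∈ polys d H H' | ¬ Q f}.ncard : ℝ) ≤ ε * (polys d H H').ncard := by
  classical
  obtain ⟨a, ha⟩ := h (ε / 12) (by positivity)
  refine ⟨max a 1, fun H hH H' => ?_⟩
  have e1 := ha H (le_of_max_le_left hH) H'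
  have e2 := card_polys d H H' (le_of_max_le_right hH)
  refine le_trans (Nat.cast_le.mpr ?_) (e1.trans ?_)
  · rw [← Set.ncard_coe_finset]
    refine le_trans (Set.ncard_le_ncard ?_ ((finite_toSet _).image
      fun z => rl ℚ (ofFn (d + 1) z.2) z.1)) (Set.ncard_image_le (finite_toSet _))
    rintro f ⟨h1, h2⟩
    obtain ⟨z, h3, rfl⟩ := polys_sub h1
    have h4 := (mem_Icc.mp (mem_product.mp h3).1).1
    exact ⟨z, mem_filter.mpr ⟨h3, fun h5 => h2 (hQ _ _ (by omega)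
      (natDegree_rl (L := ℚ) (Nat.pos_iff_ne_zero.mp h4) ▸ h1.1) h5)⟩, rfl⟩
  · refine (mul_le_mul_of_nonneg_left e2 (by positivity)).trans (le_of_eq ?_)
    ring

theorem most_fpp {d : ℕ} (hd : 2 ≤ d) {ε : ℝ} (hε : 0 < ε) : ∃ H₀ : ℕ, ∀ H ≥ H₀, ∀ H' : ℕ,
    ({f ∈ polys d H H' | ¬ (f.natDegree ≠ 0 ∧ Irreducible f.derivative ∧
      FPP f (f.derivative * C f.derivative.leadingCoeff⁻¹))}.ncard : ℝ)
        ≤ ε * (polys d H H').ncard := by
  rcases hd.eq_or_lt with rfl | hd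
  · refine (rich_F.most 2).polys ?_ hε
    rintro D F h0 hd ⟨q, a, h⟩
    obtain ⟨h1, h2⟩ := fpp_quad hd a h
    exact ⟨by rw [natDegree_rl h0]; omega, h1,
      h2 _ (inv_ne_zero (leadingCoeff_ne_zero.mpr h1.ne_zero))⟩
  obtain ⟨r, rfl⟩ : ∃ r, d = r + 3 := ⟨d - 3, by omega⟩
  refine (((rich_I (r + 1)).most (r + 3)).and (((rich_Z r).most (r + 3)).and
    (((rich_P (r + 2)).most (r + 3)).and ((rich_T r).most (r + 3))))).polys ?_ hε
  rintro D F h0 hd ⟨⟨q₁, a₁, h₁⟩, ⟨q₂, a₂, h₂⟩, ⟨q₃, a₃, h₃⟩, q₄, a₄, h₄⟩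
  have := h₁.irr hd a₁
  exact ⟨by rw [natDegree_rl h0]; omega, this, fpp_of_cond hd (by omega) a₁ a₂ a₃ a₄ h₁ h₂ h₃ h₄
    (inv_ne_zero (leadingCoeff_ne_zero.mpr this.ne_zero))⟩

end Pool.Agent.Lib.Crit79
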