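import Pool.Agent.Lib.MP_41de88_nt.Mart

set_option autoImplicit false

open Finset

namespace Pool.Agent.Lib.Crit79

open MP_41de88_nt

variable {G L : Type*} [Group G] [MulAction G L]

/-- a levelled rooted tree with a group action and local data -/
structure Tr (G : Type*) [Group G] [MulAction G L] (W : ℕ → Finset L) (f : L → L) (N : ℕ)
    (B : ℕ → L → Prop) : Prop where
  hf : ∀ (σ : G) x, f (σ • x) = σ • f x
  hWV : ∀ n, ∀ y ∈ W (n + 1), f y ∈ W n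
  hG : ∀ n (σ : G), ∀ y ∈ W n, σ • y ∈ W n
  h0 : ∀ x ∈ W 0, ∀ y ∈ W 0, x = y
  hB : ∀ n < N, ∃ β ∈ W n, B n β
  hup : ∀ n < N, ∀ γ ∈ W n, ∃ u ∈ W (n + 1), f u = γ ∧ ¬ B (n + 1) u
  hA : ∀ n < N, ∀ β ∈ W n, B n β → ∃ u ∈ W (n + 1), f u = β ∧
    (∃ y ∈ W (n + 1), ∃ y' ∈ W (n + 1), f y = β ∧ f y' = β ∧ y ≠ u ∧ y' ≠ u ∧ y ≠ y') ∧
    ∀ y ∈ W (n + 1), ∀ y' ∈ W (n + 1), f y = β → f y' = β → y ≠ u → y' ≠ u →
      ∃ σ ∈ fixer G (W n), σ • u = u ∧ (∀ z ∈ W (n + 1), ¬ B n (f z) → σ • z = z) ∧ σ • y = y'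
  hT : ∀ n < N, ∃ β ∈ W n, ∃ φ : G, φ • β = β ∧ ∀ y ∈ W (n + 1), f y = β → φ • y ≠ y

variable {W : ℕ → Finset L} {f : L → L} {N : ℕ} {B : ℕ → L → Prop}

lemma conj_mem_fixer {V : Finset L} (hV : ∀ (σ : G), ∀ y ∈ V, σ • y ∈ V) (g : G) {h : G}
    (hh : h ∈ fixer G V) : g * h * g⁻¹ ∈ fixer G V := fun x hx => by
  rw [mul_smul, mul_smul, hh _ (hV _ x hx), smul_inv_smul]

/-- the fixer of level `n` is transitive and doubly transitive on the children of `β` -/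
def Two (G : Type*) [Group G] [MulAction G L] (W : ℕ → Finset L) (f : L → L) (n : ℕ) (β : L) :
    Prop :=
  (∀ y ∈ W (n + 1), ∀ z ∈ W (n + 1), f y = β → f z = β → ∃ h ∈ fixer G (W n), h • y = z) ∧
  (∃ y ∈ W (n + 1), ∃ y' ∈ W (n + 1), f y = β ∧ f y' = β ∧ y ≠ y') ∧
  ∀ y ∈ W (n + 1), ∀ y' ∈ W (n + 1), ∀ z ∈ W (n + 1), ∀ z' ∈ W (n + 1), f y = β → f y' = β →
    f z = β → f z' = β → y ≠ y' → z ≠ z' → ∃ h ∈ fixer G (W n), h • y = z ∧ h • y' = z'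

lemma Tr.two_smul (T : Tr G W f N B) {n : ℕ} {β : L} (h : Two G W f n β) (g : G) :
    Two G W f n (g • β) := by
  have e : ∀ y, f y = g • β → f (g⁻¹ • y) = β := fun y hy => by rw [T.hf, hy, inv_smul_smul]
  refine ⟨fun y hy z hz h1 h2 => ?_, ?_, fun y hy y' hy' z hz z' hz' h1 h2 h3 h4 h5 h6 => ?_⟩
  · obtain ⟨k, hk, e1⟩ := h.1 _ (T.hG _ g⁻¹ y hy) _ (T.hG _ g⁻¹ z hz) (e y h1) (e z h2)
    exact ⟨_, conj_mem_fixer (T.hG n) g hk, by rw [mul_smul, mul_smul, e1, smul_inv_smul]⟩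
  · obtain ⟨y, hy, y', hy', h1, h2, h3⟩ := h.2.1
    exact ⟨_, T.hG _ g y hy, _, T.hG _ g y' hy', by rw [T.hf, h1], by rw [T.hf, h2],
      fun e => h3 (MulAction.injective g e)⟩
  · obtain ⟨k, hk, e1, e2⟩ := h.2.2 _ (T.hG _ g⁻¹ y hy) _ (T.hG _ g⁻¹ y' hy') _ (T.hG _ g⁻¹ z hz)
      _ (T.hG _ g⁻¹ z' hz') (e y h1) (e y' h2) (e z h3) (e z' h4)
      (fun e => h5 (MulAction.injective g⁻¹ e)) (fun e => h6 (MulAction.injective g⁻¹ e))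
    exact ⟨_, conj_mem_fixer (T.hG n) g hk, by rw [mul_smul, mul_smul, e1, smul_inv_smul],
      by rw [mul_smul, mul_smul, e2, smul_inv_smul]⟩

lemma Tr.two_of_trans (T : Tr G W f N B) {n : ℕ} (hn : n < N)
    (ht : ∀ x ∈ W n, ∀ y ∈ W n, ∃ σ : G, σ • x = y) {β : L} (hβ : β ∈ W n) : Two G W f n β := by
  obtain ⟨β₀, h0, hB⟩ := T.hB n hn
  obtain ⟨g, rfl⟩ := ht β₀ h0 β hβ
  refine T.two_smul ?_ g
  obtain ⟨u, hu, hfu, ⟨y₁, hy₁, y₂, hy₂, e₁, e₂, n₁, n₂, n₁₂⟩, hA⟩ := T.hA n hn β₀ h0 hB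
  obtain ⟨β₁, h1, φ₁, hφ₁, hφ₂⟩ := T.hT n hn
  obtain ⟨g₁, hg₁⟩ := ht β₁ h1 β₀ h0
  set φ := g₁ * φ₁ * g₁⁻¹ with hφ
  have hφβ : φ⁻¹ • β₀ = β₀ := by
    rw [inv_smul_eq_iff, hφ, mul_smul, mul_smul, ← hg₁, inv_smul_smul, hφ₁]
  have hφu : φ • u ≠ u := fun e => hφ₂ (g₁⁻¹ • u) (T.hG _ _ _ hu)
    (by rw [T.hf, hfu, ← hg₁, inv_smul_smul])
    (by rw [hφ, mul_smul, mul_smul, smul_eq_iff_eq_inv_smul] at e; exact e)
  obtain ⟨z, hz, ez, nz, nz'⟩ : ∃ z ∈ W (n + 1), f z = β₀ ∧ z ≠ u ∧ z ≠ φ • u := by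
    by_cases h : y₁ = φ • u
    · exact ⟨y₂, hy₂, e₂, n₂, fun e => n₁₂ (h.trans e.symm)⟩
    · exact ⟨y₁, hy₁, e₁, n₁, h⟩
  obtain ⟨σ, hσ, -, -, hσ'⟩ := hA (φ⁻¹ • u) (T.hG _ _ _ hu) (φ⁻¹ • z) (T.hG _ _ _ hz)
    (by rw [T.hf, hfu, hφβ]) (by rw [T.hf, ez, hφβ])
    (fun e => hφu (by rw [inv_smul_eq_iff] at e; exact e.symm))
    (fun e => nz' (by rwa [inv_smul_eq_iff] at e))
  have key : ∀ y ∈ W (n + 1), f y = β₀ → ∃ h ∈ fixer G (W n), h • u = y := by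
    intro y hy ey
    by_cases h : y = u
    · exact ⟨1, one_mem _, by rw [one_smul, h]⟩
    obtain ⟨τ, hτ, -, -, hτ'⟩ := hA z hz y hy ez ey nz h
    refine ⟨τ * (φ * σ * φ⁻¹), mul_mem hτ (conj_mem_fixer (T.hG n) φ hσ), ?_⟩
    rw [mul_smul, mul_smul, mul_smul, hσ', smul_inv_smul, hτ']
  refine ⟨fun y hy z hz h1 h2 => ?_, ⟨y₁, hy₁, y₂, hy₂, e₁, e₂, n₁₂⟩,
    fun y hy y' hy' z hz z' hz' h1 h2 h3 h4 h5 h6 => ?_⟩
  · obtain ⟨a, ha, ea⟩ := key y hy h1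
    obtain ⟨b, hb, eb⟩ := key z hz h2
    exact ⟨b * a⁻¹, mul_mem hb (inv_mem ha), by rw [mul_smul, ← ea, inv_smul_smul, eb]⟩
  · obtain ⟨a, ha, ea⟩ := key y hy h1
    obtain ⟨b, hb, eb⟩ := key z hz h3
    obtain ⟨τ, hτ, hτu, -, hτ'⟩ := hA (a⁻¹ • y') (T.hG _ _ _ hy') (b⁻¹ • z') (T.hG _ _ _ hz')
      (by rw [T.hf, h2, inv_mem ha _ h0]) (by rw [T.hf, h4, inv_mem hb _ h0])
      (fun e => h5 (by rw [inv_smul_eq_iff, ea] at e; exact e.symm))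
      (fun e => h6 (by rw [inv_smul_eq_iff, eb] at e; exact e.symm))
    refine ⟨b * τ * a⁻¹, mul_mem (mul_mem hb hτ) (inv_mem ha), ?_, ?_⟩
    · rw [mul_smul, mul_smul, ← ea, inv_smul_smul, hτu, eb]
    · rw [mul_smul, mul_smul, hτ', smul_inv_smul]

lemma Tr.trans (T : Tr G W f N B) {n : ℕ} (hn : n ≤ N) :
    ∀ x ∈ W n, ∀ y ∈ W n, ∃ σ : G, σ • x = y := by
  induction n with
  | zero => exact fun x hx y hy => ⟨1, by rw [one_smul, T.h0 x hx y hy]⟩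
  | succ n ih =>
    intro x hx y hy
    obtain ⟨g, hg⟩ := ih (by omega) _ (T.hWV n x hx) _ (T.hWV n y hy)
    obtain ⟨h, -, e⟩ := (T.two_of_trans hn (ih (by omega)) (T.hWV n y hy)).1 _ (T.hG _ g x hx) y hy
      (by rw [T.hf, hg]) rfl
    exact ⟨h * g, by rw [mul_smul, e]⟩

lemma Tr.two (T : Tr G W f N B) {n : ℕ} (hn : n < N) {β : L} (hβ : β ∈ W n) : Two G W f n β :=
  T.two_of_trans hn (T.trans hn.le) hβ

/-- the kernel at `β'` is transitive on the children of `β` -/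
lemma Tr.ker (T : Tr G W f N B) {n : ℕ} (hn : n < N) : ∀ β ∈ W n, ∀ β' ∈ W n, β ≠ β' →
    ∀ y ∈ W (n + 1), ∀ z ∈ W (n + 1), f y = β → f z = β → ∃ k ∈ fixer G (W n),
      (∀ t ∈ W (n + 1), f t = β' → k • t = t) ∧ k • y = z := by
  induction n with
  | zero => exact fun β hβ β' hβ' hne => absurd (T.h0 _ hβ _ hβ') hne
  | succ n ih =>
    intro β hβ β' hβ' hne y hy z hz ey ez
    obtain ⟨g, hg1, hg2⟩ : ∃ g : G, B (n + 1) (g • β) ∧ ¬ B (n + 1) (g • β') := by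
      obtain ⟨β₀, h0, hB⟩ := T.hB _ hn
      obtain ⟨g, hg⟩ := T.trans hn.le β hβ β₀ h0
      have h1 := T.hG _ g β' hβ'
      obtain ⟨u, hu, eu, nu⟩ := T.hup n (by omega) _ (T.hWV n _ h1)
      have hne' : β₀ ≠ g • β' := fun e => hne (MulAction.injective g (hg.trans e))
      by_cases e : f β₀ = f (g • β')
      · obtain ⟨h, -, e1, e2⟩ := (T.two (n := n) (by omega) (T.hWV n _ h1)).2.2 β₀ h0 _ h1 β₀ h0
          u hu e rfl e eu hne' fun e => nu (e ▸ hB)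
        exact ⟨h * g, by rwa [mul_smul, hg, e1], by rwa [mul_smul, e2]⟩
      · obtain ⟨k, -, e1, e2⟩ := ih (by omega) _ (T.hWV n _ h1) _ (T.hWV n _ h0) (Ne.symm e) _ h1
          u hu rfl eu
        exact ⟨k * g, by rwa [mul_smul, hg, e1 β₀ h0 rfl], by rwa [mul_smul, e2]⟩
    obtain ⟨u, -, -, ⟨y₁, hy₁, y₂, hy₂, e₁, e₂, n₁, n₂, n₁₂⟩, hA⟩ :=
      T.hA _ hn _ (T.hG _ g β hβ) hg1
    obtain ⟨σ, hσ, -, hσ1, hσ2⟩ := hA y₁ hy₁ y₂ hy₂ e₁ e₂ n₁ n₂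
    by_cases hyz : y = z
    · exact ⟨1, one_mem _, fun t _ _ => one_smul _ _, by rw [one_smul, hyz]⟩
    obtain ⟨h, hh, e1, e2⟩ := (T.two hn hβ).2.2 _ (T.hG _ g⁻¹ _ hy₁) _ (T.hG _ g⁻¹ _ hy₂) y hy z hz
      (by rw [T.hf, e₁, inv_smul_smul]) (by rw [T.hf, e₂, inv_smul_smul]) ey ez
      (fun e => n₁₂ (MulAction.injective g⁻¹ e)) hyz
    have hk := conj_mem_fixer (T.hG _) g⁻¹ hσ
    rw [inv_inv] at hk
    refine ⟨h * (g⁻¹ * σ * g) * h⁻¹, conj_mem_fixer (T.hG _) h hk, fun t ht et => ?_, ?_⟩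
    · rw [mul_smul, mul_smul, mul_smul, mul_smul, hσ1 _ (T.hG _ _ _ (T.hG _ _ _ ht)),
        inv_smul_smul, smul_inv_smul]
      rwa [T.hf, T.hf, et, inv_mem hh _ hβ']
    · rw [mul_smul, ← e1, inv_smul_smul, mul_smul, mul_smul, mul_smul, smul_inv_smul, hσ2, e2]

variable [Fintype G] [DecidableEq L]

lemma Tr.good (T : Tr G W f N B) {n : ℕ} (hn : n < N) (σ : G) (hσ : 0 < nfix (W (n + 1)) σ) :
    ∃ h ∈ fixer G (W n), nfix (W (n + 1)) (h * σ) ≠ nfix (W (n + 1)) σ := by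
  classical
  by_contra hcon
  push Not at hcon
  obtain ⟨y₀, hy₀⟩ := card_pos.mp hσ
  obtain ⟨hy₀, ey₀⟩ := mem_filter.mp hy₀
  set β := f y₀ with hβdef
  have hβ : β ∈ W n := T.hWV n _ hy₀
  have hσβ : σ • β = β := by rw [hβdef, ← T.hf, ey₀]
  have hsurj : ∀ x ∈ W n, ∃ y ∈ W (n + 1), f y = x := fun x hx => by
    obtain ⟨u, hu, eu, -⟩ := T.hup n hn x hx
    exact ⟨u, hu, eu⟩
  have h1 := martingale T.hf (T.hWV n) (T.hG n) (T.hG (n + 1)) hsurj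
    (fun y hy y' hy' e => (T.two hn (T.hWV n y' hy')).1 y hy y' hy' e rfl) σ
  rw [sum_congr rfl fun h hh => hcon h (mem_sgF.mp hh), sum_const, smul_eq_mul] at h1
  have h2 := Nat.eq_of_mul_eq_mul_left (sgF_card_pos _) h1
  obtain ⟨-, ⟨y, hy, y', hy', ey, ey', nyy⟩, h3⟩ := T.two hn hβ
  obtain ⟨h, hh, e1, e2⟩ := h3 _ (T.hG _ σ _ hy) _ (T.hG _ σ _ hy') y hy y' hy'
    (by rw [T.hf, ey, hσβ]) (by rw [T.hf, ey', hσβ]) ey ey'
    (fun e => nyy (MulAction.injective σ e)) nyy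
  set K : Subgroup G := fixer G (W n) ⊓ fixer G ((W (n + 1)).filter fun t => f t = β) with hK
  set τ := h * σ with hτ
  have hτβ : ∀ x ∈ W n, (τ • x = x ↔ σ • x = x) := fun x hx => by
    rw [hτ, mul_smul, hh _ (T.hG _ σ x hx)]
  have h4 : ∑ k ∈ sgF K, nfix (W (n + 1)) (k * τ) = (sgF K).card * nfix (W n) σ := by
    rw [sum_congr rfl fun k hk => by
      rw [hτ, ← mul_assoc, hcon _ (mul_mem (mem_sgF.mp hk).1 hh)], sum_const, smul_eq_mul, h2]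
  rw [sum_nfix, ← sum_fiberwise_of_maps_to (g := f) (t := W n) (T.hWV n), nfix, card_filter,
    mul_sum] at h4
  refine (sum_lt_sum (fun x hx => ?_) ⟨β, hβ, ?_⟩).ne' h4
  · split_ifs with hx'
    · rw [mul_one]
      by_cases hxβ : x = β
      · subst hxβ
        refine le_trans (le_of_eq ?_) (single_le_sum (fun _ _ => Nat.zero_le _)
          (mem_filter.mpr ⟨hy, ey⟩))
        rw [cnt, filter_true_of_mem]
        intro k hk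
        rw [mul_smul, hτ, mul_smul, e1, (mem_sgF.mp hk).2 y (mem_filter.mpr ⟨hy, ey⟩)]
      refine (orbit_sum _ _ _ ?_ (fun a ha b hb => ?_) (fun k hk a ha => ?_) fun a ha => ?_).ge
      · obtain ⟨a, ha, e⟩ := hsurj x hx
        exact ⟨a, mem_filter.mpr ⟨ha, e⟩⟩
      · obtain ⟨k, hk, e3, e4⟩ := T.ker hn x hx β hβ hxβ a (mem_filter.mp ha).1 b
          (mem_filter.mp hb).1 (mem_filter.mp ha).2 (mem_filter.mp hb).2
        exact ⟨k, ⟨hk, fun t ht => e3 t (mem_filter.mp ht).1 (mem_filter.mp ht).2⟩, e4⟩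
      · obtain ⟨h1, h2⟩ := mem_filter.mp ha
        exact mem_filter.mpr ⟨T.hG _ k a h1, by rw [T.hf, h2, hk.1 x hx]⟩
      · obtain ⟨h1, h2⟩ := mem_filter.mp ha
        exact mem_filter.mpr ⟨T.hG _ τ a h1, by rw [T.hf, h2, (hτβ x hx).mpr hx']⟩
    · simp
  · rw [if_pos hσβ, mul_one]
    have hc : ∀ a ∈ W (n + 1), f a = β → τ • a = a → cnt K τ a = (sgF K).card := by
      intro a ha ea e
      rw [cnt, filter_true_of_mem]
      intro k hk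
      rw [mul_smul, e, (mem_sgF.mp hk).2 a (mem_filter.mpr ⟨ha, ea⟩)]
    refine lt_of_lt_of_le ?_ (sum_le_sum_of_subset (s := {y, y'}) ?_)
    · rw [sum_pair nyy, hc y hy ey (by rw [hτ, mul_smul, e1]),
        hc y' hy' ey' (by rw [hτ, mul_smul, e2])]
      have := sgF_card_pos K
      omega
    · intro a ha
      rcases mem_insert.mp ha with rfl | ha
      · exact mem_filter.mpr ⟨hy, ey⟩
      · rw [mem_singleton.mp ha]
        exact mem_filter.mpr ⟨hy', ey'⟩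

universe u v in
theorem tree_small (d : ℕ) (hd : 1 ≤ d) {ε : ℝ} (hε : 0 < ε) : ∃ N : ℕ,
    ∀ (G : Type u) (L : Type v) [Group G] [Fintype G] [MulAction G L] [DecidableEq L]
      (W : ℕ → Finset L) (f : L → L) (B : ℕ → L → Prop), Tr G W f N B →
      (∀ n < N, ∀ x, ((W (n + 1)).filter fun y => f y = x).card ≤ d) →
      ((univ.filter fun σ : G => 0 < nfix (W N) σ).card : ℝ) ≤ ε * Fintype.card G := by
  obtain ⟨R, hR⟩ := fix_small_mart.{u, v} d 0 hd hε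
  refine ⟨R, fun G L _ _ _ _ W f B T hfib => hR G L W f R ∅ (range R) le_rfl T.hf
    (fun n _ => T.hWV n) (fun n _ => T.hG n) hfib (fun n hn x hx => ?_) (fun n hn => T.trans hn)
    (fun n hn _ y hy y' hy' e => (T.two hn (T.hWV n y' hy')).1 y hy y' hy' e rfl)
    (fun n hn => ⟨mem_range.mp hn, T.good (mem_range.mp hn)⟩) (by simp)⟩
  obtain ⟨u, hu, eu, -⟩ := T.hup n hn x hx
  exact ⟨u, hu, eu⟩

end Pool.Agent.Lib.Crit79
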