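import Pool.Agent.Lib.Crit79.LocP

set_option autoImplicit false
set_option linter.unusedSectionVars false

open Polynomial WithZero

namespace Pool.Agent.Lib.Crit79

open helper22.Val MP_41de88_nt

variable {L G : Type*} [Field L] [Group G] [MulSemiringAction G L] {v : Valuation L ℤᵐ⁰}

/-- `ψ` acts on the residue field as the `q`-th power map -/
def Frob (v : Valuation L ℤᵐ⁰) (q : ℕ) (ψ : G) : Prop := ∀ x, v x ≤ 1 → v (ψ • x - x ^ q) < 1

/-- a place of good reduction with its inertia group -/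
structure RL (v : Valuation L ℤᵐ⁰) (J : Subgroup G) (q : ℕ) (F : L[X]) : Prop where
  inert : Inert v J
  prime : q.Prime
  vq : log (v q) = -(Nat.card J : ℤ)
  vq0 : v q ≠ 0
  int : IntP v F
  lead : v F.leadingCoeff = 1
  deg : F.natDegree ≠ 0
  fix : ∀ (σ : G) i, σ • F.coeff i = F.coeff i

variable {J : Subgroup G} [Finite J] {q : ℕ} {F : L[X]} {ψ : G}

lemma RL.vq_lt (h : RL v J q F) : v q < 1 := by
  rw [← log_lt_log h.vq0 one_ne_zero, h.vq, log_one]
  have : (0 : ℤ) < Nat.card J := by exact_mod_cast Nat.card_pos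
  omega

lemma Frob.lt (hψ : Frob v q ψ) (hq : q ≠ 0) {x : L} (hx : v x < 1) : v (ψ • x) < 1 :=
  val_lt_of_sub_lt (by rw [map_pow]; exact pow_lt_one₀ zero_le hx hq) (hψ x hx.le)

lemma Frob.le (hψ : Frob v q ψ) {x : L} (hx : v x ≤ 1) : v (ψ • x) ≤ 1 :=
  val_le_of_sub_lt (by rw [map_pow]; exact pow_le_one' hx _) (hψ x hx)

lemma Frob.mul (hψ : Frob v q ψ) (h : Inert v J) (σ : J) : Frob v q ((σ : G) * ψ) := fun x hx => by
  have := v.map_add_lt (h.res σ _ (hψ.le hx)) (hψ x hx)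
  rwa [sub_add_sub_cancel, Subgroup.smul_def, ← mul_smul] at this

lemma Frob.close (hψ : Frob v q ψ) (hq : q ≠ 0) {x : L} {j : ℤ} (hx : v (x - j) < 1) :
    v (ψ • x - x) < 1 := by
  have := v.map_sub_lt (hψ.lt hq hx) hx
  rwa [smul_sub, show ψ • (j : L) = j from map_intCast (MulSemiringAction.toRingHom G L ψ) j,
    sub_sub_sub_cancel_right] at this

lemma eq_of_simple {P : L[X]} (hP : IntP v P) {x y a : L} (ha : v a ≤ 1) (hx : v (x - a) < 1)
    (hxy : v (y - x) < 1) (he : P.eval y = P.eval x) (h1 : v (P.derivative.eval a) = 1) :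
    y = x := by
  by_contra hne
  have hx1 := val_le_of_sub_lt ha hx
  exact (hP.derivative_lt (val_le_of_sub_lt hx1 hxy) hx1 hne hxy he).ne
    (val_eq_one_of_sub_lt h1 (hP.derivative.eval_sub_lt hx1 ha hx))

lemma RL.no_fixed (h : RL v J q F) (hψ : Frob v q ψ) {β t : L} (hβ : v (β - t) < 1) (ht : v t ≤ 1)
    (hno : ∀ j : ℤ, ¬ v (F.eval (j : L) - t) < 1) {z : L} (hz : F.eval z = β) : ψ • z ≠ z := by
  intro e
  have h1 := h.int.le_one_of_eval h.lead h.deg (hz ▸ val_le_of_sub_lt ht hβ)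
  have h2 := hψ z h1
  rw [e, Valuation.map_sub_swap] at h2
  obtain ⟨j, hj⟩ := exists_nat_close h.prime h.vq_lt h1 h2
  have h3 := h.int.eval_sub_lt h1 (val_nat_le j) (hj.trans_lt (max_lt h2 h.vq_lt))
  refine hno j ?_
  have := v.map_sub_lt hβ h3
  rwa [hz, sub_sub_sub_cancel_left, ← Int.cast_natCast] at this

lemma RL.frob_crit (h : RL v J q F) (hψ : Frob v q ψ) {c : L} (hc : F.derivative.eval c = 0)
    {j : ℤ} (h1 : v (c - j) < 1) (h2 : v (F.derivative.derivative.eval (j : L)) = 1) :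
    ψ • c = c :=
  eq_of_simple h.int.derivative (val_int_le j) h1 (hψ.close h.prime.ne_zero h1)
    (by rw [eval_smul_of_fix (fix_derivative (h.fix ψ)), hc, smul_zero]) h2

lemma RL.val_crit (h : RL v J q F) {c a : L} (hc : F.derivative.eval c = 0) (ha : v a ≤ 1)
    (h1 : v (c - a) < 1) (h2 : v (F.derivative.derivative.eval a) = 1)
    (h3 : v (F.derivative.eval a) < v q) (h4 : v (F.eval a - a) = v q) :
    v (c - F.eval c) = v q := by
  have hc1 := val_le_of_sub_lt ha h1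
  obtain ⟨R, hR, e⟩ := h.int.derivative.exists_factor ha
  have h5 : R.eval a = F.derivative.derivative.eval a := by
    conv_rhs => rw [e]
    simp
  have h6 : v (R.eval c) = 1 := val_eq_one_of_sub_lt (h5 ▸ h2) (hR.eval_sub_lt hc1 ha h1)
  have h7 := congrArg (eval c) e
  simp only [hc, eval_add, eval_C, eval_mul, eval_sub, eval_X] at h7
  have h8 : v (c - a) < v q := by
    rwa [eq_neg_of_add_eq_zero_left h7.symm, Valuation.map_neg, map_mul, h6, mul_one] at h3
  have h9 := v.map_sub_lt h8 ((h.int.eval_sub_le hc1 ha).trans_lt h8)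
  rw [← h4] at h9 ⊢
  rw [show c - F.eval c = c - a - (F.eval c - F.eval a) - (F.eval a - a) by ring]
  exact v.map_sub_eq_of_lt_right h9

/-- the critical point `c` is fixed modulo the place, to first order only -/
structure TL (v : Valuation L ℤᵐ⁰) (J : Subgroup G) (q : ℕ) (F : L[X]) (c : L) : Prop
    extends RL v J q F where
  crit : F.derivative.eval c = 0
  vc : v c ≤ 1
  sec : v (F.derivative.derivative.eval c) = 1
  first : v (c - F.eval c) = v q

/-- vertices all of whose ancestors are close to the critical point -/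
def Near (v : Valuation L ℤᵐ⁰) (q : ℕ) (F : L[X]) (c : L) (n : ℕ) (x : L) : Prop :=
  (fun x => F.eval x)^[n] x = c ∧ v (x - F.eval c) ^ 2 ^ n = v q

variable {c : L}

lemma TL.fix_c (h : TL v J q F c) (σ : J) : σ • c = c :=
  eq_of_simple h.int.derivative h.vc (by simp) (h.inert.res σ c h.vc)
    (by rw [Subgroup.smul_def, eval_smul_of_fix (fix_derivative (h.fix σ)), h.crit, smul_zero])
    h.sec

lemma TL.lt_one (h : TL v J q F c) {a : ℤᵐ⁰} {k : ℕ} (ha : a ^ k = v q) : a < 1 := by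
  by_contra hle
  exact not_le.mpr h.vq_lt (ha ▸ one_le_pow₀ (not_lt.mp hle))

lemma TL.vq_lt_of (h : TL v J q F c) {a : ℤᵐ⁰} {n : ℕ} (ha : a ^ 2 ^ (n + 1) = v q) : v q < a := by
  rw [← ha]
  refine pow_lt_self_of_lt_one₀ (zero_lt_iff.mpr ?_) (h.lt_one ha) (Nat.one_lt_two_pow (by omega))
  rintro rfl
  exact h.vq0 (by rw [← ha, zero_pow (by positivity)])

lemma TL.near_close (h : TL v J q F c) {n : ℕ} {x : L} (hx : Near v q F c n x) :
    v (x - c) < 1 := by
  have := v.map_sub_lt (h.lt_one hx.2) (h.first ▸ h.vq_lt)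
  rwa [sub_sub_sub_cancel_right] at this

lemma TL.near_parent (h : TL v J q F c) {n : ℕ} {x : L} (hx : Near v q F c (n + 1) x) :
    Near v q F c n (F.eval x) := by
  refine ⟨hx.1, ?_⟩
  have h1 := v.map_sub_eq_of_lt_left (h.first ▸ h.vq_lt_of hx.2)
  rw [sub_sub_sub_cancel_right] at h1
  rw [h.int.val_sub_eq_sq h.vc h.crit h.sec (h.near_close hx), h1, ← pow_mul, ← pow_succ', hx.2]

lemma TL.near_child (h : TL v J q F c) {n : ℕ} {x : L} (hx : Near v q F c n (F.eval x))
    (h1 : v (x - c) < 1) : Near v q F c (n + 1) x := by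
  refine ⟨hx.1, ?_⟩
  have h2 := hx.2
  rw [h.int.val_sub_eq_sq h.vc h.crit h.sec h1, ← pow_mul, ← pow_succ'] at h2
  have h3 := v.map_add_eq_of_lt_left (h.first ▸ h.vq_lt_of h2)
  rw [sub_add_sub_cancel] at h3
  rwa [h3]

lemma RL.lead_sub (h : RL v J q F) (β : L) : v (F - C β).leadingCoeff = 1 := by
  rw [leadingCoeff_sub_of_degree_lt, h.lead]
  exact degree_C_le.trans_lt (natDegree_pos_iff_degree_pos.mp (Nat.pos_of_ne_zero h.deg))

lemma RL.exists_child (h : RL v J q F) {β a : L} (hs : (F - C β).Splits)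
    (ha : v (F.eval a - β) < 1) : ∃ y, F.eval y = β ∧ v (y - a) < 1 := by
  obtain ⟨y, h1, h2⟩ := exists_root_close hs (h.lead_sub β) (a := a) (by rwa [eval_sub, eval_C])
  rw [eval_sub, eval_C, sub_eq_zero] at h1
  exact ⟨y, h1, by rwa [Valuation.map_sub_swap]⟩

lemma TL.exists_near (h : TL v J q F c) {n : ℕ} {β : L} (hβ : Near v q F c n β)
    (hs : (F - C β).Splits) : ∃ y, F.eval y = β ∧ Near v q F c (n + 1) y := by
  obtain ⟨y, h1, h2⟩ := h.exists_child hs (a := c)
    (by rw [Valuation.map_sub_swap]; exact h.lt_one hβ.2)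
  exact ⟨y, h1, h.near_child (h1 ▸ hβ) h2⟩

lemma TL.trans (h : TL v J q F c) {n : ℕ} {y y' : L} (hy : Near v q F c (n + 1) y)
    (hy' : Near v q F c (n + 1) y') (e : F.eval y' = F.eval y) :
    ∃ σ : J, σ • F.eval y = F.eval y ∧ σ • y = y' := by
  have hE : ∀ (σ : J) x, F.eval (σ • x) = σ • F.eval x := fun σ => eval_smul_of_fix (h.fix σ)
  have ht : ∀ σ : J, σ • F.eval c = F.eval c := fun σ => by rw [← hE, h.fix_c]
  refine (tower (E := fun x => F.eval x) hE (S := Near v q F c) (m := 2) (N := n + 1) two_pos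
    (fun n x hx => h.near_parent hx) (fun n σ x hx => ⟨?_, ?_⟩) (fun n _ β _ => ?_)
    (fun n x hx => ?_) (fun x hx σ => ?_) n.lt_succ_self hy).2 y' e hy'
  · rw [← (Function.Semiconj.iterate_right (f := (σ • ·)) (fun x => (hE σ x).symm) n) x, hx.1]
    exact h.fix_c σ
  · rw [← ht σ, ← smul_sub, h.inert.val, hx.2]
  · have e1 := (fibre_finite h.deg β).1.subset
      (show {x | F.eval x = β ∧ Near v q F c (n + 1) x} ⊆ _ from fun x hx => hx.1)
    refine ⟨e1, not_lt.mp fun hlt => ?_⟩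
    obtain ⟨a, ha, b, hb, d, hd, h1, h2, h3⟩ := (Set.two_lt_ncard e1).mp hlt
    have hl : ∀ x, Near v q F c (n + 1) x → v x ≤ 1 := fun x hx =>
      val_le_of_sub_lt h.vc (h.near_close hx)
    have hab : ∀ x, Near v q F c (n + 1) x → v (x - b) < 1 := fun x hx => by
      have := v.map_sub_lt (h.near_close hx) (h.near_close hb.2)
      rwa [sub_sub_sub_cancel_right] at this
    exact (h.int.derivative_two_lt (hl a ha.2) (hl b hb.2) (hl d hd.2) h1 h2 h3.symm (hab a ha.2)
      (hab d hd.2) (ha.1.trans hb.1.symm) (hd.1.trans hb.1.symm)).ne (val_eq_one_of_sub_lt h.sec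
        (h.int.derivative.derivative.eval_sub_lt (hl b hb.2) h.vc (h.near_close hb.2)))
  · have := pow_le_index h.inert (y := x - F.eval c) (m := 2 ^ n) (inv_ne_zero h.vq0)
      (Or.inr (by rw [log_inv, h.vq, neg_neg])) (by rw [hx.2, mul_inv_cancel₀ h.vq0])
    convert this using 2
    ext σ
    simp only [MulAction.mem_stabilizer_iff, smul_sub, ht, sub_left_inj]
  · rw [show x = c from hx.1]
    exact h.fix_c σ

lemma TL.exists_frob (h : TL v J q F c) (hψ : Frob v q ψ) (hc : ψ • c = c) {N : ℕ}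
    (hs : ∀ n < N, ∀ β, (fun x => F.eval x)^[n] β = c → (F - C β).Splits) {n : ℕ} (hn : n ≤ N) :
    ∃ x, Near v q F c n x ∧ ∃ φ : G, Frob v q φ ∧ φ • c = c ∧ φ • x = x := by
  induction n with
  | zero => exact ⟨c, ⟨rfl, by rw [pow_zero, pow_one, h.first]⟩, ψ, hψ, hc, hc⟩
  | succ n ih =>
    obtain ⟨x, hx, φ, h1, h2, h3⟩ := ih (by omega)
    obtain ⟨y, h4, h5⟩ := h.exists_near hx (hs n hn x hx.1)
    have h6 : F.eval (φ • y) = x := by rw [eval_smul_of_fix (h.fix φ), h4, h3]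
    obtain ⟨σ, -, h7⟩ := h.trans (h.near_child (h6 ▸ hx) (by
      rw [← h2, ← smul_sub]; exact h1.lt h.prime.ne_zero (h.near_close h5))) h5 (h4.trans h6.symm)
    exact ⟨y, h5, σ * φ, h1.mul h.inert σ, by rw [mul_smul, h2]; exact h.fix_c σ,
      by rw [mul_smul]; exact h7⟩

/-- a Frobenius element fixing a vertex of level `n + 1` and none of its children -/
theorem TL.main (h : TL v J q F c) (hψ : Frob v q ψ) (hc : ψ • c = c) {j : ℤ}
    (h1 : v (F.eval (j : L) - c) < 1) (h2 : v (F.derivative.eval (j : L)) = 1)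
    (hno : ∀ i : ℤ, ¬ v (F.eval (i : L) - j) < 1) {N : ℕ}
    (hs : ∀ n < N, ∀ β, (fun x => F.eval x)^[n] β = c → (F - C β).Splits) {n : ℕ} (hn : n < N) :
    ∃ β, (fun x => F.eval x)^[n + 1] β = c ∧ ∃ φ : G, φ • β = β ∧
      ∀ z, F.eval z = β → φ • z ≠ z := by
  obtain ⟨x, hx, φ, h3, -, h4⟩ := h.exists_frob hψ hc hs hn.le
  obtain ⟨β, h5, h6⟩ := h.exists_child (hs n hn x hx.1) (a := j) (by
    have := v.map_sub_lt h1 (h.near_close hx)
    rwa [sub_sub_sub_cancel_right] at this)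
  refine ⟨β, by rw [Function.iterate_succ_apply, h5, hx.1], φ, ?_,
    fun z hz => h.no_fixed h3 h6 (val_int_le j) hno hz⟩
  exact eq_of_simple h.int (val_int_le j) h6 (h3.close h.prime.ne_zero h6)
    (by rw [eval_smul_of_fix (h.fix φ), h5, h4]) h2

end Pool.Agent.Lib.Crit79
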