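import Pool.Agent.Lib.Crit79.Cheb
import Pool.Agent.Lib.Crit79.LocT
import Pool.Agent.Lib.Crit79.Grp

set_option autoImplicit false

open Polynomial NumberField IsDedekindDomain WithZero Filter

namespace Pool.Agent.Lib.Crit79

open helper22.Val MP_41de88_nt

lemma irreducible_rat_of_mod {P : ℤ[X]} {q : ℕ} (hq : q.Prime) (h1 : ¬ (q : ℤ) ∣ P.leadingCoeff)
    (h2 : Irreducible (P.map (Int.castRingHom (ZMod q)))) :
    Irreducible (P.map (Int.castRingHom ℚ)) := by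
  have : Fact q.Prime := ⟨hq⟩
  have e := P.eq_C_content_mul_primPart
  have h3 : P.leadingCoeff = P.content * P.primPart.leadingCoeff := by
    conv_lhs => rw [e, leadingCoeff_mul, leadingCoeff_C]
  have h4 : ¬ (q : ℤ) ∣ P.content := fun h => h1 (h3 ▸ h.mul_right _)
  have h5 : ¬ (q : ℤ) ∣ P.primPart.leadingCoeff := fun h => h1 (h3 ▸ h.mul_left _)
  rw [e, Polynomial.map_mul, map_C, irreducible_isUnit_mul (isUnit_C.mpr (Ne.isUnit (by
    rwa [eq_intCast, Ne, ZMod.intCast_zmod_eq_zero_iff_dvd])))] at h2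
  rw [e, Polynomial.map_mul, map_C, irreducible_isUnit_mul (isUnit_C.mpr (Ne.isUnit (by
    rw [eq_intCast, Int.cast_ne_zero]; rintro h; exact h4 (h ▸ dvd_zero _)))),
    ← IsPrimitive.Int.irreducible_iff_irreducible_map_cast P.isPrimitive_primPart]
  have key : ∀ a : ℤ[X], a ∣ P.primPart → IsUnit (a.map (Int.castRingHom (ZMod q))) → IsUnit a := by
    intro a ha hu
    have h6 := natDegree_eq_zero_of_isUnit hu
    rw [natDegree_map_of_leadingCoeff_ne_zero _ (by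
      rw [eq_intCast, Ne, ZMod.intCast_zmod_eq_zero_iff_dvd]
      exact fun h => h5 (h.trans (leadingCoeff_dvd_leadingCoeff ha)))] at h6
    rw [eq_C_of_natDegree_eq_zero h6] at ha ⊢
    exact isUnit_C.mpr (P.isPrimitive_primPart _ ha)
  refine ⟨fun h => h2.not_isUnit (h.map (mapRingHom _)), fun a b hab => ?_⟩
  refine (h2.isUnit_or_isUnit (by rw [hab, Polynomial.map_mul])).imp (key a ?_) (key b ?_)
  · exact hab ▸ dvd_mul_right _ _
  · exact hab ▸ dvd_mul_left _ _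

/-- the polynomial `F / D` -/
noncomputable def rl (L : Type*) [Field L] (F : ℤ[X]) (D : ℕ) : L[X] :=
  C (D : L)⁻¹ * F.map (Int.castRingHom L)

section
variable {L : Type*} [Field L] {F : ℤ[X]} {D : ℕ}

lemma map_rl [Algebra ℚ L] : (rl ℚ F D).map (algebraMap ℚ L) = rl L F D := by
  rw [rl, rl, Polynomial.map_mul, map_C, Polynomial.map_map, map_inv₀, map_natCast]
  congr 2
  exact Subsingleton.elim _ _

lemma derivative_rl : (rl L F D).derivative = rl L F.derivative D := by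
  rw [rl, rl, derivative_C_mul, derivative_map]

lemma coeff_rl (i : ℕ) : (rl L F D).coeff i = (D : L)⁻¹ * F.coeff i := by
  rw [rl, coeff_C_mul, coeff_map, eq_intCast]

lemma eval_rl (j : ℤ) : (rl L F D).eval (j : L) = (D : L)⁻¹ * (F.eval j : ℤ) := by
  rw [rl, eval_mul, eval_C, eval_intCast_map, Int.cast_id, eq_intCast]

lemma natDegree_rl [CharZero L] (hD : D ≠ 0) : (rl L F D).natDegree = F.natDegree := by
  rw [rl, natDegree_C_mul (inv_ne_zero (Nat.cast_ne_zero.mpr hD)),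
    natDegree_map_eq_of_injective (RingHom.injective_int _)]

variable {Γ : Type*} [LinearOrderedCommGroupWithZero Γ] {v : Valuation L Γ} {q : ℕ}

lemma val_int_lt (hv : v q < 1) {n : ℤ} (h : (q : ℤ) ∣ n) : v n < 1 :=
  (val_int_le_of_dvd h).trans_lt hv

lemma val_int_sq (hv : v q < 1) (hv0 : v q ≠ 0) {n : ℤ} (h : (q : ℤ) ^ 2 ∣ n) : v n < v q := by
  have := val_int_le_of_dvd (v := v) (q := q ^ 2) (n := n) (by exact_mod_cast h)
  rw [Nat.cast_pow, map_pow] at this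
  exact this.trans_lt (pow_lt_self_of_lt_one₀ (zero_lt_iff.mpr hv0) hv one_lt_two)

lemma val_int_exact (hq : q.Prime) (hv : v q < 1) {n : ℤ} (h : (q : ℤ) ∣ n)
    (h' : ¬ (q : ℤ) ^ 2 ∣ n) : v n = v q := by
  obtain ⟨m, rfl⟩ := h
  rw [Int.cast_mul, map_mul, val_int_eq_one hq hv (n := m) fun e => h' (by
    rw [sq]; exact mul_dvd_mul_left _ e), mul_one, Int.cast_natCast]

lemma val_coeff_rl (hD : v D = 1) (i : ℕ) : v ((rl L F D).coeff i) = v (F.coeff i) := by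
  rw [coeff_rl, map_mul, map_inv₀, hD, inv_one, one_mul]

lemma val_eval_rl (hD : v D = 1) (j : ℤ) : v ((rl L F D).eval (j : L)) = v (F.eval j : ℤ) := by
  rw [eval_rl, map_mul, map_inv₀, hD, inv_one, one_mul]

lemma val_eval_rl_sub (hD : v D = 1) (j t : ℤ) :
    v ((rl L F D).eval (j : L) - t) = v (F.eval j - D * t : ℤ) := by
  have h0 : (D : L) ≠ 0 := (Valuation.ne_zero_iff v).mp (by rw [hD]; exact one_ne_zero)
  rw [eval_rl, show (D : L)⁻¹ * (F.eval j : ℤ) - t = (D : L)⁻¹ * (F.eval j - D * t : ℤ) by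
    push_cast; field_simp, map_mul, map_inv₀, hD, inv_one, one_mul]

lemma intP_rl (hD : v D = 1) : IntP v (rl L F D) := fun i => by
  rw [val_coeff_rl hD]; exact val_int_le _

end

section
variable {L : Type} [Field L] [NumberField L] [IsGalois ℚ L] {w : HeightOneSpectrum (𝓞 L)}
  {q : ℕ} {F : ℤ[X]} {D : ℕ}

lemma inert_full : Inert (w.valuation L) (w.asIdeal.inertia (L ≃ₐ[ℚ] L)) := by
  refine ⟨fun σ x => val_smul σ.2 x, fun σ x hx => val_smul_sub_lt σ.2 hx, fun H x hx => ?_⟩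
  rw [← Subgroup.card_map_of_injective (K := H) (Subgroup.subtype_injective _)]
  refine card_dvd_log_val _ (Subgroup.map_subtype_le _) ?_
  rintro _ ⟨σ, hσ, rfl⟩
  exact hx σ hσ

lemma exists_frob_val (hq : q.Prime) (hw : (q : 𝓞 L) ∈ w.asIdeal) :
    ∃ φ : L ≃ₐ[ℚ] L, Frob (w.valuation L) q φ := by
  have := w.isPrime
  obtain ⟨φ, hφ, -⟩ := helper22.PIT.exists_frob (L ≃ₐ[ℚ] L) hq w.asIdeal hw
  refine ⟨φ, fun x hx => ?_⟩
  obtain ⟨a, ha⟩ := w.exists_valuation_sub_lt_of_integer hx 1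
  rw [Units.val_one] at ha
  have h1 := val_frob_lt (w := w) hq.ne_zero hφ ha
  have h2 := (w.valuation_lt_one_iff_mem (K := L) _).mpr (hφ a)
  have h3 := (val_pow_sub_le (v := w.valuation L) le_rfl (w.valuation_le_one a) hx
    (i := q) (m := q) (by omega)).trans_lt (by rw [one_pow, one_mul]; exact ha)
  have h4 := Valuation.map_add_lt _ (Valuation.map_sub_lt _ h2 h1) h3
  convert h4 using 2
  rw [Algebra.cast, map_sub, map_pow, smul_sub,
    show algebraMap (𝓞 L) L (φ • a) = φ • algebraMap (𝓞 L) L a from rfl]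
  change _ = _ - _ - _ + (algebraMap (𝓞 L) L a ^ q - _)
  ring

omit [IsGalois ℚ L] in
lemma smul_coeff_rl (σ : L ≃ₐ[ℚ] L) (i : ℕ) : σ • (rl L F D).coeff i = (rl L F D).coeff i := by
  rw [coeff_rl]
  change σ _ = _
  simp

lemma rl_local (hq : q.Prime) (hw : (q : 𝓞 L) ∈ w.asIdeal) (hD : ¬ q ∣ D) (hd : F.natDegree ≠ 0)
    (h : ¬ (q : ℤ) ∣ F.coeff F.natDegree) :
    RL (w.valuation L) (w.asIdeal.inertia (L ≃ₐ[ℚ] L)) q (rl L F D) := by
  have hv := (val_natCast_lt_iff w q).mpr hw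
  have h1 := val_nat_eq_one' hq hv hD
  have h0 : D ≠ 0 := fun e => hD (e ▸ dvd_zero _)
  refine ⟨inert_full, hq, log_val_prime hq hw, val_ne_zero (Nat.cast_ne_zero.mpr hq.ne_zero),
    intP_rl h1, ?_, by rwa [natDegree_rl h0], smul_coeff_rl⟩
  rw [leadingCoeff, natDegree_rl h0, val_coeff_rl h1, val_int_eq_one hq hv h]

lemma exists_place {P : ℚ[X]} (hP : Irreducible P) {c c₀ : L} (hc : aeval c P = 0)
    (hc₀ : aeval c₀ P = 0) {w₀ : HeightOneSpectrum (𝓞 L)} (hw : (q : 𝓞 L) ∈ w₀.asIdeal) :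
    ∃ w : HeightOneSpectrum (𝓞 L), (q : 𝓞 L) ∈ w.asIdeal ∧ ∃ e : ℕ, e ≠ 0 ∧
      ∀ j : ℤ, w.valuation L (c - j) = w₀.valuation L (c₀ - j) ^ e := by
  obtain ⟨g, hg⟩ := exists_smul_eq hP ((mem_rts hP.ne_zero).mpr hc₀) ((mem_rts hP.ne_zero).mpr hc)
  obtain ⟨w, e, he, h⟩ := exists_above (g : L →+* L) w₀
  refine ⟨w, ?_, e, he.ne', fun j => ?_⟩
  · rw [← val_natCast_lt_iff] at hw ⊢
    rw [← map_natCast (g : L →+* L), h]
    exact pow_lt_one₀ zero_le hw he.ne'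
  · rw [← h, map_sub (g : L →+* L), map_intCast, ← hg]
    rfl

lemma exists_place_close (hq : q.Prime) (hD : ¬ q ∣ D) (hd : F.natDegree < q)
    (h : ¬ (q : ℤ) ∣ F.coeff F.natDegree) (hP : Irreducible (rl ℚ F D).derivative)
    (hs : (rl L F D).derivative.Splits) {c : L} (hc : (rl L F D).derivative.eval c = 0) {j : ℤ}
    (hj : (q : ℤ) ∣ F.derivative.eval j) : ∃ w : HeightOneSpectrum (𝓞 L),
      (q : 𝓞 L) ∈ w.asIdeal ∧ w.valuation L (c - j) < 1 := by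
  obtain ⟨w₀, hw⟩ := exists_over L hq
  have hv := (val_natCast_lt_iff w₀ q).mpr hw
  have h1 := val_nat_eq_one' hq hv hD
  have h0 : D ≠ 0 := fun e => hD (e ▸ dvd_zero _)
  have hd0 : F.natDegree ≠ 0 := by
    intro e
    rw [derivative_rl, derivative_of_natDegree_zero e] at hP
    simp [rl] at hP
  obtain ⟨c₀, h2, h3⟩ := exists_root_close (v := w₀.valuation L) hs (a := j) (by
    rw [derivative_rl, leadingCoeff, natDegree_rl h0, val_coeff_rl h1,
      natDegree_derivative, coeff_derivative, Nat.sub_add_cancel (by omega)]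
    refine val_int_eq_one hq hv fun e => ?_
    rcases (Nat.prime_iff_prime_int.mp hq).dvd_or_dvd e with e | e
    · exact h e
    · have := Int.le_of_dvd (by omega) e
      omega) (by rw [derivative_rl, val_eval_rl h1]; exact val_int_lt hv hj)
  rw [← map_rl, derivative_map, eval_map_algebraMap] at hc h2
  obtain ⟨w, h4, e, he, h5⟩ := exists_place hP hc h2 hw
  refine ⟨w, h4, ?_⟩
  rw [h5, Valuation.map_sub_swap]
  exact pow_lt_one₀ zero_le h3 he

end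

/-- the derivative is irreducible modulo `q` -/
def CI (d q : ℕ) (F : ℤ[X]) : Prop :=
  ¬ (q : ℤ) ∣ F.coeff d ∧ Irreducible (F.derivative.map (Int.castRingHom (ZMod q)))

/-- a rational critical point modulo `q` without rational preimage -/
def CZ (d D q : ℕ) (F : ℤ[X]) : Prop :=
  ¬ (q : ℤ) ∣ F.coeff d ∧ ∃ c : ℤ, (q : ℤ) ∣ F.derivative.eval c ∧
    ¬ (q : ℤ) ∣ F.derivative.derivative.eval c ∧ ∀ j : ℤ, ¬ (q : ℤ) ∣ F.eval j - D * c

/-- `q` divides the leading coefficient exactly once -/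
def CP (d q : ℕ) (F : ℤ[X]) : Prop :=
  (q : ℤ) ∣ F.coeff d ∧ ¬ (q : ℤ) ^ 2 ∣ F.coeff d ∧ ¬ (q : ℤ) ∣ F.coeff (d - 1)

/-- a critical point fixed to first order exactly -/
def Fx (D q : ℕ) (F : ℤ[X]) (c : ℤ) : Prop :=
  (q : ℤ) ^ 2 ∣ F.derivative.eval c ∧ ¬ (q : ℤ) ∣ F.derivative.derivative.eval c ∧
    (q : ℤ) ∣ F.eval c - D * c ∧ ¬ (q : ℤ) ^ 2 ∣ F.eval c - D * c

/-- a fixed critical point with a simple preimage which has no preimage -/
def CT (d D q : ℕ) (F : ℤ[X]) : Prop :=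
  ¬ (q : ℤ) ∣ F.coeff d ∧ ∃ c y : ℤ, Fx D q F c ∧ (q : ℤ) ∣ F.eval y - D * c ∧
    ¬ (q : ℤ) ∣ F.derivative.eval y ∧ ∀ j : ℤ, ¬ (q : ℤ) ∣ F.eval j - D * y

/-- admissible primes -/
def Adm (d D q : ℕ) : Prop := q.Prime ∧ d < q ∧ ¬ q ∣ D

variable {F : ℤ[X]} {d D : ℕ}

lemma CI.irr {q : ℕ} (hd : F.natDegree = d) (hq : Adm d D q) (h : CI d q F) :
    Irreducible (rl ℚ F D).derivative := by
  have h0 : D ≠ 0 := fun e => hq.2.2 (e ▸ dvd_zero _)
  have hd0 : F.natDegree ≠ 0 := by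
    intro e
    have := h.2
    rw [derivative_of_natDegree_zero e] at this
    simp at this
  rw [derivative_rl, rl, irreducible_isUnit_mul (isUnit_C.mpr (Ne.isUnit
    (inv_ne_zero (Nat.cast_ne_zero.mpr h0))))]
  refine irreducible_rat_of_mod hq.1 (fun e => ?_) h.2
  rw [leadingCoeff, natDegree_derivative, coeff_derivative, Nat.sub_add_cancel (by omega)] at e
  rcases (Nat.prime_iff_prime_int.mp hq.1).dvd_or_dvd e with e | e
  · exact h.1 (hd ▸ e)
  · have := Int.le_of_dvd (by omega) e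
    have := hq.2.1
    omega

lemma Fx.exists_tl {q : ℕ} (hd : F.natDegree = d) (hd0 : d ≠ 0) (hq : Adm d D q)
    (h0 : ¬ (q : ℤ) ∣ F.coeff d) {j : ℤ} (h : Fx D q F j)
    (hP : Irreducible (rl ℚ F D).derivative) {L : Type} [Field L] [NumberField L] [IsGalois ℚ L]
    (hs : (rl L F D).derivative.Splits) {c : L} (hc : (rl L F D).derivative.eval c = 0) :
    ∃ w : HeightOneSpectrum (𝓞 L), w.valuation L D = 1 ∧ w.valuation L (c - j) < 1 ∧
      TL (w.valuation L) (w.asIdeal.inertia (L ≃ₐ[ℚ] L)) q (rl L F D) c ∧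
      ∃ φ : L ≃ₐ[ℚ] L, Frob (w.valuation L) q φ ∧ φ • c = c := by
  subst hd
  obtain ⟨w, hw, h1⟩ := exists_place_close hq.1 hq.2.2 hq.2.1 h0 hP hs hc
    ((dvd_pow_self _ two_ne_zero).trans h.1)
  have hR := rl_local hq.1 hw hq.2.2 hd0 h0
  have hD := val_nat_eq_one' hq.1 hR.vq_lt hq.2.2
  have h2 : w.valuation L ((rl L F D).derivative.derivative.eval (j : L)) = 1 := by
    rw [derivative_rl, derivative_rl, val_eval_rl hD, val_int_eq_one hq.1 hR.vq_lt h.2.1]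
  have h3 := val_le_of_sub_lt (val_int_le j) h1
  obtain ⟨φ, hφ⟩ := exists_frob_val hq.1 hw
  refine ⟨w, hD, h1, ⟨hR, hc, h3, val_eq_one_of_sub_lt h2
    (hR.int.derivative.derivative.eval_sub_lt h3 (val_int_le j) h1), hR.val_crit hc (val_int_le j)
    h1 h2 ?_ ?_⟩, φ, hφ, hR.frob_crit hφ hc h1 h2⟩
  · rw [derivative_rl, val_eval_rl hD]
    exact val_int_sq hR.vq_lt hR.vq0 h.1
  · rw [val_eval_rl_sub hD]
    exact val_int_exact hq.1 hR.vq_lt h.2.2.1 h.2.2.2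

theorem fpp_of_cond (hd : F.natDegree = d) (hd3 : 3 ≤ d) {q₁ q₂ q₃ q₄ : ℕ} (a₁ : Adm d D q₁)
    (a₂ : Adm d D q₂) (a₃ : Adm d D q₃) (a₄ : Adm d D q₄) (h₁ : CI d q₁ F) (h₂ : CZ d D q₂ F)
    (h₃ : CP d q₃ F) (h₄ : CT d D q₄ F) {u : ℚ} (hu : u ≠ 0) :
    FPP (rl ℚ F D) ((rl ℚ F D).derivative * C u) := by
  have hP := h₁.irr hd a₁
  have hD0 : D ≠ 0 := fun e => a₁.2.2 (e ▸ dvd_zero _)
  obtain ⟨r, rfl⟩ : ∃ r, d = r + 3 := ⟨d - 3, by omega⟩
  refine fpp_of_tree (by rw [natDegree_rl hD0]; omega) (mul_ne_zero hP.ne_zero (C_ne_zero.mpr hu))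
    fun ε hε => ?_
  obtain ⟨N, hN⟩ := tree_small.{0, 0} (r + 3) (by omega) hε
  refine ⟨N, fun L _ _ _ _ c _ W hs hc hW hsp => ?_⟩
  rw [map_rl] at hW hsp
  have hu' : algebraMap ℚ L u ≠ 0 := by simpa using hu
  replace hs := hs.of_dvd (Polynomial.map_ne_zero (mul_ne_zero hP.ne_zero (C_ne_zero.mpr hu)))
    (Polynomial.map_dvd _ (dvd_mul_right _ _))
  rw [← derivative_map, map_rl] at hs
  have hc0 : aeval c (rl ℚ F D).derivative = 0 := by
    rwa [map_mul, aeval_C, mul_eq_zero_iff_right hu'] at hc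
  have hc1 : (rl L F D).derivative.eval c = 0 := by
    rwa [← map_rl, derivative_map, eval_map_algebraMap]
  have hE : ∀ (σ : L ≃ₐ[ℚ] L) x, (rl L F D).eval (σ • x) = σ • (rl L F D).eval x := fun σ =>
    eval_smul_of_fix (smul_coeff_rl σ)
  have hit : ∀ (σ : L ≃ₐ[ℚ] L) n x, (fun x => (rl L F D).eval x)^[n] (σ • x) =
      σ • (fun x => (rl L F D).eval x)^[n] x := fun σ n x =>
    ((Function.Semiconj.iterate_right (f := (σ • ·)) (fun x => (hE σ x).symm) n) x).symm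
  have hPL : ∀ w : HeightOneSpectrum (𝓞 L), (q₃ : 𝓞 L) ∈ w.asIdeal →
      PL (w.valuation L) (w.asIdeal.inertia (L ≃ₐ[ℚ] L)) (rl L F D) r := by
    intro w hw
    have hv := (val_natCast_lt_iff w q₃).mpr hw
    have h1 := val_nat_eq_one' a₃.1 hv a₃.2.2
    have h2 := a₃.2.1
    refine ⟨inert_full, intP_rl h1, by rw [natDegree_rl hD0, hd], ?_, ?_, ?_, ?_,
      fun σ => smul_coeff_rl σ.1⟩
    · rw [val_coeff_rl h1, val_int_exact a₃.1 hv h₃.1 h₃.2.1]
      exact log_val_prime a₃.1 hw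
    · rw [val_coeff_rl h1]
      exact val_int_eq_one a₃.1 hv h₃.2.2
    · exact_mod_cast val_nat_eq_one' a₃.1 hv (n := r + 3) (Nat.not_dvd_of_pos_of_lt (by omega) h2)
    · exact_mod_cast val_nat_eq_one' a₃.1 hv (n := r + 2)
        (Nat.not_dvd_of_pos_of_lt (by omega) (by omega))
  obtain ⟨w, hw, hcw⟩ : ∃ w : HeightOneSpectrum (𝓞 L), (q₃ : 𝓞 L) ∈ w.asIdeal ∧
      1 < w.valuation L c := by
    obtain ⟨w₀, hw₀⟩ := exists_over L a₃.1
    obtain ⟨c₀, h1, h2⟩ := (hPL w₀ hw₀).exists_crit hs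
    rw [← map_rl, derivative_map, eval_map_algebraMap] at h1
    obtain ⟨w, h3, e, he, h4⟩ := exists_place hP hc0 h1 hw₀
    have h5 := h4 0
    rw [Int.cast_zero, sub_zero, sub_zero] at h5
    exact ⟨w, h3, h5 ▸ one_lt_pow₀ h2 he⟩
  have hM := fun n hn => (hPL w hw).main hc1 hcw hsp (n := n) hn
  have hW1 : ∀ n y, (rl L F D).eval y ∈ W n → y ∈ W (n + 1) := fun n y hy => by
    rw [hW] at hy ⊢
    exact hy
  refine hN _ L W (fun x => (rl L F D).eval x) (Lv (w.valuation L) (rl L F D) r)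
    ⟨fun σ => hE σ, fun n y hy => by rw [hW] at hy ⊢; exact hy,
      fun n σ y hy => by rw [hW] at hy ⊢; exact (hit σ n y).trans (hy ▸ σ.2),
      fun x hx y hy => ((hW 0 x).mp hx).trans ((hW 0 y).mp hy).symm, fun n hn => ?_,
      fun n hn γ hγ => ?_, fun n hn β hβ hB => ?_, fun n hn => ?_⟩ fun n _ x => ?_
  · obtain ⟨β, h1, h2⟩ := (hM n hn).1
    exact ⟨β, (hW n β).mpr h1, h2⟩
  · obtain ⟨y, h1, h2⟩ := (hM n hn).2.1 γ ((hW n γ).mp hγ)
    exact ⟨y, hW1 n y (h1 ▸ hγ), h1, h2⟩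
  · obtain ⟨y, h1, ⟨a, b, h2, h3, h4⟩, h5⟩ := (hM n hn).2.2 β ((hW n β).mp hβ) hB
    refine ⟨y, hW1 n y (h1 ▸ hβ), h1, ⟨a, hW1 n a (h2 ▸ hβ), b, hW1 n b (h3 ▸ hβ), h2, h3, h4⟩,
      fun z _ z' _ e1 e2 e3 e4 => ?_⟩
    obtain ⟨σ, h6, h7, h8, h9⟩ := h5 z z' e1 e2 e3 e4
    exact ⟨⟨σ, (hPL w hw).crit_fix hc1 hcw σ⟩, fun x hx => h6 x ((hW n x).mp hx), h7,
      fun t ht => h8 t ((hW _ t).mp ht), h9⟩
  · obtain ⟨β, h1, φ, h2, h3⟩ : ∃ β, (fun x => (rl L F D).eval x)^[n] β = c ∧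
        ∃ φ : L ≃ₐ[ℚ] L, φ • β = β ∧ ∀ z, (rl L F D).eval z = β → φ • z ≠ z := by
      rcases n with _ | n
      · obtain ⟨h1, j, h2, h3, h4⟩ := h₂
        obtain ⟨w, hw, h5⟩ := exists_place_close a₂.1 a₂.2.2 (hd ▸ a₂.2.1) (hd ▸ h1) hP hs hc1 h2
        have hR := rl_local (D := D) a₂.1 hw a₂.2.2 (by omega) (hd ▸ h1)
        have hD := val_nat_eq_one' a₂.1 hR.vq_lt a₂.2.2
        obtain ⟨φ, hφ⟩ := exists_frob_val a₂.1 hw
        refine ⟨c, rfl, φ, hR.frob_crit hφ hc1 h5 (by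
          rw [derivative_rl, derivative_rl, val_eval_rl hD, val_int_eq_one a₂.1 hR.vq_lt h3]),
          fun z hz => hR.no_fixed hφ h5 (val_int_le j) (fun i => ?_) hz⟩
        rw [val_eval_rl_sub hD, val_int_eq_one a₂.1 hR.vq_lt (h4 i)]
        exact lt_irrefl _
      · obtain ⟨h1, j, y, h2, h3, h4, h5⟩ := h₄
        obtain ⟨w, hD, h6, hT, φ, hφ, h7⟩ := h2.exists_tl hd (by omega) a₄ h1 hP hs hc1
        refine hT.main hφ h7 (j := y) ?_ ?_ (fun i => ?_) hsp (by omega)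
        · have := Valuation.map_sub_lt _ (val_eval_rl_sub hD y j ▸ val_int_lt hT.vq_lt h3) h6
          rwa [sub_sub_sub_cancel_right] at this
        · rw [derivative_rl, val_eval_rl hD, val_int_eq_one a₄.1 hT.vq_lt h4]
        · rw [val_eval_rl_sub hD, val_int_eq_one a₄.1 hT.vq_lt (h5 i)]
          exact lt_irrefl _
    exact ⟨β, (hW n β).mpr h1, ⟨φ, by rw [MulAction.mem_stabilizer_iff, ← h1, ← hit, h2]⟩, h2,
      fun y _ hy => h3 y hy⟩
  · obtain ⟨e1, e2⟩ := fibre_finite (F := rl L F D) (by rw [natDegree_rl hD0]; omega) x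
    rw [natDegree_rl hD0, hd] at e2
    rw [← Set.ncard_coe_finset]
    exact (Set.ncard_le_ncard (fun y hy => (Finset.mem_filter.mp hy).2) e1).trans e2

end Pool.Agent.Lib.Crit79
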