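import Pool.Agent.Lib.MP_41de88_nt.LocalBase

set_option autoImplicit false
set_option linter.unusedSectionVars false

open Polynomial WithZero

namespace Pool.Agent.Lib.Crit79

open helper22.Val MP_41de88_nt

section
variable {L Γ : Type*} [Field L] [LinearOrderedCommGroupWithZero Γ] {v : Valuation L Γ}

lemma lead_lt {P : L[X]} (hP : IntP v P) {k : ℕ} (hk : P.natDegree ≤ k + 1) {x : L}
    (hx : 1 < v x) : v (P.eval x - x ^ k * (P.coeff (k + 1) * x + P.coeff k)) < v x ^ k := by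
  rw [eval_eq_sum_range' (n := k + 2) (by omega), Finset.sum_range_succ, Finset.sum_range_succ,
    show ∀ s : L, s + P.coeff k * x ^ k + P.coeff (k + 1) * x ^ (k + 1)
      - x ^ k * (P.coeff (k + 1) * x + P.coeff k) = s from fun s => by ring]
  refine v.map_sum_lt (pow_ne_zero _ (zero_lt_one.trans hx).ne') fun i hi => ?_
  rw [map_mul, map_pow]
  exact (mul_le_of_le_one_left' (hP i)).trans_lt (pow_lt_pow_right₀ hx (Finset.mem_range.mp hi))

lemma lead_eq {P : L[X]} (hP : IntP v P) {k : ℕ} (hk : P.natDegree ≤ k + 1) {x : L}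
    (hx : 1 < v x) (h : v (P.coeff (k + 1) * x + P.coeff k) = 1) : v (P.eval x) = v x ^ k := by
  have h1 := lead_lt hP hk hx
  have h2 : v (x ^ k * (P.coeff (k + 1) * x + P.coeff k)) = v x ^ k := by
    rw [map_mul, h, mul_one, map_pow]
  rw [← h2] at h1 ⊢
  exact v.map_eq_of_sub_lt h1

lemma lead_small {P : L[X]} (hP : IntP v P) {k : ℕ} (hk : P.natDegree ≤ k + 1) {x : L}
    (hx : 1 < v x) (h : v (P.eval x) < v x ^ k) : v (P.coeff (k + 1) * x + P.coeff k) < 1 := by
  have h1 := v.map_sub_lt h (lead_lt hP hk hx)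
  rw [sub_sub_cancel, map_mul, map_pow] at h1
  have h0 : 0 < v x ^ k := pow_pos (zero_lt_one.trans hx) _
  exact (mul_lt_iff_lt_one_right h0).mp h1

lemma scale_eq {P : L[X]} (hP : IntP v P) {k : ℕ} (hk : P.natDegree ≤ k + 2) {x x' : L}
    (hx : 1 < v x) (h1 : v (P.coeff (k + 2) * x) ≤ 1)
    (h2 : v (P.coeff (k + 2) * (k + 2) * x + P.coeff (k + 1) * (k + 1)) = 1)
    (he : P.eval x' = P.eval x) (h3 : v (x' - x) < v x) : x' = x := by
  by_contra hne
  have hv0 : 0 < v x := zero_lt_one.trans hx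
  have hx0 : x ≠ 0 := (Valuation.ne_zero_iff v).mp hv0.ne'
  set Q := C (x ^ (k + 1))⁻¹ * P.comp (C x * X) with hQ
  have hQi : IntP v Q := fun i => by
    rw [hQ, coeff_C_mul, comp_C_mul_X_coeff]
    rcases lt_trichotomy i (k + 2) with h | rfl | h
    · rw [map_mul, map_mul, map_inv₀, map_pow, map_pow, inv_mul_le_iff₀ (pow_pos hv0 _), mul_one]
      exact (mul_le_of_le_one_left' (hP i)).trans (pow_le_pow_right₀ hx.le (by omega))
    · rwa [show (x ^ (k + 1))⁻¹ * (P.coeff (k + 2) * x ^ (k + 2)) = P.coeff (k + 2) * x by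
        field_simp; ring]
    · rw [coeff_eq_zero_of_natDegree_lt (by omega)]; simp
  have h4 : v (x' / x - 1) < 1 := by
    rwa [div_sub_one hx0, map_div₀, div_lt_one₀ hv0]
  have h5 := hQi.derivative_lt (x := x' / x) (y := 1) (val_le_of_sub_lt v.map_one.le h4)
    v.map_one.le (fun e => hne (by rwa [div_eq_one_iff_eq hx0] at e)) h4 (by
      simp only [hQ, eval_mul, eval_C, eval_comp, eval_X, mul_div_cancel₀ _ hx0, mul_one, he])
  have h6 : v (P.derivative.eval x) = v x ^ k := lead_eq hP.derivative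
    ((natDegree_derivative_le P).trans (by omega)) hx (by
      rw [coeff_derivative, coeff_derivative]; push_cast; rw [← h2]; ring_nf)
  simp only [hQ, derivative_mul, derivative_C, zero_mul, zero_add, derivative_comp, derivative_X,
    mul_one, eval_mul, eval_C, eval_comp, eval_X, map_mul, map_inv₀, map_pow, h6] at h5
  rw [← pow_succ', inv_mul_cancel₀ (pow_pos hv0 _).ne'] at h5
  exact lt_irrefl _ h5

lemma exists_big_root {P : L[X]} (hs : P.Splits) {k : ℕ} (hk : P.natDegree = k + 1)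
    (h : v (P.coeff k) = 1) : ∃ x, P.eval x = 0 ∧ 1 ≤ v (P.coeff (k + 1) * x) := by
  by_contra hcon
  push Not at hcon
  have h1 := hs.nextCoeff_eq_neg_sum_roots_mul_leadingCoeff
  rw [nextCoeff_of_natDegree_pos (by omega), leadingCoeff, hk, Nat.add_sub_cancel, neg_mul] at h1
  have h2 : ∀ s : Multiset L, (∀ x ∈ s, v (P.coeff (k + 1) * x) < 1) →
      v (P.coeff (k + 1) * s.sum) < 1 := by
    intro s
    induction s using Multiset.induction_on with
    | empty => simp
    | cons a s ih =>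
      intro hs
      rw [Multiset.sum_cons, mul_add]
      exact v.map_add_lt (hs a (Multiset.mem_cons_self _ _))
        (ih fun x hx => hs x (Multiset.mem_cons_of_mem hx))
  have h3 := h2 P.roots fun x hx => hcon x (isRoot_of_mem_roots hx)
  rw [← Valuation.map_neg, ← h1, h] at h3
  exact lt_irrefl _ h3

end

section
variable {L J : Type*} [Field L] [Group J] [MulSemiringAction J L]

/-- a tower of special vertices on which the inertia group acts with maximal orbits -/
lemma tower {E : L → L} (hE : ∀ (σ : J) x, E (σ • x) = σ • E x) {S : ℕ → L → Prop} {m N : ℕ}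
    (hm : 0 < m) (h1 : ∀ n x, S (n + 1) x → S n (E x)) (h2 : ∀ n (σ : J) x, S n x → S n (σ • x))
    (h3 : ∀ n < N, ∀ β, S n β → {x | E x = β ∧ S (n + 1) x}.Finite ∧
      {x | E x = β ∧ S (n + 1) x}.ncard ≤ m)
    (h4 : ∀ n x, S n x → m ^ n ≤ (MulAction.stabilizer J x).index)
    (h5 : ∀ x, S 0 x → ∀ σ : J, σ • x = x) {n : ℕ} (hn : n < N) {y : L} (hy : S (n + 1) y) :
    m ≤ {x | E x = E y ∧ S (n + 1) x}.ncard ∧
      ∀ y', E y' = E y → S (n + 1) y' → ∃ σ : J, σ • E y = E y ∧ σ • y = y' := by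
  have hsub : ∀ n y, S (n + 1) y → MulAction.orbit (MulAction.stabilizer J (E y)) y ⊆
      {x | E x = E y ∧ S (n + 1) x} := by
    rintro n y hy _ ⟨σ, rfl⟩
    exact ⟨(hE σ y).trans σ.2, h2 _ σ y hy⟩
  have hle : ∀ n ≤ N, ∀ x, S n x → (MulAction.stabilizer J x).index ≤ m ^ n := by
    intro n
    induction n with
    | zero =>
      intro _ x hx
      rw [(Subgroup.eq_top_iff' (MulAction.stabilizer J x)).mpr fun σ => h5 x hx σ,
        Subgroup.index_top, pow_zero]
    | succ n ih =>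
      intro hn x hx
      rw [index_stabilizer_eq hE, pow_succ']
      obtain ⟨e1, e2⟩ := h3 n hn _ (h1 n x hx)
      exact Nat.mul_le_mul ((Set.ncard_le_ncard (hsub n x hx) e1).trans e2)
        (ih (by omega) _ (h1 n x hx))
  obtain ⟨e1, e2⟩ := h3 n hn _ (h1 n y hy)
  have h6 := h4 _ y hy
  rw [index_stabilizer_eq hE, pow_succ'] at h6
  have h7 : m ≤ (MulAction.orbit (MulAction.stabilizer J (E y)) y).ncard :=
    Nat.le_of_mul_le_mul_right (h6.trans (Nat.mul_le_mul_left _ (hle n hn.le _ (h1 n y hy))))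
      (pow_pos hm n)
  have h8 := Set.eq_of_subset_of_ncard_le (hsub n y hy) (e2.trans h7) e1
  refine ⟨h8 ▸ h7, fun y' e hy' => ?_⟩
  obtain ⟨σ, hσ⟩ : y' ∈ MulAction.orbit (MulAction.stabilizer J (E y)) y := by
    rw [h8]; exact ⟨e, hy'⟩
  exact ⟨σ, σ.2, hσ⟩

variable {v : Valuation L ℤᵐ⁰}

lemma pow_le_index [Finite J] (h : Inert v J) {y : L} {a : ℤᵐ⁰} {m : ℕ} (ha : a ≠ 0)
    (h1 : log a = -(Nat.card J : ℤ) ∨ log a = Nat.card J) (h2 : v y ^ m * a = 1) :
    m ≤ (MulAction.stabilizer J y).index := by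
  have h3 := h.orbit_dvd y
  have hy : v y ^ m ≠ 0 := left_ne_zero_of_mul_eq_one h2
  have h4 := congrArg log h2
  rw [log_mul hy ha, log_pow, log_one, nsmul_eq_mul] at h4
  have h5 : (0 : ℤ) < Nat.card J := by exact_mod_cast Nat.card_pos
  have h6 : (m : ℤ) * log (v y) ∣ (MulAction.stabilizer J y).index * log (v y) := by
    rcases h1 with h1 | h1
    · rwa [show (m : ℤ) * log (v y) = Nat.card J by linarith]
    · rwa [show (m : ℤ) * log (v y) = -Nat.card J by linarith, neg_dvd]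
  have h7 : log (v y) ≠ 0 := by
    rintro e
    rw [e] at h4
    omega
  exact Nat.le_of_dvd (Nat.pos_of_ne_zero Subgroup.FiniteIndex.index_ne_zero)
    (by exact_mod_cast (mul_dvd_mul_iff_right h7).mp h6)

lemma close_of_fixed (h : Inert v J) {σ : J} {x z : L} (hz : σ • z = z) (hz0 : v z ≠ 0)
    (hx : v x = v z) : v (σ • x - x) < v x := by
  have h1 := h.res σ (x / z) (by rw [map_div₀, hx, div_self hz0])
  rwa [smul_div₀', hz, ← sub_div, map_div₀, div_lt_one₀ (zero_lt_iff.mpr hz0), ← hx] at h1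

/-- a place at which the leading coefficient is a uniformizer of the base -/
structure PL (v : Valuation L ℤᵐ⁰) (J : Type*) [Group J] [MulSemiringAction J L] (F : L[X])
    (r : ℕ) : Prop where
  inert : Inert v J
  int : IntP v F
  deg : F.natDegree = r + 3
  top : log (v (F.coeff (r + 3))) = -(Nat.card J : ℤ)
  sub : v (F.coeff (r + 2)) = 1
  vd : v (r + 3) = 1
  vm : v (r + 2) = 1
  fix : ∀ (σ : J) i, σ • F.coeff i = F.coeff i

/-- the valuation of `x` is minus the inverse of the `k`-th power of `r + 2` -/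
def Lv (v : Valuation L ℤᵐ⁰) (F : L[X]) (r k : ℕ) (x : L) : Prop :=
  v x ^ (r + 2) ^ k * v (F.coeff (r + 3)) = 1

lemma eval_smul_of_fix {F : L[X]} {σ : J} (h : ∀ i, σ • F.coeff i = F.coeff i) (x : L) :
    F.eval (σ • x) = σ • F.eval x := by
  simp only [eval_eq_sum_range, Finset.smul_sum, smul_mul', smul_pow', h]

lemma fix_derivative {F : L[X]} {σ : J} (h : ∀ i, σ • F.coeff i = F.coeff i) (i : ℕ) :
    σ • F.derivative.coeff i = F.derivative.coeff i := by
  rw [coeff_derivative, smul_mul', h, smul_add, smul_one,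
    show σ • (i : L) = i from map_natCast (MulSemiringAction.toRingHom J L σ) i]

variable [Finite J] {F : L[X]} {r : ℕ}

lemma PL.top_ne (h : PL v J F r) : v (F.coeff (r + 3)) ≠ 0 := by
  rw [← h.deg, Valuation.ne_zero_iff]
  exact leadingCoeff_ne_zero.mpr (ne_zero_of_natDegree_gt (n := 0) (by rw [h.deg]; omega))

lemma PL.top_lt (h : PL v J F r) : v (F.coeff (r + 3)) < 1 := by
  rw [← log_lt_log h.top_ne one_ne_zero, h.top, log_one]
  have : (0 : ℤ) < Nat.card J := by exact_mod_cast Nat.card_pos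
  omega

lemma PL.one_lt (h : PL v J F r) {k : ℕ} {x : L} (hx : Lv v F r k x) : 1 < v x := by
  by_contra hle
  exact (mul_lt_one_of_nonneg_of_lt_one_right (pow_le_one' (not_lt.mp hle) _) zero_le
    h.top_lt).ne hx

lemma PL.le_one (h : PL v J F r) {k : ℕ} {x : L} (hx : Lv v F r k x) :
    v (F.coeff (r + 3) * x) ≤ 1 := by
  rw [map_mul, mul_comm, ← hx]
  exact mul_le_mul_left (le_self_pow₀ (h.one_lt hx).le (pow_pos (by omega) _).ne') _

lemma PL.lv_inj (h : PL v J F r) {k k' : ℕ} {x : L} (hx : Lv v F r k x) (hx' : Lv v F r k' x) :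
    k = k' := by
  have h1 := mul_right_cancel₀ h.top_ne (hx.trans hx'.symm)
  exact Nat.pow_right_injective (by omega) ((pow_right_strictMono₀ (h.one_lt hx)).injective h1)

lemma PL.child (h : PL v J F r) {k : ℕ} {x : L} (hx : Lv v F r k (F.eval x)) :
    v (F.coeff (r + 3) * (r + 3) * x + F.coeff (r + 2) * (r + 2)) = 1 ∧
    ((Lv v F r 0 x ∧ v (F.coeff (r + 3) * x + F.coeff (r + 2)) < 1) ∨ Lv v F r (k + 1) x) := by
  have h1 : 1 < v x := by
    by_contra hle
    exact not_le.mpr (h.one_lt hx) (h.int.eval (not_lt.mp hle))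
  rcases lt_or_ge (v (F.coeff (r + 3) * x)) 1 with h2 | h2
  · have h3 := lead_eq h.int (k := r + 2) h.deg.le h1 (by
      rw [← h.sub] at h2 ⊢
      exact v.map_add_eq_of_lt_right h2)
    refine ⟨?_, Or.inr ?_⟩
    · have h4 : v (F.coeff (r + 2) * (r + 2)) = 1 := by rw [map_mul, h.sub, h.vm, mul_one]
      rw [← h4]
      refine v.map_add_eq_of_lt_right ?_
      rwa [h4, mul_right_comm, map_mul, h.vd, mul_one]
    · rw [Lv, h3] at hx
      rwa [Lv, pow_succ', pow_mul]
  · have h3 : v (F.eval x) ≤ v x := by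
      have := (h.le_one hx).trans h2
      rw [map_mul, map_mul] at this
      exact le_of_mul_le_mul_left this (zero_lt_iff.mpr h.top_ne)
    have h4 := lead_small h.int (k := r + 2) h.deg.le h1
      (h3.trans_lt (lt_self_pow₀ h1 (by omega)))
    refine ⟨?_, Or.inl ⟨?_, h4⟩⟩
    · rw [show F.coeff (r + 3) * (r + 3) * x + F.coeff (r + 2) * (r + 2) =
        (r + 3) * (F.coeff (r + 3) * x + F.coeff (r + 2)) - F.coeff (r + 2) by ring, ← h.sub]
      refine v.map_sub_eq_of_lt_right ?_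
      rwa [map_mul, h.vd, one_mul, h.sub]
    · rw [Lv, pow_zero, pow_one, mul_comm, ← map_mul]
      refine val_eq_one_of_sub_lt (b := -F.coeff (r + 2)) (by rw [Valuation.map_neg, h.sub]) ?_
      rwa [sub_neg_eq_add]

lemma PL.eq_of_close (h : PL v J F r) {k : ℕ} {x x' : L} (hx : Lv v F r k (F.eval x))
    (he : F.eval x' = F.eval x) (h3 : v (x' - x) < v x) : x' = x := by
  obtain ⟨h1, h2⟩ := h.child hx
  obtain ⟨j, hj⟩ : ∃ j, Lv v F r j x := h2.elim (fun e => ⟨_, e.1⟩) fun e => ⟨_, e⟩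
  refine scale_eq h.int (k := r + 1) h.deg.le (h.one_lt hj) (h.le_one hj) ?_ he h3
  rw [← h1]
  push_cast
  ring_nf

lemma up_close {a b x x' : L} (ha : v a = v (F.coeff (r + 3)))
    (hx : Lv v F r 0 x) (h1 : v (a * x + b) < 1) (h2 : v (a * x' + b) < 1) :
    v (x' - x) < v x := by
  have h3 := v.map_sub_lt h2 h1
  rw [add_sub_add_right_eq_sub, ← mul_sub, map_mul, ha, ← hx, pow_zero, pow_one, mul_comm] at h3
  exact lt_of_mul_lt_mul_right h3 zero_le

lemma PL.up_unique (h : PL v J F r) {k : ℕ} {x x' : L} (hx : Lv v F r k (F.eval x))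
    (he : F.eval x' = F.eval x) (h1 : Lv v F r 0 x) (h2 : Lv v F r 0 x') : x' = x := by
  obtain ⟨-, ⟨-, h3⟩ | h3⟩ := h.child hx
  · obtain ⟨-, ⟨-, h4⟩ | h4⟩ := h.child (he ▸ hx)
    · exact h.eq_of_close hx he (up_close rfl h1 h3 h4)
    · exact absurd (h.lv_inj h2 h4) (by omega)
  · exact absurd (h.lv_inj h1 h3) (by omega)

lemma PL.exists_up (h : PL v J F r) {k : ℕ} {β : L} (hβ : Lv v F r k β) (hs : (F - C β).Splits) :
    ∃ u, F.eval u = β ∧ Lv v F r 0 u := by
  obtain ⟨u, h1, h2⟩ := exists_big_root (v := v) hs (k := r + 2) (by rw [natDegree_sub_C, h.deg])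
    (by rw [coeff_sub, coeff_C, if_neg (by omega), sub_zero, h.sub])
  rw [eval_sub, eval_C, sub_eq_zero] at h1
  rw [coeff_sub, coeff_C, if_neg (by omega), sub_zero] at h2
  refine ⟨u, h1, ?_⟩
  obtain ⟨-, ⟨h3, -⟩ | h3⟩ := h.child (h1 ▸ hβ)
  · exact h3
  · rw [Lv, pow_zero, pow_one, mul_comm, ← map_mul]
    exact le_antisymm (h.le_one h3) h2

lemma PL.exists_down (h : PL v J F r) {k : ℕ} {β : L} (hβ : Lv v F r k β)
    (hs : (F - C β).Splits) : ∃ y, F.eval y = β ∧ Lv v F r (k + 1) y := by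
  classical
  obtain ⟨u, h1, h2⟩ := h.exists_up hβ hs
  by_contra hcon
  push Not at hcon
  have hd : (F - C β).natDegree = r + 3 := by rw [natDegree_sub_C, h.deg]
  have h0 : F - C β ≠ 0 := ne_zero_of_natDegree_gt (n := 0) (by omega)
  have h3 : ∀ x ∈ (F - C β).roots, u = x := by
    intro x hx
    have h4 := isRoot_of_mem_roots hx
    rw [IsRoot, eval_sub, eval_C, sub_eq_zero] at h4
    obtain ⟨-, ⟨h5, -⟩ | h5⟩ := h.child (h4 ▸ hβ)
    · exact h.up_unique (h4 ▸ hβ) (h1.trans h4.symm) h5 h2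
    · exact absurd h5 (hcon x h4)
  have h4 := Multiset.count_eq_card.mpr h3
  rw [← hs.natDegree_eq_card_roots, hd, count_roots] at h4
  have h5 := (one_lt_rootMultiplicity_iff_isRoot h0 (t := u)).mp (by omega)
  have h6 := lead_eq h.int.derivative (k := r + 1) ((natDegree_derivative_le F).trans
    (by rw [h.deg]; omega)) (h.one_lt h2) (by
      rw [coeff_derivative, coeff_derivative, ← (h.child (h1 ▸ hβ)).1]; push_cast; ring_nf)
  have h7 := h5.2
  rw [derivative_sub, derivative_C, sub_zero, IsRoot] at h7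
  rw [h7, map_zero] at h6
  exact pow_ne_zero _ (zero_lt_one.trans (h.one_lt h2)).ne' h6.symm

lemma PL.crit_small (h : PL v J F r) {c : L} (hc : F.derivative.eval c = 0) (h1 : 1 < v c) :
    v (F.coeff (r + 3) * (r + 3) * c + F.coeff (r + 2) * (r + 2)) < 1 := by
  have := lead_small h.int.derivative (k := r + 1) ((natDegree_derivative_le F).trans
    (by rw [h.deg]; omega)) h1 (by rw [hc, map_zero]; exact pow_pos (zero_lt_one.trans h1) _)
  rw [coeff_derivative, coeff_derivative] at this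
  convert this using 2
  push_cast
  ring

lemma PL.crit_lv (h : PL v J F r) {c : L} (hc : F.derivative.eval c = 0) (h1 : 1 < v c) :
    Lv v F r 0 c := by
  have h2 := val_eq_one_of_sub_lt (v := v) (a := F.coeff (r + 3) * (r + 3) * c)
    (b := -(F.coeff (r + 2) * (r + 2))) (by rw [Valuation.map_neg, map_mul, h.sub, h.vm, mul_one])
    (by rw [sub_neg_eq_add]; exact h.crit_small hc h1)
  rw [map_mul, map_mul, h.vd, mul_one] at h2
  rw [Lv, pow_zero, pow_one, mul_comm, h2]

lemma PL.crit_fix (h : PL v J F r) {c : L} (hc : F.derivative.eval c = 0) (h1 : 1 < v c) (σ : J) :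
    σ • c = c := by
  have hc' : F.derivative.eval (σ • c) = 0 := by
    rw [eval_smul_of_fix (fix_derivative (h.fix σ)), hc, smul_zero]
  have h2 := h.crit_small hc h1
  have h3 := h.crit_lv hc h1
  refine scale_eq h.int.derivative (k := r) ((natDegree_derivative_le F).trans
    (by rw [h.deg]; omega)) h1 ?_ ?_ (hc'.trans hc.symm) (up_close
      (by rw [map_mul, h.vd, mul_one]) h3 h2 (h.crit_small hc' (by rwa [h.inert.val])))
  · have := h.le_one h3
    rw [coeff_derivative, mul_right_comm, map_mul]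
    exact mul_le_one' this (by exact_mod_cast val_nat_le (v := v) (r + 2 + 1))
  · have h4 : v (F.coeff (r + 2) * (r + 2)) = 1 := by rw [map_mul, h.sub, h.vm, mul_one]
    rw [coeff_derivative, coeff_derivative, ← h4]
    push_cast
    rw [show F.coeff (r + 2 + 1) * (r + 2 + 1) * (r + 2) * c + F.coeff (r + 1 + 1) * (r + 1 + 1)
      * (r + 1) = (r + 2) * (F.coeff (r + 3) * (r + 3) * c + F.coeff (r + 2) * (r + 2))
        - F.coeff (r + 2) * (r + 2) by ring]
    refine v.map_sub_eq_of_lt_right ?_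
    rwa [map_mul, h.vm, one_mul, h4]

lemma PL.exists_crit (h : PL v J F r) (hs : F.derivative.Splits) :
    ∃ c, F.derivative.eval c = 0 ∧ 1 < v c := by
  have h0 : F.derivative.coeff (r + 2) = F.coeff (r + 3) * (r + 3) := by
    rw [coeff_derivative]; push_cast; ring
  have h1 : F.derivative.natDegree = r + 2 := by
    refine le_antisymm ((natDegree_derivative_le F).trans (by rw [h.deg]; omega))
      (le_natDegree_of_ne_zero ?_)
    rw [← Valuation.ne_zero_iff v, h0, map_mul, h.vd, mul_one]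
    exact h.top_ne
  obtain ⟨c, h2, h3⟩ := exists_big_root (v := v) hs (k := r + 1) h1 (by
    rw [coeff_derivative, map_mul, h.sub, one_mul, ← h.vm]; push_cast; ring_nf)
  refine ⟨c, h2, not_le.mp fun hle => not_lt.mpr h3 ?_⟩
  rw [h0, map_mul, map_mul, h.vd, mul_one]
  exact mul_lt_one_of_nonneg_of_lt_one_left zero_le h.top_lt hle

lemma PL.lev (h : PL v J F r) {c : L} (hc : Lv v F r 0 c) (i : ℕ) :
    ∀ x, (fun x => F.eval x)^[i] x = c → ∃ k ≤ i, Lv v F r k x := by
  induction i with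
  | zero => rintro x rfl; exact ⟨0, le_rfl, hc⟩
  | succ i ih =>
    intro x hx
    obtain ⟨k, hk, h1⟩ := ih _ hx
    obtain ⟨-, ⟨h2, -⟩ | h2⟩ := h.child h1
    · exact ⟨0, by omega, h2⟩
    · exact ⟨k + 1, by omega, h2⟩

lemma PL.step (h : PL v J F r) {σ : J} {n k j : ℕ} {β x : L} (hβ : Lv v F r n β)
    (hσ : σ • β = β) (h1 : Lv v F r j (F.eval x)) (h2 : σ • F.eval x = F.eval x)
    (h3 : Lv v F r k x) (hk : k ≤ n) : σ • x = x := by
  refine h.eq_of_close h1 (by rw [eval_smul_of_fix (h.fix σ), h2])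
    (close_of_fixed h.inert (z := β ^ (r + 2) ^ (n - k)) (by rw [smul_pow', hσ]) ?_ ?_)
  · rw [map_pow]
    exact pow_ne_zero _ (zero_lt_one.trans (h.one_lt hβ)).ne'
  · have h4 := mul_right_cancel₀ h.top_ne (h3.trans hβ.symm)
    rw [← Nat.sub_add_cancel hk, pow_add, pow_mul] at h4
    rw [map_pow]
    exact (pow_left_inj₀ zero_le zero_le (pow_pos (by omega) _).ne').mp h4

/-- the conclusions drawn from a place dividing the leading coefficient -/
theorem PL.main (h : PL v J F r) {c : L} (hc : F.derivative.eval c = 0) (h1 : 1 < v c) {N : ℕ}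
    (hs : ∀ n < N, ∀ β, (fun x => F.eval x)^[n] β = c → (F - C β).Splits) {n : ℕ} (hn : n < N) :
    (∃ β, (fun x => F.eval x)^[n] β = c ∧ Lv v F r n β) ∧
    (∀ γ, (fun x => F.eval x)^[n] γ = c → ∃ u, F.eval u = γ ∧ ¬ Lv v F r (n + 1) u) ∧
    ∀ β, (fun x => F.eval x)^[n] β = c → Lv v F r n β → ∃ u, F.eval u = β ∧
      (∃ y y', F.eval y = β ∧ F.eval y' = β ∧ y ≠ u ∧ y' ≠ u ∧ y ≠ y') ∧
      ∀ y y', F.eval y = β → F.eval y' = β → y ≠ u → y' ≠ u →
        ∃ σ : J, (∀ x, (fun x => F.eval x)^[n] x = c → σ • x = x) ∧ σ • u = u ∧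
          (∀ z, (fun x => F.eval x)^[n + 1] z = c → ¬ Lv v F r n (F.eval z) → σ • z = z) ∧
          σ • y = y' := by
  classical
  have hc0 := h.crit_lv hc h1
  refine ⟨?_, fun γ hγ => ?_, fun β hβ hB => ?_⟩
  · induction n with
    | zero => exact ⟨c, rfl, hc0⟩
    | succ n ih =>
      obtain ⟨β, h2, h3⟩ := ih (by omega)
      obtain ⟨y, h4, h5⟩ := h.exists_down h3 (hs n (by omega) β h2)
      exact ⟨y, by rw [Function.iterate_succ_apply, h4, h2], h5⟩
  · obtain ⟨k, -, hk⟩ := h.lev hc0 n γ hγ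
    obtain ⟨u, h2, h3⟩ := h.exists_up hk (hs n hn γ hγ)
    exact ⟨u, h2, fun e => absurd (h.lv_inj h3 e) (by omega)⟩
  have hE : ∀ (σ : J) x, F.eval (σ • x) = σ • F.eval x := fun σ => eval_smul_of_fix (h.fix σ)
  have ht := fun y hy => tower (E := fun x => F.eval x) hE
    (S := fun n x => (fun x => F.eval x)^[n] x = c ∧ Lv v F r n x) (m := r + 2) (N := N)
    (by omega) (fun n x hx => ⟨hx.1, by
      obtain ⟨k, -, hk⟩ := h.lev hc0 n _ hx.1
      obtain ⟨-, ⟨h2, -⟩ | h2⟩ := h.child hk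
      · exact absurd (h.lv_inj h2 hx.2) (by omega)
      · rwa [← Nat.succ_inj.mp (h.lv_inj h2 hx.2)]⟩)
    (fun n σ x hx => ⟨by
      rw [← (Function.Semiconj.iterate_right (f := (σ • ·)) (fun x => (hE σ x).symm) n) x, hx.1]
      exact h.crit_fix hc h1 σ, by have := hx.2; rwa [Lv, h.inert.val]⟩)
    (fun n hn β hβ => by
      obtain ⟨u, h2, h3⟩ := h.exists_up hβ.2 (hs n hn β hβ.1)
      obtain ⟨e1, e2⟩ := fibre_finite (F := F) (by rw [h.deg]; omega) β
      have e3 : {x | F.eval x = β ∧ (fun x => F.eval x)^[n + 1] x = c ∧ Lv v F r (n + 1) x} ⊆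
          {z | F.eval z = β} \ {u} := fun x hx => ⟨hx.1, fun e =>
        absurd (h.lv_inj h3 (Set.mem_singleton_iff.mp e ▸ hx.2.2)) (by omega)⟩
      refine ⟨(e1.subset Set.sdiff_subset).subset e3,
        (Set.ncard_le_ncard e3 (e1.subset Set.sdiff_subset)).trans ?_⟩
      rw [Set.ncard_sdiff_singleton_of_mem (by exact h2)]
      rw [h.deg] at e2
      omega)
    (fun n x hx => pow_le_index h.inert h.top_ne (Or.inl h.top) hx.2)
    (fun x hx σ => by rw [show x = c from hx.1]; exact h.crit_fix hc h1 σ) hn (y := y) hy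
  obtain ⟨u, h2, h3⟩ := h.exists_up hB (hs n hn β hβ)
  have hS : ∀ y, F.eval y = β → y ≠ u →
      (fun x => F.eval x)^[n + 1] y = c ∧ Lv v F r (n + 1) y := by
    intro y hy hne
    refine ⟨by rw [Function.iterate_succ_apply, hy, hβ], ?_⟩
    obtain ⟨-, ⟨h4, -⟩ | h4⟩ := h.child (hy ▸ hB)
    · exact absurd (h.up_unique (h2 ▸ hB) (hy.trans h2.symm) h3 h4) hne
    · exact h4
  have hne : ∀ y, Lv v F r (n + 1) y → y ≠ u := fun y hy e =>
    absurd (h.lv_inj h3 (e ▸ hy)) (by omega)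
  refine ⟨u, h2, ?_, fun y y' hy hy' n1 n2 => ?_⟩
  · obtain ⟨y, h4, h5⟩ := h.exists_down hB (hs n hn β hβ)
    have h6 := (ht y (hS y h4 (hne y h5))).1
    obtain ⟨a, b, ha, hb, hab⟩ := (Set.one_lt_ncard_iff (Set.finite_of_ncard_pos
      (lt_of_lt_of_le (by omega) h6))).mp (lt_of_lt_of_le (by omega) h6)
    exact ⟨a, b, ha.1.trans h4, hb.1.trans h4, hne a ha.2.2, hne b hb.2.2, hab⟩
  · obtain ⟨σ, h4, h5⟩ := (ht y (hS y hy n1)).2 y' (hy'.trans hy.symm) (hS y' hy' n2)
    simp only [hy] at h4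
    have h6 : ∀ i ≤ n, ∀ x, (fun x => F.eval x)^[i] x = c → σ • x = x := by
      intro i
      induction i with
      | zero => rintro _ x rfl; exact h.crit_fix hc h1 σ
      | succ i ih =>
        intro hi x hx
        obtain ⟨k, hk, h7⟩ := h.lev hc0 _ x hx
        obtain ⟨j, -, h8⟩ := h.lev hc0 _ (F.eval x) hx
        exact h.step hB h4 h8 (ih (by omega) _ hx) h7 (by omega)
    refine ⟨σ, h6 n le_rfl, h.step hB h4 (h2 ▸ hB) (by rw [h2, h4]) h3 (by omega),
      fun z hz hz' => ?_, h5⟩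
    obtain ⟨j, hj, h8⟩ := h.lev hc0 _ (F.eval z) hz
    have hjn : j ≠ n := fun e => hz' (e ▸ h8)
    obtain ⟨-, ⟨h9, -⟩ | h9⟩ := h.child h8
    · exact h.step hB h4 h8 (h6 n le_rfl _ hz) h9 (by omega)
    · exact h.step hB h4 h8 (h6 n le_rfl _ hz) h9 (by omega)

end

end Pool.Agent.Lib.Crit79
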