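import Mathlib

set_option autoImplicit false

open Polynomial Finset

namespace Pool.Agent.Lib.Crit79

/-- invariance modulo `m` -/
def Per (m : ℕ) (E : ℤ[X] → Prop) : Prop := ∀ F G : ℤ[X], E F → E (F + C (m : ℤ) * G)

/-- residues modulo `m` of coefficient vectors with the property `E` -/
def res (k m : ℕ) (E : ℤ[X] → Prop) : Set (Fin k → ZMod m) :=
  {x | ∃ a : Fin k → ℤ, (∀ i, (a i : ZMod m) = x i) ∧ E (ofFn k a)}

lemma Per.of_mem {k m : ℕ} {E : ℤ[X] → Prop} (h : Per m E) {a : Fin k → ℤ}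
    (ha : (fun i => (a i : ZMod m)) ∈ res k m E) : E (ofFn k a) := by
  obtain ⟨b, h1, h2⟩ := ha
  choose c hc using fun i => (ZMod.intCast_eq_intCast_iff_dvd_sub _ _ _).mp (h1 i)
  have : a = b + (m : ℤ) • c := by
    ext i
    rw [Pi.add_apply, Pi.smul_apply, smul_eq_mul, ← hc, add_sub_cancel]
  rw [this, map_add, map_smul, smul_eq_C_mul]
  exact h _ _ h2

lemma card_filter_hom {A B : Type*} [AddGroup A] [AddGroup B] [Fintype A] [Fintype B]
    [DecidableEq B] (π : A →+ B) (hπ : Function.Surjective π) (S : Finset B) :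
    (univ.filter fun a => π a ∈ S).card * Fintype.card B = S.card * Fintype.card A := by
  have h : ∀ S : Finset B, (univ.filter fun a => π a ∈ S).card
      = S.card * (univ.filter fun a => π a = 0).card := by
    intro S
    rw [card_eq_sum_card_fiberwise (f := π) (s := univ.filter fun a => π a ∈ S) (t := S)
      fun a ha => (mem_filter.mp ha).2, ← smul_eq_mul, ← sum_const]
    refine sum_congr rfl fun b hb => ?_
    rw [← AddMonoidHom.card_fiber_eq_of_mem_range π (hπ b) (hπ 0), filter_filter]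
    exact congrArg card (filter_congr fun a _ => ⟨fun h => h.2, fun h => ⟨h ▸ hb, h⟩⟩)
  have h1 := h univ
  simp only [mem_univ, filter_true, card_univ] at h1
  rw [h S, h1]
  ring

lemma map_ofFn {R S : Type*} [Semiring R] [Semiring S] [DecidableEq R] [DecidableEq S]
    (φ : R →+* S) {k : ℕ} (a : Fin k → R) : (ofFn k a).map φ = ofFn k fun i => φ (a i) := by
  ext i
  rcases lt_or_ge i k with h | h <;> simp [h]

lemma dens_of {k q : ℕ} (hq : q ≠ 0) {E : ℤ[X] → Prop} (S : Finset (ZMod q)[X])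
    (hS : ∀ P ∈ S, P.natDegree < k) {T : ℤ[X]} (hT : T.natDegree < k)
    (h : ∀ F : ℤ[X], F.map (Int.castRingHom (ZMod q)) ∈ S → E F ∨ E (F + T)) :
    S.card * q ^ k ≤ 2 * (res k (q ^ 2) E).ncard := by
  classical
  have : NeZero q := ⟨hq⟩
  let φ := ZMod.castHom (dvd_pow_self q two_ne_zero) (ZMod q)
  let π : (Fin k → ZMod (q ^ 2)) →+ (Fin k → ZMod q) := φ.toAddMonoidHom.compLeft (Fin k)
  have hπ : Function.Surjective π := fun y => ⟨fun i => ((y i).val : ZMod (q ^ 2)), by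
    ext i
    change φ _ = _
    simp⟩
  have h1 := card_filter_hom π hπ (S.image (toFn k))
  rw [card_image_of_injOn fun P hP Q hQ e => by
    rw [← ofFn_comp_toFn_eq_id_of_natDegree_lt (hS P hP), e,
      ofFn_comp_toFn_eq_id_of_natDegree_lt (hS Q hQ)]] at h1
  simp only [Fintype.card_fun, ZMod.card, Fintype.card_fin] at h1
  rw [← pow_mul, two_mul, pow_add, ← mul_assoc] at h1
  rw [← Nat.eq_of_mul_eq_mul_right (pow_pos (Nat.pos_of_ne_zero hq) k) h1, ← Set.ncard_coe_finset]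
  set t : Fin k → ZMod (q ^ 2) := fun i => (toFn k T i : ℤ)
  refine (Set.ncard_le_ncard (t := res k (q ^ 2) E ∪ (· - t) '' res k (q ^ 2) E)
    fun x hx => ?_).trans ((Set.ncard_union_le _ _).trans ?_)
  · obtain ⟨P, hP, e⟩ := mem_image.mp (mem_filter.mp hx).2
    set a : Fin k → ℤ := fun i => (x i).val
    have ha : ∀ i, (a i : ZMod (q ^ 2)) = x i := fun i => by simp [a]
    rcases h (ofFn k a) (by
      rw [← ofFn_comp_toFn_eq_id_of_natDegree_lt (hS P hP), e] at hP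
      rw [map_ofFn]
      convert hP using 2
      ext i
      rw [eq_intCast, ← map_intCast φ, ha]
      rfl) with h2 | h2
    · exact Or.inl ⟨a, ha, h2⟩
    · refine Or.inr ⟨x + t, ⟨a + toFn k T, fun i => by simp [ha, t], ?_⟩, by simp⟩
      rwa [map_add, ofFn_comp_toFn_eq_id_of_natDegree_lt hT]
  · have := Set.ncard_image_le (s := res k (q ^ 2) E) (f := (· - t))
    omega

/-- the box of coefficient vectors -/
noncomputable def box (k H : ℕ) : Finset (Fin k → ℤ) :=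
  Fintype.piFinset fun _ => Icc (-(H : ℤ)) H

lemma card_box (k H : ℕ) : (box k H).card = (2 * H + 1) ^ k := by
  rw [box, Fintype.card_piFinset, prod_const, card_univ, Fintype.card_fin, Int.card_Icc]
  congr 1
  omega

lemma card_class (M H : ℕ) (hM : M ≠ 0) (x : ZMod M) :
    ((Icc (-(H : ℤ)) H).filter fun z : ℤ => (z : ZMod M) = x).card ≤ 2 * H / M + 1 := by
  have hM' : (0 : ℤ) < M := by exact_mod_cast Nat.pos_of_ne_zero hM
  refine (card_le_card_of_injOn (t := Icc 0 ((2 * H / M : ℕ) : ℤ)) (fun z => (z + H) / M)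
    (fun z hz => ?_) fun y hy z hz e => ?_).trans (by rw [Int.card_Icc]; generalize 2 * H / M = n; omega)
  · obtain ⟨h1, h2⟩ := mem_Icc.mp (mem_filter.mp hz).1
    refine mem_coe.mpr (mem_Icc.mpr ⟨Int.ediv_nonneg (by omega) hM'.le, ?_⟩)
    push_cast
    exact Int.ediv_le_ediv hM' (by omega)
  · have h1 := (ZMod.intCast_eq_intCast_iff _ _ _).mp
      ((mem_filter.mp hy).2.trans (mem_filter.mp hz).2.symm)
    have h2 : (y + H) % M = (z + H) % M := h1.add_right H
    have h3 := Int.mul_ediv_add_emod (y + H) M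
    have h4 := Int.mul_ediv_add_emod (z + H) M
    simp only at e
    rw [e, h2] at h3
    omega

theorem sieve {ι : Type*} [Fintype ι] (k : ℕ) (m : ι → ℕ) (hm0 : ∀ i, m i ≠ 0)
    (hm : Pairwise fun i j => (m i).Coprime (m j)) (E : ι → ℤ[X] → Prop)
    [∀ i F, Decidable (E i F)] (ρ : ι → ℝ) (hper : ∀ i, Per (m i) (E i))
    (hd : ∀ i, ρ i * m i ^ k ≤ (res k (m i) (E i)).ncard) (H : ℕ) :
    (((box k H).filter fun a => ∀ i, ¬ E i (ofFn k a)).card : ℝ)
      ≤ (∏ i, (1 - ρ i)) * (2 * H + ∏ i, m i : ℕ) ^ k := by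
  classical
  have hM : ∏ i, m i ≠ 0 := prod_ne_zero_iff.mpr fun i _ => hm0 i
  have : ∀ i, NeZero (m i) := fun i => ⟨hm0 i⟩
  have : NeZero (∏ i, m i) := ⟨hM⟩
  let e := ZMod.prodEquivPi m hm
  set T : Finset (Fin k → ZMod (∏ i, m i)) :=
    univ.filter fun x => ∀ i, (fun j => e (x j) i) ∉ res k (m i) (E i) with hT
  have h1 : T.card ≤ ∏ i, (res k (m i) (E i)).toFinsetᶜ.card := by
    rw [← Fintype.card_piFinset]
    refine card_le_card_of_injOn (fun x i j => e (x j) i) (fun x hx => ?_) fun x _ y _ h => ?_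
    · simpa using (mem_filter.mp hx).2
    · ext j
      exact e.injective (funext fun i => congrFun (congrFun h i) j)
  have h2 : (T.card : ℝ) ≤ (∏ i, (1 - ρ i)) * (∏ i, m i : ℕ) ^ k := by
    refine le_trans (Nat.cast_le.mpr h1) ?_
    rw [Nat.cast_prod, Nat.cast_prod, ← prod_pow, ← prod_mul_distrib]
    refine prod_le_prod (fun _ _ => Nat.cast_nonneg _) fun i _ => ?_
    rw [card_compl, Nat.cast_sub (card_le_univ _), ← Set.ncard_eq_toFinset_card']
    have := hd i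
    simp only [Fintype.card_fun, ZMod.card, Fintype.card_fin, Nat.cast_pow]
    linarith
  have h3 : ((box k H).filter fun a => ∀ i, ¬ E i (ofFn k a)).card
      ≤ (2 * H / ∏ i, m i + 1) ^ k * T.card := by
    refine card_le_mul_card_image_of_maps_to
      (f := fun (a : Fin k → ℤ) j => (a j : ZMod (∏ i, m i))) (fun a ha => ?_) _ fun x _ => ?_
    · exact mem_filter.mpr ⟨mem_univ _, fun i hi => (mem_filter.mp ha).2 i
        ((hper i).of_mem (by simpa only [map_intCast, Pi.intCast_apply] using hi))⟩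
    refine (card_le_card (t := Fintype.piFinset fun j => (Icc (-(H : ℤ)) H).filter
      fun z : ℤ => (z : ZMod (∏ i, m i)) = x j) fun a ha => ?_).trans ?_
    · obtain ⟨h4, h5⟩ := mem_filter.mp ha
      exact Fintype.mem_piFinset.mpr fun j => mem_filter.mpr
        ⟨Fintype.mem_piFinset.mp (mem_filter.mp h4).1 j, congrFun h5 j⟩
    · rw [Fintype.card_piFinset]
      refine (prod_le_pow_card _ _ _ fun j _ => card_class _ H hM _).trans ?_
      rw [card_univ, Fintype.card_fin]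
  have h4 : ((2 * H / ∏ i, m i + 1) * ∏ i, m i : ℕ) ≤ 2 * H + ∏ i, m i := by
    rw [add_mul, one_mul]
    exact Nat.add_le_add_right (Nat.div_mul_le_self _ _) _
  have h5 : 0 ≤ ∏ i, (1 - ρ i) := by
    by_contra hlt
    have : (0 : ℝ) < (∏ i, m i : ℕ) ^ k := pow_pos (Nat.cast_pos.mpr (Nat.pos_of_ne_zero hM)) _
    nlinarith [(Nat.cast_nonneg T.card : (0 : ℝ) ≤ _)]
  refine le_trans (Nat.cast_le.mpr h3) ?_
  rw [Nat.cast_mul, Nat.cast_pow]
  refine (mul_le_mul_of_nonneg_left h2 (by positivity)).trans ?_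
  rw [mul_left_comm, ← mul_pow, ← Nat.cast_mul]
  gcongr

lemma prod_one_sub_mul_le {ι : Type*} (s : Finset ι) (x : ι → ℝ) (h0 : ∀ i ∈ s, 0 ≤ x i)
    (h1 : ∀ i ∈ s, x i ≤ 1) : (∏ i ∈ s, (1 - x i)) * (1 + ∑ i ∈ s, x i) ≤ 1 := by
  classical
  induction s using Finset.induction_on with
  | empty => simp
  | insert a s ha ih =>
    rw [prod_insert ha, sum_insert ha]
    have e1 := ih (fun i hi => h0 i (mem_insert_of_mem hi)) fun i hi => h1 i (mem_insert_of_mem hi)
    have e2 := h0 a (mem_insert_self _ _)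
    have e3 : 0 ≤ ∏ i ∈ s, (1 - x i) :=
      prod_nonneg fun i hi => sub_nonneg.mpr (h1 i (mem_insert_of_mem hi))
    have e4 : 0 ≤ ∑ i ∈ s, x i := sum_nonneg fun i hi => h0 i (mem_insert_of_mem hi)
    nlinarith [mul_nonneg e3 (mul_nonneg e2 (add_nonneg e2 e4))]

lemma sum_inv_sq_le (Q : Finset ℕ) (hQ : ∀ q ∈ Q, 2 ≤ q) : ∑ q ∈ Q, (1 / (q : ℝ)) ^ 2 ≤ 1 := by
  obtain ⟨n, hn⟩ := Q.bddAbove
  refine (sum_le_sum_of_subset_of_nonneg (t := Ioc 1 n) (fun q hq => mem_Ioc.mpr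
    ⟨hQ q hq, hn hq⟩) fun _ _ _ => by positivity).trans ?_
  rcases Nat.eq_zero_or_pos n with rfl | h
  · simp
  have := sum_Ioc_inv_sq_le_sub (α := ℝ) one_ne_zero h
  simp only [one_div, inv_pow]
  have : (0 : ℝ) ≤ (n : ℝ)⁻¹ := by positivity
  simp only [Nat.cast_one, inv_one] at *
  linarith

lemma exists_primes (q₀ : ℕ) (S : ℝ) : ∃ Q : Finset ℕ, (∀ q ∈ Q, q.Prime ∧ q₀ < q) ∧
    S ≤ ∑ q ∈ Q, 1 / (q : ℝ) := by
  classical
  by_contra hcon
  push Not at hcon
  refine not_summable_one_div_on_primes ((summable_nat_add_iff (q₀ + 1)).mp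
    (summable_of_sum_le (c := S) (fun n => Set.indicator_nonneg (fun _ _ => by positivity) _)
      fun s => ?_))
  refine le_trans (le_of_eq ?_) (hcon ((s.image (· + (q₀ + 1))).filter Nat.Prime) fun q hq => ?_).le
  · rw [sum_filter, sum_image fun _ _ _ _ h => Nat.add_right_cancel h]
    exact sum_congr rfl fun n _ => by simp [Set.indicator_apply]
  · obtain ⟨h1, h2⟩ := mem_filter.mp hq
    obtain ⟨n, -, rfl⟩ := mem_image.mp h1
    exact ⟨h2, by omega⟩

/-- the local condition `E D q` has density at least a constant times `1 / q` -/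
def Rich (k : ℕ) (E : ℕ → ℕ → ℤ[X] → Prop) : Prop :=
  ∃ C q₀ : ℕ, ∀ q, q.Prime → q₀ < q → ∀ D, ¬ q ∣ D →
    Per (q ^ 2) (E D q) ∧ q ^ (2 * k) ≤ C * q * (res k (q ^ 2) (E D q)).ncard

open scoped Classical in
theorem Rich.sieve {k : ℕ} {E : ℕ → ℕ → ℤ[X] → Prop} (h : Rich k E) (q₁ : ℕ) {ε : ℝ}
    (hε : 0 < ε) : ∃ H₀ : ℕ, ∀ H ≥ H₀, ∀ H' : ℕ,
      (((Icc 1 H' ×ˢ box k H).filter fun z => ∀ q, q.Prime → q₁ < q → ¬ q ∣ z.1 →
        ¬ E z.1 q (ofFn k z.2)).card : ℝ) ≤ ε * (H' * (2 * H + 1) ^ k) := by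
  obtain ⟨C, q₀, h⟩ := h
  set S : ℝ := 4 * (C + 1) * 2 ^ k / ε + 4 / ε with hS
  have hS0 : 0 < S := by positivity
  obtain ⟨Q, hQ, hQS⟩ := exists_primes (max q₀ q₁) S
  refine ⟨∏ q ∈ Q, q ^ 2, fun H hH H' => ?_⟩
  set bad := (Icc 1 H').filter fun D => S / 2 ≤ ∑ q ∈ Q.filter (· ∣ D), 1 / (q : ℝ) with hbad
  have h1 : (bad.card : ℝ) * (S / 2) ≤ H' := by
    rw [← nsmul_eq_mul, ← sum_const]
    refine (sum_le_sum fun D hD => (mem_filter.mp hD).2).trans
      ((sum_le_sum_of_subset_of_nonneg (filter_subset _ _) fun _ _ _ => by positivity).trans ?_)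
    simp only [sum_filter]
    rw [sum_comm]
    have e := mul_le_of_le_one_right (Nat.cast_nonneg H')
      (sum_inv_sq_le Q fun q hq => (hQ q hq).1.two_le)
    rw [mul_sum] at e
    refine le_trans (sum_le_sum fun q hq => ?_) e
    rw [← sum_filter, sum_const, nsmul_eq_mul, show Icc 1 H' = Ioc 0 H' from rfl,
      Nat.Ioc_filter_dvd_card_eq_div, sq, ← mul_assoc, mul_one_div (H' : ℝ)]
    gcongr
    exact Nat.cast_div_le
  have h2 : ∀ D ∈ Icc 1 H', (((box k H).filter fun a => ∀ q, q.Prime → q₁ < q → ¬ q ∣ D →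
      ¬ E D q (ofFn k a)).card : ℝ) ≤ (ε / 2 + if D ∈ bad then 1 else 0) * (2 * H + 1) ^ k := by
    intro D hD
    split_ifs with hb
    · refine le_trans (Nat.cast_le.mpr (card_filter_le _ _)) ?_
      rw [card_box]
      push_cast
      exact le_mul_of_one_le_left (by positivity) (by linarith)
    rw [hbad, mem_filter, not_and, not_le] at hb
    set Q' := Q.filter fun q => ¬ q ∣ D with hQ'
    have h3 : S / 2 ≤ ∑ q ∈ Q', 1 / (q : ℝ) := by
      have := sum_filter_add_sum_filter_not Q (· ∣ D) fun q => 1 / (q : ℝ)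
      linarith [hb hD]
    have h4 : ∀ q : Q', (q : ℕ).Prime ∧ q₀ < q ∧ q₁ < q ∧ ¬ (q : ℕ) ∣ D := fun q => by
      obtain ⟨e1, e2⟩ := mem_filter.mp q.2
      have := hQ q e1
      exact ⟨this.1, by omega, by omega, e2⟩
    have h5 := Crit79.sieve k (fun q : Q' => (q : ℕ) ^ 2) (fun q => pow_ne_zero _ (h4 q).1.ne_zero)
      (fun p q hpq => Nat.coprime_pow_primes _ _ (h4 p).1 (h4 q).1 (Subtype.coe_ne_coe.mpr hpq))
      (fun q => E D q) (fun q => 1 / (C + 1) * (1 / q))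
      (fun q => (h q (h4 q).1 (h4 q).2.1 D (h4 q).2.2.2).1) (fun q => by
        have e1 : ((q : ℕ) : ℝ) ^ (2 * k) ≤ C * q * (res k (q ^ 2) (E D q)).ncard := by
          exact_mod_cast (h q (h4 q).1 (h4 q).2.1 D (h4 q).2.2.2).2
        have e2 : (0 : ℝ) < (q : ℕ) := by exact_mod_cast (h4 q).1.pos
        rw [Nat.cast_pow, ← pow_mul, div_mul_div_comm, one_mul, one_div, inv_mul_le_iff₀
          (by positivity)]
        refine e1.trans ?_
        gcongr
        linarith) H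
    refine le_trans (Nat.cast_le.mpr (card_le_card fun a ha => mem_filter.mpr ⟨(mem_filter.mp ha).1,
      fun q : Q' => (mem_filter.mp ha).2 q (h4 q).1 (h4 q).2.2.1 (h4 q).2.2.2⟩)) (h5.trans ?_)
    have hC : (0 : ℝ) < C + 1 := by positivity
    have h6 : ∀ q ∈ Q', 1 / ((C : ℝ) + 1) * (1 / q) ≤ 1 := fun q hq =>
      mul_le_one₀ ((div_le_one hC).mpr (by linarith [(Nat.cast_nonneg C : (0 : ℝ) ≤ _)]))
        (by positivity) ((div_le_one (by exact_mod_cast (h4 ⟨q, hq⟩).1.pos)).mpr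
          (by exact_mod_cast (h4 ⟨q, hq⟩).1.pos))
    have h7 := prod_one_sub_mul_le Q' _ (fun q _ => by positivity) h6
    rw [prod_coe_sort Q' fun q => 1 - 1 / ((C : ℝ) + 1) * (1 / q),
      prod_coe_sort Q' fun q => q ^ 2]
    set p := ∏ q ∈ Q', (1 - 1 / ((C : ℝ) + 1) * (1 / q))
    have h8 : 0 ≤ p := prod_nonneg fun q hq => sub_nonneg.mpr (h6 q hq)
    have h9 : p * 2 ^ k ≤ ε / 2 := by
      rw [← mul_sum] at h7
      have e1 : 2 * 2 ^ k / ε ≤ 1 / ((C : ℝ) + 1) * ∑ q ∈ Q', 1 / (q : ℝ) := by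
        refine le_trans ?_ (mul_le_mul_of_nonneg_left h3 (by positivity))
        rw [hS, one_div, le_inv_mul_iff₀ hC, add_div]
        have : 0 ≤ 4 / ε / 2 := by positivity
        have : ((C : ℝ) + 1) * (2 * 2 ^ k / ε) = 4 * (C + 1) * 2 ^ k / ε / 2 := by ring
        linarith
      have e2 : p * (2 * 2 ^ k / ε) ≤ 1 := by nlinarith
      rw [← mul_div_assoc, div_le_one hε] at e2
      linarith
    have h10 : ((2 * H + ∏ q ∈ Q', q ^ 2 : ℕ) : ℝ) ≤ 2 * (2 * H + 1) := by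
      have : ∏ q ∈ Q', q ^ 2 ≤ H := (prod_le_prod_of_subset_of_one_le' (filter_subset _ _)
        fun q hq _ => Nat.one_le_pow _ _ (hQ q hq).1.pos).trans hH
      exact_mod_cast (by omega)
    refine (mul_le_mul_of_nonneg_left (pow_le_pow_left₀ (by positivity) h10 k) h8).trans ?_
    rw [mul_pow, ← mul_assoc, add_zero]
    gcongr
  rw [card_filter, sum_product]
  simp only [← card_filter]
  rw [Nat.cast_sum]
  refine (sum_le_sum h2).trans ?_
  rw [← sum_mul, sum_add_distrib, sum_const, Nat.card_Icc, Nat.add_sub_cancel, nsmul_eq_mul,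
    ← sum_filter, sum_const, nsmul_eq_mul, mul_one, filter_mem_eq_inter,
    inter_eq_right.mpr (filter_subset _ _), ← mul_assoc]
  gcongr
  have h3 : (bad.card : ℝ) * (2 / ε) ≤ H' := by
    refine le_trans (mul_le_mul_of_nonneg_left ?_ (Nat.cast_nonneg _)) h1
    have : 0 ≤ 4 * ((C : ℝ) + 1) * 2 ^ k / ε := by positivity
    have : 4 / ε = 2 * (2 / ε) := by ring
    linarith
  rw [← mul_div_assoc, div_le_iff₀ hε] at h3
  linarith

end Pool.Agent.Lib.Crit79
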