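import Pool.Agent.Lib.Crit79.Count2
import Pool.Agent.Lib.Crit79.Sieve
import Pool.Agent.Lib.Crit79.Glob

set_option autoImplicit false

open Polynomial Finset

namespace Pool.Agent.Lib.Crit79

lemma rich_of {d : ℕ} {E : ℕ → ℕ → ℤ[X] → Prop} (C q₀ : ℕ)
    (h : ∀ q, q.Prime → q₀ < q → ∀ D, ¬ q ∣ D → Per (q ^ 2) (E D q) ∧
      ∃ S : Finset (ZMod q)[X], q ^ d ≤ C * S.card ∧ (∀ P ∈ S, P.natDegree < d + 1) ∧
        ∃ T : ℤ[X], T.natDegree < d + 1 ∧
          ∀ F : ℤ[X], F.map (Int.castRingHom (ZMod q)) ∈ S → E D q F ∨ E D q (F + T)) :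
    Rich (d + 1) E := by
  refine ⟨2 * C, q₀, fun q hq hq₀ D hD => ⟨(h q hq hq₀ D hD).1, ?_⟩⟩
  obtain ⟨-, S, h1, h2, T, h3, h4⟩ := h q hq hq₀ D hD
  have h5 := dens_of hq.ne_zero S h2 h3 h4
  calc _ = q * q ^ d * q ^ (d + 1) := by ring
    _ ≤ q * (C * S.card) * q ^ (d + 1) := by gcongr
    _ = C * q * (S.card * q ^ (d + 1)) := by ring
    _ ≤ C * q * (2 * _) := Nat.mul_le_mul_left _ h5
    _ = _ := by ring

lemma dvd_per_one (q : ℕ) (a b : ℤ) : (q : ℤ) ∣ a + (q ^ 2 : ℕ) * b ↔ (q : ℤ) ∣ a :=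
  dvd_add_left (Dvd.dvd.mul_right (by push_cast; exact dvd_pow_self _ two_ne_zero) _)

lemma dvd_per_two (q : ℕ) (a b : ℤ) : (q : ℤ) ^ 2 ∣ a + (q ^ 2 : ℕ) * b ↔ (q : ℤ) ^ 2 ∣ a :=
  dvd_add_left (Dvd.dvd.mul_right (by push_cast; exact dvd_rfl) _)

variable {q : ℕ} {F : ℤ[X]}

lemma coeff_ne_iff (i : ℕ) :
    (F.map (Int.castRingHom (ZMod q))).coeff i = 0 ↔ (q : ℤ) ∣ F.coeff i := by
  rw [coeff_map, eq_intCast, ZMod.intCast_zmod_eq_zero_iff_dvd]

lemma eval_zero_iff (j : ℤ) :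
    (F.map (Int.castRingHom (ZMod q))).eval (j : ZMod q) = 0 ↔ (q : ℤ) ∣ F.eval j := by
  rw [eval_intCast_map, eq_intCast, Int.cast_id, ZMod.intCast_zmod_eq_zero_iff_dvd]

lemma eval_eq_iff (j t : ℤ) (D : ℕ) :
    (F.map (Int.castRingHom (ZMod q))).eval (j : ZMod q) = D * t ↔ (q : ℤ) ∣ F.eval j - D * t := by
  rw [eval_intCast_map, eq_intCast, Int.cast_id, ← ZMod.intCast_zmod_eq_zero_iff_dvd, Int.cast_sub,
    sub_eq_zero, Int.cast_mul, Int.cast_natCast]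

lemma not_sq_dvd (hq : q.Prime) {a : ℤ} : ¬ (q : ℤ) ^ 2 ∣ a ∨ ¬ (q : ℤ) ^ 2 ∣ a + q := by
  by_contra h
  push Not at h
  have := Int.le_of_dvd (by exact_mod_cast hq.pos) ((dvd_add_right h.1).mp h.2)
  have := hq.two_le
  nlinarith

lemma natCast_ne {i : ℕ} (h0 : 0 < i) (h : i < q) : (i : ZMod q) ≠ 0 := by
  rw [Ne, ZMod.natCast_eq_zero_iff]
  exact Nat.not_dvd_of_pos_of_lt h0 h

theorem rich_I (n : ℕ) : Rich (n + 2 + 1) fun _ q => CI (n + 2) q := by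
  refine rich_of (2 * (n + 1)) (2 * n + 2) fun q hq hq₀ D _ => ⟨fun F G h => ?_, ?_⟩
  · refine ⟨by simpa only [coeff_add, coeff_C_mul, dvd_per_one] using h.1, ?_⟩
    have : ((q ^ 2 : ℕ) : ZMod q) = 0 := by simp
    simpa only [derivative_add, derivative_C_mul, Polynomial.map_add, Polynomial.map_mul, map_C,
      map_natCast (Int.castRingHom (ZMod q)), this, C_0, zero_mul, add_zero] using h.2
  have : Fact q.Prime := ⟨hq⟩
  obtain ⟨S, h1, h2⟩ := count_I (K := ZMod q) (GaloisField q (n + 1))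
    (GaloisField.finrank q n.succ_ne_zero) (by rw [ZMod.card]; omega) fun i hi => by
      exact_mod_cast natCast_ne (q := q) (i := i + 1) (by omega) (by omega)
  rw [ZMod.card] at h1
  refine ⟨S, h1, fun P hP => (h2 P hP).1, 0, by simp, fun F hF => Or.inl ?_⟩
  obtain ⟨-, h3, h4⟩ := h2 _ hF
  exact ⟨fun e => h3 ((coeff_ne_iff _).mpr e), by rwa [← derivative_map]⟩

theorem rich_Z (r : ℕ) : Rich (r + 3 + 1) (CZ (r + 3)) := by
  refine rich_of (4 * (r + 3)) (20 * (r + 3) + 20) fun q hq hq₀ D _ => ⟨fun F G h => ?_, ?_⟩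
  · simpa only [CZ, derivative_add, derivative_C_mul, eval_add, eval_mul, eval_C, coeff_add,
      coeff_C_mul, add_sub_right_comm, dvd_per_one] using h
  have : Fact q.Prime := ⟨hq⟩
  obtain ⟨S, h1, h2⟩ := count_Z (K := ZMod q) r (by rw [ZMod.card]; omega)
  rw [ZMod.card] at h1
  refine ⟨S, h1, fun P hP => (h2 P hP).1, 0, by simp, fun F hF => Or.inl ?_⟩
  obtain ⟨-, h3, h4, h5, h6⟩ := h2 _ hF
  refine ⟨fun e => h3 ((coeff_ne_iff _).mpr e), 0, ?_, fun e => ?_, fun j e => ?_⟩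
  · simpa [← coeff_zero_eq_eval_zero, coeff_derivative] using (coeff_ne_iff _).mp h4
  · rw [← coeff_zero_eq_eval_zero, coeff_derivative, coeff_derivative] at e
    norm_num at e
    rcases (Nat.prime_iff_prime_int.mp hq).dvd_or_dvd e with e | e
    · exact h5 ((coeff_ne_iff _).mpr e)
    · have := Int.le_of_dvd two_pos e
      omega
  · exact h6 j ((eval_zero_iff j).mpr (by simpa using e))

theorem rich_P (n : ℕ) : Rich (n + 1 + 1) fun _ q => CP (n + 1) q := by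
  refine rich_of 2 0 fun q hq _ D _ => ⟨fun F G h => ?_, ?_⟩
  · simpa only [CP, coeff_add, coeff_C_mul, dvd_per_one, dvd_per_two] using h
  have : Fact q.Prime := ⟨hq⟩
  obtain ⟨S, h1, h2⟩ := count_P (K := ZMod q) n
  rw [ZMod.card] at h1
  refine ⟨S, h1, fun P hP => (h2 P hP).1, C (q : ℤ) * X ^ (n + 1),
    Nat.lt_succ_of_le (natDegree_C_mul_X_pow_le _ _), fun F hF => ?_⟩
  obtain ⟨-, h3, h4⟩ := h2 _ hF
  rw [Ne, coeff_ne_iff] at h4
  rw [coeff_ne_iff] at h3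
  refine (not_sq_dvd hq (a := F.coeff (n + 1))).imp (fun h => ⟨h3, h, h4⟩) fun h => ?_
  simp only [CP, coeff_add, coeff_C_mul, coeff_X_pow, Nat.add_sub_cancel, if_true, mul_one,
    if_neg n.lt_succ_self.ne, mul_zero, add_zero]
  exact ⟨dvd_add h3 dvd_rfl, h, h4⟩

lemma exists_fx (hq : q.Prime) {D : ℕ} {c : ZMod q}
    (h1 : (F.map (Int.castRingHom (ZMod q))).derivative.eval c = 0)
    (h2 : (F.map (Int.castRingHom (ZMod q))).derivative.derivative.eval c ≠ 0)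
    (h3 : (F.map (Int.castRingHom (ZMod q))).eval c = D * c) :
    ∃ j : ℤ, (j : ZMod q) = c ∧ (Fx D q F j ∨ Fx D q (F + C (q : ℤ)) j) := by
  obtain ⟨i, rfl⟩ := ZMod.intCast_surjective c
  rw [derivative_map] at h1 h2
  rw [derivative_map] at h2
  obtain ⟨s, hs⟩ := (eval_zero_iff i).mp h1
  obtain ⟨a, b, hab⟩ := (Nat.prime_iff_prime_int.mp hq).irreducible.coprime_iff_not_dvd.mpr
    fun e => h2 ((eval_zero_iff i).mpr e)
  obtain ⟨k, hk⟩ := F.derivative.binomExpansion i (-(q * s * b))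
  have e : ((i + -(q * s * b) : ℤ) : ZMod q) = i := by simp
  have h4 : (q : ℤ) ^ 2 ∣ F.derivative.eval (i + -(q * s * b)) :=
    ⟨s * a + k * (s * b) ^ 2, by rw [hk, hs]; linear_combination (-(q : ℤ) * s) * hab⟩
  rw [← e] at h2 h3
  rw [Ne, eval_zero_iff] at h2
  rw [eval_eq_iff] at h3
  refine ⟨_, e, (not_sq_dvd hq).imp (fun h => ⟨h4, h2, h3, h⟩) fun h => ?_⟩
  simp only [Fx, derivative_add, derivative_C, add_zero, eval_add, eval_C, add_sub_right_comm]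
  exact ⟨h4, h2, dvd_add h3 dvd_rfl, h⟩

theorem rich_T (r : ℕ) : Rich (r + 3 + 1) (CT (r + 3)) := by
  refine rich_of (4 * (r + 3) ^ 3) (20 * (r + 3) + 20) fun q hq hq₀ D hD => ⟨fun F G h => ?_, ?_⟩
  · simpa only [CT, Fx, derivative_add, derivative_C_mul, eval_add, eval_mul, eval_C, coeff_add,
      coeff_C_mul, add_sub_right_comm, dvd_per_one, dvd_per_two] using h
  have : Fact q.Prime := ⟨hq⟩
  obtain ⟨S, h1, h2⟩ := count_T (K := ZMod q) r (by rw [ZMod.card]; omega)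
    (by exact_mod_cast natCast_ne (q := q) two_pos (by omega)) (D := D)
    (by rwa [Ne, ZMod.natCast_eq_zero_iff])
  rw [ZMod.card] at h1
  refine ⟨S, h1, fun P hP => (h2 P hP).1, C (q : ℤ), by simp, fun F hF => ?_⟩
  obtain ⟨-, c, y, h3, h4, h5, h6, h7, h8, h9⟩ := h2 _ hF
  obtain ⟨j, rfl, hj⟩ := exists_fx hq h4 h5 h6
  obtain ⟨y, rfl⟩ := ZMod.intCast_surjective y
  rw [Ne, coeff_ne_iff] at h3
  rw [eval_eq_iff] at h7
  rw [derivative_map, Ne, eval_zero_iff] at h8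
  have h10 : ∀ i : ℤ, ¬ (q : ℤ) ∣ F.eval i - D * y := fun i e => h9 i ((eval_eq_iff _ _ _).mpr e)
  refine hj.imp (fun h => ⟨h3, j, y, h, h7, h8, h10⟩) fun h => ⟨?_, j, y, h, ?_⟩
  · rwa [coeff_add, coeff_C, if_neg (by omega), add_zero]
  · simp only [derivative_add, derivative_C, add_zero, eval_add, eval_C, add_sub_right_comm,
      dvd_add_left (dvd_refl (q : ℤ))]
    exact ⟨h7, h8, h10⟩

/-- a critical point fixed to first order exactly, at a prime of good reduction -/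
def CF (d D q : ℕ) (F : ℤ[X]) : Prop := ¬ (q : ℤ) ∣ F.coeff d ∧ ∃ c : ℤ, Fx D q F c

theorem rich_F : Rich (2 + 1) (CF 2) := by
  refine rich_of 2 2 fun q hq hq₀ D _ => ⟨fun F G h => ?_, ?_⟩
  · simpa only [CF, Fx, derivative_add, derivative_C_mul, eval_add, eval_mul, eval_C, coeff_add,
      coeff_C_mul, add_sub_right_comm, dvd_per_one, dvd_per_two] using h
  have : Fact q.Prime := ⟨hq⟩
  obtain ⟨S, h1, h2⟩ := count_F (K := ZMod q)
    (by exact_mod_cast natCast_ne (q := q) two_pos (by omega)) D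
  rw [ZMod.card] at h1
  refine ⟨S, h1, fun P hP => (h2 P hP).1, C (q : ℤ), by simp, fun F hF => ?_⟩
  obtain ⟨-, h3, c, h4, h5, h6⟩ := h2 _ hF
  obtain ⟨j, -, hj⟩ := exists_fx hq h4 h5 h6
  rw [Ne, coeff_ne_iff] at h3
  refine hj.imp (fun h => ⟨h3, j, h⟩) fun h => ⟨?_, j, h⟩
  rwa [coeff_add, coeff_C, if_neg (by omega), add_zero]

end Pool.Agent.Lib.Crit79
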