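import Pool.Agent.Lib.Crit79.QuadLoc
import Pool.Agent.Lib.Crit79.Rich
import Pool.Agent.Lib.Crit79.Glob

set_option autoImplicit false

open Polynomial NumberField IsDedekindDomain WithZero

namespace Pool.Agent.Lib.Crit79

open helper22.Val MP_41de88_nt

lemma quad_eq {L : Type*} [Field L] {F : L[X]} {c : L} (hd : F.natDegree = 2)
    (hc : F.derivative.eval c = 0) : F.coeff 1 = -(2 * F.leadingCoeff * c) ∧
      ∀ x y, F.eval x - F.eval y = F.leadingCoeff * (x - y) * (x + y - 2 * c) := by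
  rw [eval_eq_sum_range' (n := 2) ((natDegree_derivative_le _).trans_lt (by omega))] at hc
  simp only [Finset.sum_range_succ, Finset.sum_range_zero, coeff_derivative] at hc
  norm_num at hc
  rw [leadingCoeff, hd]
  refine ⟨by linear_combination hc, fun x y => ?_⟩
  simp only [eval_eq_sum_range, hd, Finset.sum_range_succ, Finset.sum_range_zero]
  linear_combination (x - y) * hc

lemma QL.of {L Γ : Type*} [Field L] [LinearOrderedCommGroupWithZero Γ] {v : Valuation L Γ}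
    {F : L[X]} {c : L} (hI : IntP v F) (hl : v F.leadingCoeff = 1) (hd : F.natDegree = 2)
    (hc : F.derivative.eval c = 0) (h2 : v 2 = 1) : QL v F F.leadingCoeff c := by
  obtain ⟨e1, e2⟩ := quad_eq hd hc
  refine ⟨hI, hl, by omega, e2, hl, h2, ?_⟩
  have := hI 1
  rwa [e1, Valuation.map_neg, map_mul, map_mul, h2, hl, one_mul, one_mul] at this

variable {f : ℚ[X]} {c : ℚ}

lemma crit_cast (L : Type*) [Field L] [Algebra ℚ L] (hc : f.derivative.eval c = 0) :
    (f.map (algebraMap ℚ L)).derivative.eval (algebraMap ℚ L c) = 0 := by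
  rw [derivative_map, eval_map_algebraMap, aeval_algebraMap_apply, coe_aeval_eq_eval, hc, map_zero]

lemma iter_cast (L : Type*) [Field L] [Algebra ℚ L] (n : ℕ) :
    (fun x => (f.map (algebraMap ℚ L)).eval x)^[n] (algebraMap ℚ L c) - algebraMap ℚ L c =
      algebraMap ℚ L ((fun x => f.eval x)^[n] c - c) := by
  rw [map_sub, cast_iterate, show ev f L = _ from funext ev_eq]

lemma ev_ql {M : Type} [Field M] [NumberField M] (hd : f.natDegree = 2)
    (hc : f.derivative.eval c = 0) : Ev M fun L _ _ _ w => QL (w.valuation L)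
      (f.map (algebraMap ℚ L)) (f.map (algebraMap ℚ L)).leadingCoeff (algebraMap ℚ L c) := by
  refine ((ev_good (M := M) f).and (ev_unit 2)).mono fun L _ _ φ w h => QL.of h.1.1
    (h.1.2 (ne_zero_of_natDegree_gt (n := 0) (by omega))) (by rwa [natDegree_map])
    (crit_cast L hc) ?_
  exact map_ofNat φ 2 ▸ h.2 two_ne_zero

theorem exists_odd (hd : f.natDegree = 2) (hc : f.derivative.eval c = 0)
    (h0 : ∀ n, (fun x => f.eval x)^[n + 1] c ≠ c)
    (hi : Function.Injective fun n => (fun x => f.eval x)^[n] c) (N₀ a : ℕ) :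
    ∃ m, a ≤ m ∧ ∃ p : ℕ, p.Prime ∧ N₀ < p ∧
      Odd (padicValRat p ((fun x => f.eval x)^[m + 1] c - c)) ∧
      0 < padicValRat p ((fun x => f.eval x)^[m + 1] c - c) ∧
      ∀ j < m, ¬ 0 < padicValRat p ((fun x => f.eval x)^[j + 1] c - c) := by
  classical
  have hd0 : f.natDegree ≠ 0 := by omega
  have hg : (X - C c : ℚ[X]) ≠ 0 := X_sub_C_ne_zero c
  let M := (bigP f (X - C c) 1 2).SplittingField
  have : NumberField M := NumberField.of_module_finite ℚ M
  obtain ⟨-, hs⟩ := (splits_bigP_iff (L := M) hd0 hg one_ne_zero 2).mp (SplittingField.splits _)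
  set F := f.map (algebraMap ℚ M) with hF
  set c' := algebraMap ℚ M c with hc'
  have hdF : F.natDegree = 2 := by rwa [hF, natDegree_map]
  obtain ⟨-, hq⟩ := quad_eq hdF (crit_cast M hc)
  have hs0 : ∀ n, (fun x => F.eval x)^[n + 1] c' - c' ≠ 0 := fun n => by
    rw [iter_cast]
    exact (_root_.map_ne_zero _).mpr (sub_ne_zero.mpr (h0 n))
  have hch : ∀ n < 2, ∀ β, (fun x => F.eval x)^[n] β = c' → ∃ y, F.eval y = β := by
    intro n hn β hβ
    obtain ⟨y, hy⟩ := (splits_sub_C hd0 (itP_ne_zero hd0 hg n) (itP_succ (f := f) n ▸ hs _ hn)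
      (x := β) (by
        rw [aeval_itP, show ev f M = _ from funext ev_eq, hβ]
        simp [hc'])).exists_eval_eq_zero (by
        have e : 0 < F.degree := natDegree_pos_iff_degree_pos.mp (by omega)
        exact degree_sub_C e ▸ e.ne')
    exact ⟨y, by rwa [eval_sub, eval_C, sub_eq_zero] at hy⟩
  have hsib : ∀ x, F.eval (2 * c' - x) = F.eval x := fun x => by
    rw [← sub_eq_zero, hq]
    ring
  obtain ⟨β, hβ⟩ := hch 0 (by omega) c' rfl
  obtain ⟨t, ht⟩ := hch 1 (by omega) β hβ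
  obtain ⟨u, hu⟩ := hch 1 (by omega) (2 * c' - β) ((hsib β).trans hβ)
  have hne : ∀ x : M, x ≠ c' → x ≠ 2 * c' - x := fun x hx e =>
    hx (mul_left_cancel₀ two_ne_zero (by linear_combination e))
  have hT : ∀ z ∈ ({t, 2 * c' - t, u} : Set M), F.eval (F.eval z) = c' := by
    rintro z (rfl | rfl | rfl)
    · rw [ht, hβ]
    · rw [hsib, ht, hβ]
    · rw [hu, hsib, hβ]
  have hT1 : ∀ z, F.eval (F.eval z) = c' → z ≠ c' ∧ F.eval z ≠ c' := fun z hz =>
    ⟨fun e => hs0 1 (sub_eq_zero.mpr (e ▸ hz)), fun e => hs0 0 (sub_eq_zero.mpr (e ▸ hz))⟩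
  have hβc : β ≠ 2 * c' - β := hne β (ht ▸ (hT1 t (hT t (by simp))).2)
  obtain ⟨N, hN⟩ := (ev_ql (M := M) hd hc).and (ev_units (M := M)
    (s := ((· - c') '' {t, 2 * c' - t, u} ∪ (fun z => F.eval z - c') '' {t, 2 * c' - t, u}) ∪
      (fun j => (fun x => F.eval x)^[j + 1] c' - c') '' Set.Iio a)
    (((Set.toFinite _).union (Set.toFinite _)).union ((Set.finite_Iio a).image _)))
  have hinf : (Set.range fun n => (fun x => F.eval x)^[n] c').Infinite :=
    Set.infinite_range_of_injective fun i j e => hi ((algebraMap ℚ M).injective (by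
      rwa [cast_iterate, cast_iterate, show ev f M = _ from funext ev_eq]))
  obtain ⟨_, ⟨n, rfl⟩, hm⟩ := hinf.exists_notMem_finite
    (siegel_three _ (finite_places_le (M := M) (max N N₀)) le_rfl (a := t) (b := 2 * c' - t)
      (c := u) (hne t (hT1 t (hT t (by simp))).1) (fun e => hβc (by rw [← hu, ← e, ht]))
      fun e => hβc (by rw [← hu, ← e, hsib, ht]))
  have hbig : ∀ v : HeightOneSpectrum (𝓞 M), v ∉ {v : HeightOneSpectrum (𝓞 M) |
      ∃ p ≤ max N N₀, p.Prime ∧ (p : 𝓞 M) ∈ v.asIdeal} → ∃ p, p.Prime ∧ max N N₀ < p ∧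
        (p : 𝓞 M) ∈ v.asIdeal := by
    intro v hv
    obtain ⟨p, h1, h2⟩ := exists_prime_mem v
    exact ⟨p, h1, not_le.mp fun h => hv ⟨p, h, h1, h2⟩, h2⟩
  rw [Set.mem_ofPred_eq, not_and] at hm
  have hm' := hm fun v hv => by
    obtain ⟨p, h1, h2, h3⟩ := hbig v hv
    have := (hN M (RingHom.id M) p h1 (by omega) v h3).1
    exact this.iter_le this.vc _
  push Not at hm'
  obtain ⟨z, hz, v, hv, hodd⟩ := hm'
  obtain ⟨p, hp, hNp, hpv⟩ := hbig v hv
  obtain ⟨hQ, hU⟩ := hN M (RingHom.id M) p hp (by omega) v hpv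
  have e1 := hU _ (Or.inl (Or.inl ⟨z, hz, rfl⟩)) (sub_ne_zero.mpr (hT1 z (hT z hz)).1)
  have e2 := hU _ (Or.inl (Or.inr ⟨z, hz, rfl⟩)) (sub_ne_zero.mpr (hT1 z (hT z hz)).2)
  have e3 : v.valuation M ((fun x => F.eval x)^[n] c' - z) < 1 :=
    lt_of_le_of_ne (Valuation.map_sub_le _ (hQ.iter_le hQ.vc n) (hQ.vertex_le 2 z (hT z hz)))
      fun e => hodd (by simp [e])
  have e4 := hQ.iso e3 e1
  have e5 := hQ.iso (e4 ▸ e3) e2
  rw [e4, hT z hz, ← Function.iterate_succ_apply' (fun x => F.eval x),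
    ← Function.iterate_succ_apply' (fun x => F.eval x)] at e5
  have hex : ∃ m, v.valuation M ((fun x => F.eval x)^[m + 1] c' - c') < 1 := ⟨n + 1, e5 ▸ e3⟩
  have e6 := hQ.rigid (val_ne_zero (hs0 _)) (Nat.find_spec hex) (fun j hj => Nat.find_min hex hj)
    (n + 1) (e5 ▸ e3)
  have hv : ∀ j, v.valuation M ((fun x => F.eval x)^[j + 1] c' - c') < 1 ↔
      0 < padicValRat p ((fun x => f.eval x)^[j + 1] c - c) := fun j => by
    rw [iter_cast]
    exact val_rat_lt_one_iff hp hpv (sub_ne_zero.mpr (h0 j))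
  refine ⟨Nat.find hex, not_lt.mp fun h => (Nat.find_spec hex).ne
    (hU _ (Or.inr ⟨_, h, rfl⟩) (hs0 _)), p, hp, by omega, ?_, (hv _).mp (Nat.find_spec hex),
    fun j hj h => Nat.find_min hex hj ((hv j).mpr h)⟩
  rw [← Int.not_even_iff_odd, even_iff_two_dvd]
  intro h
  refine hodd ?_
  rw [← e5, e6, iter_cast]
  exact (log_val_rat hp hpv (sub_ne_zero.mpr (h0 _))).symm ▸ h.mul_right _

theorem fpp_quad {F : ℤ[X]} {D q : ℕ} (hd : F.natDegree = 2) (hq : Adm 2 D q) (h : CF 2 D q F) :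
    Irreducible (rl ℚ F D).derivative ∧ ∀ u : ℚ, u ≠ 0 →
      FPP (rl ℚ F D) ((rl ℚ F D).derivative * C u) := by
  classical
  have hD0 : D ≠ 0 := fun e => hq.2.2 (e ▸ dvd_zero _)
  obtain ⟨h0, j, hj⟩ := h
  set f := rl ℚ F D with hf
  have hdf : f.natDegree = 2 := by rw [hf, natDegree_rl hD0, hd]
  have hd1 : f.derivative.degree = 1 := by
    rw [degree_eq_natDegree (derivative_ne_zero' (by omega)), natDegree_derivative, hdf]
    rfl
  have hP := irreducible_of_degree_eq_one hd1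
  refine ⟨hP, fun u hu => ?_⟩
  obtain ⟨c, hc⟩ := exists_root_of_degree_eq_one hd1
  have hQ : ∀ (L : Type) [Field L] [NumberField L] [IsGalois ℚ L],
      ∃ w : HeightOneSpectrum (𝓞 L), QL (w.valuation L) (f.map (algebraMap ℚ L))
        (f.map (algebraMap ℚ L)).leadingCoeff (algebraMap ℚ L c) ∧
      TL (w.valuation L) (w.asIdeal.inertia (L ≃ₐ[ℚ] L)) q (f.map (algebraMap ℚ L))
        (algebraMap ℚ L c) := by
    intro L _ _ _
    have e := crit_cast L hc
    rw [hf, map_rl] at e ⊢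
    obtain ⟨w, -, -, hT, -⟩ := hj.exists_tl hd two_ne_zero hq h0 hP (L := L) (by
      rw [← map_rl, derivative_map]
      exact Splits.of_degree_eq_one (by rwa [degree_map])) e
    refine ⟨w, QL.of hT.int hT.lead (by rw [natDegree_rl hD0, hd]) e ?_, hT⟩
    exact_mod_cast val_nat_eq_one' hq.1 hT.vq_lt (n := 2) (Nat.not_dvd_of_pos_of_lt two_pos hq.2.1)
  obtain ⟨h1, h2⟩ : (∀ n, (fun x => f.eval x)^[n + 1] c ≠ c) ∧
      Function.Injective fun n => (fun x => f.eval x)^[n] c := by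
    obtain ⟨L, _, _, _⟩ : ∃ (L : Type) (_ : Field L) (_ : NumberField L), IsGalois ℚ L :=
      ⟨ℚ, inferInstance, inferInstance, IsGalois.self ℚ⟩
    obtain ⟨w, e1, e2⟩ := hQ L
    have e3 := e2.first
    rw [Valuation.map_sub_swap] at e3
    have e4 := e1.wander (e3 ▸ e2.vq0) (e3 ▸ e2.vq_lt)
    refine ⟨fun n e => e4.1 n ?_, fun i j e => e4.2 ?_⟩
    · rw [← sub_eq_zero, iter_cast, e, sub_self, map_zero]
    · simp only at e ⊢
      rw [← sub_left_inj (a := algebraMap ℚ L c), iter_cast, iter_cast, e]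
  obtain ⟨N₀, hN₀⟩ := ev_ql (M := ℚ) hdf hc
  refine fpp_of_tree (by omega) (mul_ne_zero hP.ne_zero (C_ne_zero.mpr hu)) fun ε hε => ?_
  obtain ⟨R, hR⟩ := fix_small.{0, 0} 2 one_le_two hε
  obtain ⟨good, hg1, hg2⟩ := (Set.infinite_of_forall_exists_gt fun a =>
    (exists_odd hdf hc h1 h2 N₀ (a + 1)).imp fun m hm => ⟨hm.2, hm.1⟩).exists_subset_card_eq R
  refine ⟨good.sup id + 1, fun L _ _ _ _ c' _ W _ hc' hW hsp => ?_⟩
  obtain ⟨w, hw, hT⟩ := hQ L
  obtain rfl : c' = algebraMap ℚ L c := by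
    rw [map_mul, aeval_C, mul_eq_zero_iff_right (by simpa using hu), ← eval_map_algebraMap,
      ← derivative_map] at hc'
    have e := hw.eq
    have e1 := (quad_eq (by rwa [natDegree_map]) hc').1
    rw [(quad_eq (by rwa [natDegree_map]) (crit_cast L hc)).1, neg_inj, mul_right_inj'] at e1
    · exact e1.symm
    · simpa using ne_zero_of_natDegree_gt (n := 0) (p := f) (by omega)
  set E := f.map (algebraMap ℚ L) with hE0
  have hE : ∀ (σ : L ≃ₐ[ℚ] L) x, E.eval (σ • x) = σ • E.eval x := fun σ =>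
    eval_smul_of_fix (hT.fix σ)
  have hit : ∀ (σ : L ≃ₐ[ℚ] L) n x, (fun x => E.eval x)^[n] (σ • x) =
      σ • (fun x => E.eval x)^[n] x := fun σ n x =>
    ((Function.Semiconj.iterate_right (f := (σ • ·)) (fun x => (hE σ x).symm) n) x).symm
  have hcf : ∀ σ : L ≃ₐ[ℚ] L, σ • algebraMap ℚ L c = algebraMap ℚ L c := fun σ => σ.commutes c
  have a1 : ∀ n, ∀ y ∈ W (n + 1), E.eval y ∈ W n := fun n y hy => by
    rw [hW] at hy ⊢
    exact hy
  have a2 : ∀ n (σ : MulAction.stabilizer (L ≃ₐ[ℚ] L) (algebraMap ℚ L c)), ∀ y ∈ W n,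
      σ • y ∈ W n := fun n σ y hy => by
    rw [hW] at hy ⊢
    exact (hit σ n y).trans (by rw [hy, hcf])
  have a3 : ∀ n, ∀ x ∈ W n, ∀ y ∈ W n,
      ∃ σ : MulAction.stabilizer (L ≃ₐ[ℚ] L) (algebraMap ℚ L c), σ • x = y := fun n x hx y hy => by
    obtain ⟨σ, hσ⟩ := hw.trans hT n x y ((hW n x).mp hx) ((hW n y).mp hy)
    exact ⟨⟨σ, hcf σ⟩, hσ⟩
  refine le_trans (Nat.cast_le.mpr (Finset.card_le_card fun σ hσ => ?_)) (hR _ L ⊤ W
    (fun x => E.eval x) (good.sup id + 1) good (fun σ => hE σ) a1 a2 (fun n x => ?_) a3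
    (fun m hm => ?_) hg2.ge)
  · obtain ⟨y, hy⟩ := Finset.card_pos.mp (Finset.mem_filter.mp hσ).2
    rw [Finset.mem_filter] at hy
    exact mem_fixSet.mpr ⟨trivial, y, hy⟩
  · obtain ⟨e1, e2⟩ := fibre_finite (F := E) hw.deg x
    rw [hE0, natDegree_map, hdf] at e2
    rw [← Set.ncard_coe_finset]
    exact (Set.ncard_le_ncard (fun y hy => (Finset.mem_filter.mp hy).2) e1).trans e2
  · have hm' : m < good.sup id + 1 := Nat.lt_succ_of_le (Finset.le_sup (f := id) hm)
    obtain ⟨p, hp, hNp, b1, b2, b3⟩ := hg1 hm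
    obtain ⟨w', hw'⟩ := exists_over L hp
    have hv : ∀ j, w'.valuation L ((fun x => E.eval x)^[j + 1] (algebraMap ℚ L c) -
        algebraMap ℚ L c) < 1 ↔ 0 < padicValRat p ((fun x => f.eval x)^[j + 1] c - c) := fun j => by
      rw [iter_cast]
      exact val_rat_lt_one_iff hp hw' (sub_ne_zero.mpr (h1 j))
    obtain ⟨τ, y, b4, b5, b6, b7⟩ := (hN₀ L (algebraMap ℚ L) p hp hNp w' hw').swap inert_full
      (fun σ => hE σ) (fun σ => hcf σ) (m := m) b1.neg (by
        rw [iter_cast, neg_mul_comm, ← log_val_prime hp hw']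
        exact log_val_rat hp hw' (sub_ne_zero.mpr (h1 m))) ((hv m).mpr b2)
      (fun j hj e => b3 j hj ((hv j).mp e)) fun n hn => hsp n (by omega)
    refine ⟨hm', fun σ _ => ?_⟩
    obtain ⟨g, b8, b9⟩ := binary_kill (f := fun x => E.eval x)
      (G := MulAction.stabilizer (L ≃ₐ[ℚ] L) (algebraMap ℚ L c)) (fun σ => hE σ) (a1 m) (a2 m)
      (a2 (m + 1)) (fun y y' y'' e1 e2 e3 e4 =>
        add_right_cancel ((hw.sib e1 e3).trans (hw.sib e2 e4).symm)) (a3 m) (τ := ⟨τ, hcf τ⟩)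
      (fun x hx => b4 x ((hW m x).mp hx)) ((hW _ y).mpr b5) b6
      (fun z hz => b7 z ((hW _ z).mp hz)) σ
    exact ⟨g, trivial, b8, b9⟩

end Pool.Agent.Lib.Crit79
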