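import Pool.Agent.Lib.Crit79.LocT
import Pool.Agent.Lib.Crit79.Grp

set_option autoImplicit false
set_option linter.unusedSectionVars false

open Polynomial WithZero

namespace Pool.Agent.Lib.Crit79

open helper22.Val MP_41de88_nt

lemma binary_kill {G L : Type*} [Group G] [MulAction G L] {V W : Finset L} {f : L → L}
    (hf : ∀ (σ : G) x, f (σ • x) = σ • f x) (hWV : ∀ y ∈ W, f y ∈ V)
    (hV : ∀ (σ : G), ∀ y ∈ V, σ • y ∈ V) (hW : ∀ (σ : G), ∀ y ∈ W, σ • y ∈ W)
    (hbin : ∀ y y' y'', f y' = f y → f y'' = f y → y' ≠ y → y'' ≠ y → y' = y'')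
    (ht : ∀ x ∈ V, ∀ y ∈ V, ∃ σ : G, σ • x = y) {τ : G} (h1 : τ ∈ fixer G V) {y₀ : L}
    (h2 : y₀ ∈ W) (h3 : τ • y₀ ≠ y₀) (h4 : ∀ z ∈ W, τ • z ≠ z → f z = f y₀) (σ : G) :
    ∃ h : G, (∀ x ∈ V, h • x = x) ∧ ∀ y ∈ W, h • σ • y ≠ y := by
  classical
  have h5 : ∀ z, f z = f y₀ → τ • z ≠ z := fun z hz e => by
    have e1 : z ≠ y₀ := fun e' => h3 (e' ▸ e)
    have e2 := hbin y₀ z (τ • y₀) hz (by rw [hf, h1 _ (hWV _ h2)]) e1 h3
    exact e1 (MulAction.injective τ (e.trans e2))
  have h6 : ∀ S : Finset L, S ⊆ V → ∃ h ∈ fixer G V, ∀ y ∈ W,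
      (f y ∈ S → h • y ≠ y) ∧ (f y ∉ S → h • y = y) := by
    intro S
    induction S using Finset.induction_on with
    | empty => exact fun _ => ⟨1, one_mem _, fun y _ => by simp⟩
    | insert β S hβ ih =>
      intro hS
      obtain ⟨h, hh, e⟩ := ih ((Finset.subset_insert _ _).trans hS)
      obtain ⟨g, hg⟩ := ht _ (hWV _ h2) β (hS (Finset.mem_insert_self _ _))
      have e1 : ∀ z, f z = β → (g * τ * g⁻¹) • z ≠ z := fun z hz e' => h5 (g⁻¹ • z)
        (by rw [hf, hz, ← hg, inv_smul_smul])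
        (by rwa [mul_smul, mul_smul, smul_eq_iff_eq_inv_smul] at e')
      have e2 : ∀ z ∈ W, f z ≠ β → (g * τ * g⁻¹) • z = z := fun z hz e' => by
        rw [mul_smul, mul_smul, smul_eq_iff_eq_inv_smul]
        by_contra hne
        exact e' (by rw [← hg, ← h4 _ (hW _ _ hz) hne, hf, smul_inv_smul])
      refine ⟨g * τ * g⁻¹ * h, mul_mem (conj_mem_fixer hV g h1) hh, fun y hy => ?_⟩
      have e3 : f (h • y) = f y := by rw [hf, hh _ (hWV y hy)]
      rw [mul_smul, Finset.mem_insert]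
      by_cases hy' : f y = β
      · rw [(e y hy).2 (hy' ▸ hβ)]
        exact ⟨fun _ => e1 y hy', fun h => absurd (Or.inl hy') h⟩
      · rw [e2 _ (hW _ _ hy) (e3 ▸ hy')]
        exact ⟨fun h => (e y hy).1 (h.resolve_left hy'), fun h => (e y hy).2 fun h' => h (Or.inr h')⟩
  obtain ⟨h, hh, e⟩ := h6 (V.filter fun β => ∃ y ∈ W, f y = β ∧ σ • y = y) (Finset.filter_subset _ _)
  refine ⟨h, hh, fun y hy e' => ?_⟩
  have e1 : f (σ • y) = f y := by
    rw [← hh _ (hWV _ (hW σ y hy)), ← hf, e']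
  by_cases hS : f y ∈ V.filter fun β => ∃ y ∈ W, f y = β ∧ σ • y = y
  · obtain ⟨z, -, e2, e3⟩ := (Finset.mem_filter.mp hS).2
    refine (e y hy).1 hS (by_contra fun hne => ?_)
    have e4 : σ • y ≠ y := fun e4 => hne (by rwa [e4] at e')
    have e5 : z ≠ y := fun e5 => e4 (e5 ▸ e3)
    exact e5 (MulAction.injective σ (e3.trans (hbin y z _ e2 e1 e5 e4)))
  · rw [(e _ (hW σ y hy)).2 (e1 ▸ hS)] at e'
    exact hS (Finset.mem_filter.mpr ⟨hWV y hy, y, hy, rfl, e'⟩)

variable {L Γ : Type*} [Field L] [LinearOrderedCommGroupWithZero Γ]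

/-- a quadratic polynomial with good reduction at a place of odd residue characteristic -/
structure QL (v : Valuation L Γ) (F : L[X]) (a c : L) : Prop where
  int : IntP v F
  lead : v F.leadingCoeff = 1
  deg : F.natDegree ≠ 0
  eq : ∀ x y, F.eval x - F.eval y = a * (x - y) * (x + y - 2 * c)
  va : v a = 1
  v2 : v 2 = 1
  vc : v c ≤ 1

variable {v : Valuation L Γ} {F : L[X]} {a c : L}

lemma QL.sq (h : QL v F a c) (x : L) : v (F.eval x - F.eval c) = v (x - c) ^ 2 := by
  rw [h.eq, show x + c - 2 * c = x - c by ring, map_mul, map_mul, h.va, one_mul, pow_two]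

lemma QL.iso (h : QL v F a c) {x y : L} (h1 : v (x - y) < 1) (h2 : v (y - c) = 1) :
    v (F.eval x - F.eval y) = v (x - y) := by
  rw [h.eq, map_mul, map_mul, h.va, one_mul, val_eq_one_of_sub_lt (a := x + y - 2 * c)
    (b := 2 * (y - c)) (by rw [map_mul, h.v2, h2, one_mul]) (by
      rwa [show x + y - 2 * c - 2 * (y - c) = x - y by ring]), mul_one]

lemma QL.sib (h : QL v F a c) {x y : L} (h1 : F.eval x = F.eval y) (h2 : x ≠ y) :
    x + y = 2 * c := by
  have := h.eq x y
  rw [h1, sub_self, eq_comm, mul_eq_zero, mul_eq_zero, sub_eq_zero, sub_eq_zero] at this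
  refine this.resolve_left (not_or.mpr ⟨fun e => ?_, h2⟩)
  simpa [e] using h.va

lemma QL.sib_close (h : QL v F a c) {x y : L} (h1 : F.eval x = F.eval y) (h2 : x ≠ y)
    (h3 : v (x - y) < 1) : v (x - c) < 1 := by
  rwa [show x - y = 2 * (x - c) by linear_combination -h.sib h1 h2, map_mul, h.v2, one_mul] at h3

lemma QL.iter_le (h : QL v F a c) {x : L} (hx : v x ≤ 1) (n : ℕ) :
    v ((fun x => F.eval x)^[n] x) ≤ 1 := by
  induction n with
  | zero => exact hx
  | succ n ih => rw [Function.iterate_succ_apply']; exact h.int.eval ih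

lemma QL.iter_sub_le (h : QL v F a c) {x y : L} (hx : v x ≤ 1) (hy : v y ≤ 1) (n : ℕ) :
    v ((fun x => F.eval x)^[n] x - (fun x => F.eval x)^[n] y) ≤ v (x - y) := by
  induction n with
  | zero => exact le_rfl
  | succ n ih =>
    rw [Function.iterate_succ_apply', Function.iterate_succ_apply']
    exact (h.int.eval_sub_le (h.iter_le hx n) (h.iter_le hy n)).trans ih

lemma QL.vertex_le (h : QL v F a c) (n : ℕ) : ∀ x, (fun x => F.eval x)^[n] x = c → v x ≤ 1 := by
  induction n with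
  | zero => rintro x rfl; exact h.vc
  | succ n ih => exact fun x hx => h.int.le_one_of_eval h.lead h.deg (ih _ hx)

lemma QL.rigid (h : QL v F a c) {m : ℕ} (h0 : v ((fun x => F.eval x)^[m + 1] c - c) ≠ 0)
    (h1 : v ((fun x => F.eval x)^[m + 1] c - c) < 1)
    (h2 : ∀ j < m, ¬ v ((fun x => F.eval x)^[j + 1] c - c) < 1) (n : ℕ)
    (hn : v ((fun x => F.eval x)^[n + 1] c - c) < 1) :
    v ((fun x => F.eval x)^[n + 1] c - c) = v ((fun x => F.eval x)^[m + 1] c - c) := by
  induction n using Nat.strong_induction_on with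
  | _ n ih =>
    rcases lt_trichotomy n m with hl | rfl | hl
    · exact absurd hn (h2 n hl)
    · rfl
    obtain ⟨k, rfl⟩ : ∃ k, n = k + (m + 1) := ⟨n - (m + 1), by omega⟩
    have h3 : v ((fun x => F.eval x)^[k + (m + 1) + 1] c - (fun x => F.eval x)^[k + 1] c)
        < v ((fun x => F.eval x)^[m + 1] c - c) := by
      rw [add_right_comm, Function.iterate_add_apply, Function.iterate_succ_apply,
        Function.iterate_succ_apply _ k]
      refine (h.iter_sub_le (h.int.eval (h.iter_le h.vc _)) (h.int.eval h.vc) k).trans_lt ?_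
      rw [h.sq]
      exact pow_lt_self_of_lt_one₀ (zero_lt_iff.mpr h0) h1 one_lt_two
    have h4 := ih k (by omega) (by
      have := v.map_sub_lt hn (h3.trans h1)
      rwa [sub_sub_sub_cancel_left] at this)
    rw [← h4] at h3 ⊢
    have := v.map_add_eq_of_lt_right h3
    rwa [sub_add_sub_cancel] at this

lemma QL.wander (h : QL v F a c) (h0 : v (F.eval c - c) ≠ 0) (h1 : v (F.eval c - c) < 1) :
    (∀ n, (fun x => F.eval x)^[n + 1] c ≠ c) ∧
      Function.Injective fun n => (fun x => F.eval x)^[n] c := by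
  set t := v (F.eval c - c) with ht
  have e0 : t ^ 2 < t := pow_lt_self_of_lt_one₀ (zero_lt_iff.mpr h0) h1 one_lt_two
  have e1 : ∀ n, v ((fun x => F.eval x)^[n] c - c) ≤ t := by
    intro n
    induction n with
    | zero => simp
    | succ n ih =>
      rw [Function.iterate_succ_apply', ← sub_add_sub_cancel _ (F.eval c)]
      exact v.map_add_le (by rw [h.sq]; exact (pow_le_pow_left' ih 2).trans e0.le) le_rfl
  have e2 : ∀ n, v ((fun x => F.eval x)^[n + 1] c - F.eval c) < t := fun n => by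
    rw [Function.iterate_succ_apply', h.sq]
    exact (pow_le_pow_left' (e1 n) 2).trans_lt e0
  have e3 : ∀ n, v ((fun x => F.eval x)^[n + 1] c - (fun x => F.eval x)^[n] c) = t ^ (n + 1) := by
    intro n
    induction n with
    | zero => rw [zero_add, pow_one]; rfl
    | succ n ih =>
      rw [Function.iterate_succ_apply', Function.iterate_succ_apply' _ n c, h.eq,
        ← Function.iterate_succ_apply' (fun x => F.eval x) n c, map_mul, map_mul, h.va, one_mul,
        ih, pow_succ t (n + 1)]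
      congr 1
      rcases n with _ | n
      · rw [ht]; congr 1; simp; ring
      · have e4 : v (2 * (F.eval c - c)) = t := by rw [map_mul, h.v2, one_mul]
        rw [← e4]
        refine v.map_eq_of_sub_lt ?_
        rw [e4]
        convert v.map_add_lt (e2 (n + 1)) (e2 n) using 2
        ring
  refine ⟨fun n e => ?_, fun i j e => ?_⟩
  · have := e2 n
    rw [e, Valuation.map_sub_swap] at this
    exact lt_irrefl _ this
  · have e4 := e3 i
    simp only at e
    rw [Function.iterate_succ_apply', e, ← Function.iterate_succ_apply'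
      (fun x => F.eval x), e3 j] at e4
    exact Nat.succ_inj.mp ((pow_right_strictAnti₀ (zero_lt_iff.mpr h0) h1).injective e4).symm

lemma QL.sep (h : QL v F a c) {m : ℕ} (h2 : ∀ j < m, ¬ v ((fun x => F.eval x)^[j + 1] c - c) < 1)
    (j : ℕ) (hj : j ≤ m) : ∀ x y, (fun x => F.eval x)^[j] x = c → (fun x => F.eval x)^[j] y = c →
      v (x - y) < 1 → x = y := by
  induction j with
  | zero => exact fun x y hx hy _ => hx.trans hy.symm
  | succ j ih =>
    intro x y hx hy hxy
    by_contra hne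
    have h3 := h.sib_close (ih (by omega) _ _ hx hy (h.int.eval_sub_lt (h.vertex_le _ x hx)
      (h.vertex_le _ y hy) hxy)) hne hxy
    refine h2 j hj ?_
    have := (h.iter_sub_le (h.vertex_le _ x hx) h.vc (j + 1)).trans_lt h3
    rwa [hx, Valuation.map_sub_swap] at this

lemma QL.exists_child (h : QL v F a c) {β z : L} (hs : (F - C β).Splits)
    (ha : v (F.eval z - β) < 1) : ∃ y, F.eval y = β ∧ v (y - z) < 1 := by
  obtain ⟨y, h1, h2⟩ := exists_root_close hs (v := v) (by
    rw [leadingCoeff_sub_of_degree_lt, h.lead]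
    exact degree_C_le.trans_lt (natDegree_pos_iff_degree_pos.mp (Nat.pos_of_ne_zero h.deg)))
    (a := z) (by rwa [eval_sub, eval_C])
  rw [eval_sub, eval_C, sub_eq_zero] at h1
  exact ⟨y, h1, by rwa [Valuation.map_sub_swap]⟩

lemma QL.path (h : QL v F a c) {m : ℕ} (h1 : v ((fun x => F.eval x)^[m + 1] c - c) < 1)
    (h2 : ∀ j < m, ¬ v ((fun x => F.eval x)^[j + 1] c - c) < 1)
    (hs : ∀ n ≤ m, ∀ β, (fun x => F.eval x)^[n] β = c → (F - C β).Splits) (j k : ℕ)
    (hjk : j + k = m) : ∃ x, (fun x => F.eval x)^[j] x = c ∧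
      v (x - (fun x => F.eval x)^[k + 1] c) = v ((fun x => F.eval x)^[m + 1] c - c) := by
  induction j generalizing k with
  | zero => exact ⟨c, rfl, by rw [← hjk, zero_add, Valuation.map_sub_swap]⟩
  | succ j ih =>
    obtain ⟨x, h3, h4⟩ := ih (k + 1) (by omega)
    rw [Function.iterate_succ_apply'] at h4
    obtain ⟨y, h5, h6⟩ := h.exists_child (hs j (by omega) x h3) (z := (fun x => F.eval x)^[k + 1] c)
      (by rwa [Valuation.map_sub_swap, h4])
    refine ⟨y, by rw [Function.iterate_succ_apply, h5, h3], ?_⟩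
    rw [← h4, ← h5, h.iso h6 (le_antisymm (v.map_sub_le (h.iter_le h.vc _) h.vc)
      (not_lt.mp (h2 k (by omega))))]

theorem QL.swap {v : Valuation L ℤᵐ⁰} (h : QL v F a c) {J : Type*} [Group J] [Finite J]
    [MulSemiringAction J L] (hJ : Inert v J) (hE : ∀ (σ : J) x, F.eval (σ • x) = σ • F.eval x)
    (hc : ∀ σ : J, σ • c = c) {m : ℕ} {k : ℤ} (hk : Odd k)
    (h0 : log (v ((fun x => F.eval x)^[m + 1] c - c)) = k * Nat.card J)
    (h1 : v ((fun x => F.eval x)^[m + 1] c - c) < 1)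
    (h2 : ∀ j < m, ¬ v ((fun x => F.eval x)^[j + 1] c - c) < 1)
    (hs : ∀ n ≤ m, ∀ β, (fun x => F.eval x)^[n] β = c → (F - C β).Splits) :
    ∃ (τ : J) (y : L), (∀ x, (fun x => F.eval x)^[m] x = c → τ • x = x) ∧
      (fun x => F.eval x)^[m + 1] y = c ∧ τ • y ≠ y ∧
      ∀ z, (fun x => F.eval x)^[m + 1] z = c → τ • z ≠ z → F.eval z = F.eval y := by
  obtain ⟨x, h3, h4⟩ := h.path h1 h2 hs m 0 rfl
  change v (x - F.eval c) = _ at h4
  obtain ⟨y, h5, -⟩ := h.exists_child (hs m le_rfl x h3) (z := c)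
    (by rwa [Valuation.map_sub_swap, h4])
  have hfix : ∀ (τ : J) x, (fun x => F.eval x)^[m] x = c → τ • x = x := fun τ x hx =>
    h.sep h2 m le_rfl _ _ (by
      rw [← (Function.Semiconj.iterate_right (f := (τ • ·)) (fun x => (hE τ x).symm) m) x, hx]
      exact hc τ) hx (hJ.res τ x (h.vertex_le _ x hx))
  obtain ⟨τ, hτ⟩ : ∃ τ : J, τ • y ≠ y := by
    by_contra hcon
    push Not at hcon
    obtain ⟨s, hs⟩ := hJ.dvd ⊤ (y - c) fun σ _ => by rw [smul_sub, hcon, hc]
    rw [← h4, ← h5, h.sq, log_pow, hs, Subgroup.card_top, nsmul_eq_mul, Nat.cast_ofNat,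
      mul_left_comm, mul_comm k, mul_right_inj' (by exact_mod_cast Nat.card_pos.ne')] at h0
    exact Int.not_odd_iff_even.mpr (h0 ▸ even_two_mul s) hk
  refine ⟨τ, y, hfix τ, by rw [Function.iterate_succ_apply, h5, h3], hτ, fun z hz hz' => ?_⟩
  have h6 := h.vertex_le _ z hz
  have h7 := h.sib_close (x := z) (y := τ • z) (by rw [hE, hfix τ _ hz]) hz'.symm
    (by rw [Valuation.map_sub_swap]; exact hJ.res τ z h6)
  rw [h5]
  refine h.sep h2 m le_rfl _ _ hz h3 ?_
  have := v.map_sub_lt (h.int.eval_sub_lt h6 h.vc h7) (h4 ▸ h1)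
  rwa [sub_sub_sub_cancel_right] at this

theorem QL.trans {G : Type*} [Group G] [MulSemiringAction G L] {v : Valuation L ℤᵐ⁰}
    {J : Subgroup G} [Finite J] {q : ℕ} (h : QL v F a c) (hT : TL v J q F c) (n : ℕ) :
    ∀ x y, (fun x => F.eval x)^[n] x = c → (fun x => F.eval x)^[n] y = c →
      ∃ σ : J, σ • x = y := by
  have hN : ∀ n x, (fun x => F.eval x)^[n] x = c → Near v q F c n x := by
    intro n
    induction n with
    | zero => exact fun x hx => ⟨hx, by rw [show x = c from hx, pow_zero, pow_one, hT.first]⟩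
    | succ n ih =>
      intro x hx
      have h1 := hT.lt_one (ih _ hx).2
      rw [h.sq] at h1
      exact hT.near_child (ih _ hx) (lt_of_pow_lt_pow_left₀ 2 zero_le (by rwa [one_pow]))
  have hE : ∀ (σ : J) x, F.eval (σ • x) = σ • F.eval x := fun σ => eval_smul_of_fix (hT.fix σ)
  induction n with
  | zero => exact fun x y hx hy => ⟨1, by rw [one_smul]; exact hx.trans hy.symm⟩
  | succ n ih =>
    intro x y hx hy
    obtain ⟨σ, hσ⟩ := ih _ _ hx hy
    obtain ⟨τ, -, hτ⟩ := hT.trans (hN _ (σ • x) (by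
      rw [Function.iterate_succ_apply, hE, hσ]; exact hy)) (hN _ y hy) (by rw [hE, hσ])
    exact ⟨τ * σ, by rw [mul_smul, hτ]⟩

end Pool.Agent.Lib.Crit79
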